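import Pool.Agent.Lib.H96K.D

/-! Chunk A1 (S): basic properties of `Xt` -/

set_option autoImplicit false

namespace Pool.Agent.Lib.H96K

open Pool.Agent.Lib.H52K

/-- PROOF. `List.mem_filter`. -/
theorem mem_Xt {n k z t x : ℕ} : x ∈ Xt n k z t ↔ x ∈ En k z t ∧ x ∈ En n 0 t := by
  unfold Xt
  rw [List.mem_filter, decide_eq_true_eq]

/-- PROOF. `En_nodup`, `List.Nodup.filter`. -/
theorem Xt_nodup (n k z t : ℕ) : (Xt n k z t).Nodup := (En_nodup k z t).filter _

/-- PROOF. `En_prefix` (a prefix is a sublist, `List.IsPrefix.subset`). -/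
theorem Xt_mono (n k z : ℕ) {s t : ℕ} (h : s ≤ t) : ∀ x ∈ Xt n k z s, x ∈ Xt n k z t := by
  intro x hx
  rw [mem_Xt] at hx ⊢
  exact ⟨(En_prefix k z h).subset hx.1, (En_prefix n 0 h).subset hx.2⟩

/-- PROOF. `List.length_filter_le`, `En_length`. -/
theorem Xt_length (n k z t : ℕ) : (Xt n k z t).length ≤ 2 ^ k :=
  (List.length_filter_le _ _).trans (En_length k z t)

/-- PROOF. A list without repetitions which is contained in another list is not longer
(`List.Nodup.subperm`, `List.Subperm.length_le`). -/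
theorem Xt_length_mono (n k z : ℕ) {s t : ℕ} (h : s ≤ t) :
    (Xt n k z s).length ≤ (Xt n k z t).length :=
  ((Xt_nodup n k z s).subperm (Xt_mono n k z h)).length_le

/-- PROOF. `KS_le_of_mem_En`. -/
theorem KS_of_mem_Xt {n k z t x : ℕ} (h : x ∈ Xt n k z t) : KS x z ≤ k ∧ KS x 0 ≤ n := by
  rw [mem_Xt] at h
  exact ⟨KS_le_of_mem_En h.1, KS_le_of_mem_En h.2⟩

/-- PROOF. `exists_mem_En` twice, the larger of the two stages, `En_prefix`. -/
theorem exists_mem_Xt {n k z x : ℕ} (h : KS x z ≤ k) (h' : KS x 0 ≤ n) :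
    ∃ t, x ∈ Xt n k z t := by
  obtain ⟨t1, h1⟩ := exists_mem_En h
  obtain ⟨t2, h2⟩ := exists_mem_En h'
  exact ⟨max t1 t2, mem_Xt.2 ⟨(En_prefix k z (le_max_left t1 t2)).subset h1, (En_prefix n 0 (le_max_right t1 t2)).subset h2⟩⟩

end Pool.Agent.Lib.H96K
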