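import Pool.Agent.Lib.H96K.A1

/-! Chunk A2 (S): last and first stages -/

set_option autoImplicit false

namespace Pool.Agent.Lib.H96K

open Pool.Agent.Lib.H52K

/-- The enumeration stops. PROOF. The lengths are bounded by `2 ^ k` (`Xt_length`): take `t₀` with the
largest length (`Nat.findGreatest`, or a maximum of a bounded set of natural numbers). If `x ∈ Xt t` then let
`t₁ = max t t₀`: `Xt t₀` is contained in `Xt t₁` and not shorter, both are without repetitions, so they have the
same elements. -/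
theorem Xt_final (n k z : ℕ) : ∃ t₀, ∀ t, ∀ x ∈ Xt n k z t, x ∈ Xt n k z t₀ := by
  classical
  obtain ⟨t₀, ht₀⟩ : ∃ t₀, ∀ t, (Xt n k z t).length ≤ (Xt n k z t₀).length := by
    obtain ⟨m, ⟨t₀, rfl⟩, hm⟩ := (Set.range fun t => (Xt n k z t).length).exists_max_image id
      (Set.Finite.subset (Set.finite_Iic (2 ^ k)) (by rintro _ ⟨t, rfl⟩; exact Xt_length n k z t)) ⟨_, 0, rfl⟩
    exact ⟨t₀, fun t => hm _ ⟨t, rfl⟩⟩
  refine ⟨t₀, fun t x hx => ?_⟩
  have h1 : x ∈ Xt n k z (max t t₀) := Xt_mono n k z (le_max_left t t₀) x hx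
  have h2 : List.Subperm (Xt n k z t₀) (Xt n k z (max t t₀)) := (Xt_nodup n k z t₀).subperm (Xt_mono n k z (le_max_right t t₀))
  exact (h2.perm_of_length_le (ht₀ _)).mem_iff.2 h1

/-- PROOF. `Nat.find`. -/
theorem exists_Fst {n k z m t : ℕ} (h : m ≤ (Xt n k z t).length) :
    ∃ t' ≤ t, Fst n k z m t' := by
  classical
  have hex : ∃ t, m ≤ (Xt n k z t).length := ⟨t, h⟩
  exact ⟨Nat.find hex, Nat.find_min' hex h, Nat.find_spec hex, fun t' ht' => not_le.1 (Nat.find_min hex ht')⟩

/-- PROOF. `lt_trichotomy`. -/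
theorem Fst_unique {n k z m t t' : ℕ} (h : Fst n k z m t) (h' : Fst n k z m t') : t = t' := by
  rcases lt_trichotomy t t' with h1 | h1 | h1
  · exact absurd h.1 (not_le.2 (h'.2 t h1))
  · exact h1
  · exact absurd h'.1 (not_le.2 (h.2 t' h1))

/-- One of two elements is enumerated not later than the other one.
PROOF. Otherwise there are stages `t₁` (with `y`, without `x`) and `t₂` (with `x`, without `y`): contradiction to
`Xt_mono` for the larger one of the two stages. -/
theorem order (n k l z x y : ℕ) : (∀ t, y ∈ Xt n l z t → x ∈ Xt n k z t) ∨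
    (∀ t, x ∈ Xt n k z t → y ∈ Xt n l z t) := by
  by_contra hcon
  rw [not_or] at hcon
  obtain ⟨h1, h2⟩ := hcon
  push Not at h1 h2
  obtain ⟨t1, hy1, hx1⟩ := h1
  obtain ⟨t2, hx2, hy2⟩ := h2
  rcases le_total t1 t2 with h | h
  · exact hy2 (Xt_mono n l z h y hy1)
  · exact hx1 (Xt_mono n k z h x hx2)

end Pool.Agent.Lib.H96K
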