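import Pool.Agent.Lib.H96K.D
import Pool.Agent.Lib.H52K.K3c

/-! Chunk A3 (S/M): `Xt`, `Fst` are primitive recursive -/

set_option autoImplicit false

namespace Pool.Agent.Lib.H96K

open Pool.Agent.Lib.H52K

/-- PROOF. `K3c_En` (file K3c of H52K). -/
theorem En_prim {α : Type*} [Primcodable α] {f g h : α → ℕ} (hf : Primrec f) (hg : Primrec g)
    (hh : Primrec h) : Primrec fun a => En (f a) (g a) (h a) := by
  have h := K3c_En.comp (Primrec.pair (Primrec.pair hf hg) hh)
  exact h

/-- PROOF. `filter_primrec`, `mem_primrec` (file P0 of H52K), `En_prim`. -/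
theorem Xt_prim {α : Type*} [Primcodable α] {f g h l : α → ℕ} (hf : Primrec f) (hg : Primrec g)
    (hh : Primrec h) (hl : Primrec l) : Primrec fun a => Xt (f a) (g a) (h a) (l a) := by
  unfold Xt
  refine filter_primrec (f := fun a => En (g a) (h a) (l a))
    (p := fun (a : α) (x : ℕ) => x ∈ En (f a) 0 (l a)) (En_prim hg hh hl) ?_
  exact (PrimrecRel.comp (R := fun (a : ℕ) (l : List ℕ) => a ∈ l) mem_primrec
    Primrec.snd (En_prim (hf.comp Primrec.fst) (Primrec.const 0) (hl.comp Primrec.fst))).primrecRel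

/-- PROOF. `Xt_prim`, `forall_lt_primrec` (file P0 of H52K), `Primrec.nat_le`, `Primrec.nat_lt`. -/
theorem Fst_prim {α : Type*} [Primcodable α] {f g h m l : α → ℕ} (hf : Primrec f)
    (hg : Primrec g) (hh : Primrec h) (hm : Primrec m) (hl : Primrec l) :
    PrimrecPred fun a => Fst (f a) (g a) (h a) (m a) (l a) := by
  unfold Fst
  refine PrimrecPred.and ?_ ?_
  · exact Primrec.nat_le.comp hm (Primrec.list_length.comp (Xt_prim hf hg hh hl))
  · refine forall_lt_primrec (f := l) (p := fun (a : α) (t' : ℕ) =>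
      (Xt (f a) (g a) (h a) t').length < m a) hl ?_
    exact (Primrec.nat_lt.comp (Primrec.list_length.comp (Xt_prim (hf.comp Primrec.fst)
      (hg.comp Primrec.fst) (hh.comp Primrec.fst) Primrec.snd)) (hm.comp Primrec.fst)).primrecRel

end Pool.Agent.Lib.H96K
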