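import Pool.Agent.Lib.H96K.A3

/-! Chunk A4 (M): `pre`, `Gl` are primitive recursive -/

set_option autoImplicit false

namespace Pool.Agent.Lib.H96K

open Pool.Agent.Lib.H52K

/-- PROOF. `Primrec.nat_div`, `Primrec.nat_mod`, `pow_primrec` (file P0 of H52K). -/
theorem dg_prim {α : Type*} [Primcodable α] {f g h : α → ℕ} (hf : Primrec f) (hg : Primrec g)
    (hh : Primrec h) : Primrec fun a => dg (f a) (g a) (h a) := by
  unfold dg
  exact Primrec.nat_mod.comp (Primrec.nat_div.comp hg (pow_primrec.comp hf hh)) hf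

/-- PROOF. `Primrec.list_map`, `Primrec.list_range`, `Primrec.list_getD`, `Primrec.list_length`, `dg_prim`,
`Primrec.encode`. -/
theorem pre_prim {α : Type*} [Primcodable α] {X : α → List ℕ} {r U : α → ℕ} (hX : Primrec X)
    (hr : Primrec r) (hU : Primrec U) : Primrec fun a => pre (X a) (r a) (U a) := by
  unfold pre dec
  refine Primrec.encode.comp ?_
  refine Primrec.list_map (f := fun a => List.range (r a))
    (g := fun (a : α) (i : ℕ) => (X a).getD (dg (X a).length (U a) i) 0)
    (Primrec.list_range.comp hr) ?_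
  exact ((Primrec.list_getD 0).comp (hX.comp Primrec.fst)
    (dg_prim (Primrec.list_length.comp (hX.comp Primrec.fst)) (hU.comp Primrec.fst)
      Primrec.snd)).to₂

/-- PROOF. `filter_primrec`, `mem_primrec` (file P0 of H52K), `En_prim`, `Primrec₂.natPair`. -/
theorem Gl_prim {α : Type*} [Primcodable α] {X : α → List ℕ} {y κ p t : α → ℕ}
    (hX : Primrec X) (hy : Primrec y) (hκ : Primrec κ) (hp : Primrec p) (ht : Primrec t) :
    Primrec fun a => Gl (X a) (y a) (κ a) (p a) (t a) := by
  unfold Gl
  refine filter_primrec (f := X)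
    (p := fun (a : α) (x : ℕ) => y a ∈ En (κ a) (Nat.pair x (p a)) (t a)) hX ?_
  exact (PrimrecRel.comp (R := fun (a : ℕ) (l : List ℕ) => a ∈ l) mem_primrec
    (hy.comp Primrec.fst) (En_prim (hκ.comp Primrec.fst)
      (Primrec₂.natPair.comp Primrec.snd (hp.comp Primrec.fst)) (ht.comp Primrec.fst))).primrecRel

end Pool.Agent.Lib.H96K
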