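import Pool.Agent.Lib.H96K.D

/-! Chunk B1 (M): inequalities for conditional complexities -/

set_option autoImplicit false

namespace Pool.Agent.Lib.H96K

open Pool.Agent.Lib.H52K

/-- A common information `m` of `x` and `y` (given `z`) has complexity at most `I(x : y | z)`.
PROOF. (1) `KS (x,y) z ≤ KS (m,(x,y)) z ≤ KS m z + KS (x,y) (m,z)` and `KS (x,y) (m,z) ≤ KS x (m,z) +
KS y (x,(m,z)) ≤ KS x (m,z) + KS y (m,z)` up to `er` (`KS_upper`, `KS_pair_le`, `KS_cond`).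
(2) `KS m z + KS x (m,z) ≤ KS (m,x) z ≤ KS (x,m) z ≤ KS x z + KS m (x,z)` up to `er` (`KS_pair_ge`, `KS_swap`,
`KS_pair_le`); (3) the same for `y`. Add (2) and (3) and use (1). -/
theorem common : ∃ C, ∀ ν m x y z, KS m 0 ≤ ν → KS x 0 ≤ ν → KS y 0 ≤ ν →
    KS m z + KS (Nat.pair x y) z ≤
      KS x z + KS y z + KS m (Nat.pair x z) + KS m (Nat.pair y z) + er C ν := by
  obtain ⟨C₁, h₁⟩ := KS_upper
  obtain ⟨C₂, h₂⟩ := KS_pair_le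
  obtain ⟨C₃, h₃⟩ := KS_drop
  obtain ⟨C₄, h₄⟩ := KS_pair_ge
  obtain ⟨C₅, h₅⟩ := KS_swap
  refine ⟨C₁ + C₂ + C₃ + 2 * (C₄ + C₅ + C₂), fun ν m x y z hm hx hy => ?_⟩
  have a1 := h₁ ν (Nat.pair x y) m z hm
  have a2 := h₂ ν x y (Nat.pair m z) hx
  have a3 := (h₃ y x (Nat.pair m z)).1
  have b1 := h₄ ν m x z hm hx
  have b2 := h₅ m x z
  have b3 := h₂ ν x m z hx
  have c1 := h₄ ν m y z hm hy
  have c2 := h₅ m y z
  have c3 := h₂ ν y m z hy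
  have e1 : er (C₁ + C₂ + C₃ + 2 * (C₄ + C₅ + C₂)) ν =
      er C₁ ν + er C₂ ν + er C₃ ν + 2 * (er C₄ ν + er C₅ ν + er C₂ ν) := by
    unfold er
    ring
  have e2 := le_er C₃ ν
  have e3 := le_er C₅ ν
  omega

/-- PROOF. `KS (x,y) z ≤ KS (y,x) z + C ≤ KS y z + KS x (y,z) + er` and `KS (x,y) z ≤ KS x z + KS y (x,z) + er`
(`KS_swap`, `KS_pair_le`). -/
theorem cmi : ∃ C, ∀ ν s x y z, KS x 0 ≤ ν → KS y 0 ≤ ν →
    KS x z + KS y z ≤ KS (Nat.pair x y) z + s →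
    KS x z ≤ KS x (Nat.pair y z) + s + er C ν ∧ KS y z ≤ KS y (Nat.pair x z) + s + er C ν := by
  obtain ⟨C₂, h₂⟩ := KS_pair_le
  obtain ⟨C₅, h₅⟩ := KS_swap
  refine ⟨C₂ + C₅, fun ν s x y z hx hy h => ?_⟩
  have a1 := h₂ ν x y z hx
  have a2 := h₂ ν y x z hy
  have a3 := h₅ x y z
  have e1 := er_add C₂ C₅ ν
  have e2 := le_er C₅ ν
  constructor <;> omega

/-- PROOF. `KS_upper` with the condition `(y, z)`: `KS x (y,z) ≤ KS x (P,(y,z)) + KS P (y,z) + er`;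
`KS P (y,z) ≤ KS P z + C` (`KS_drop`), `KS x (P,(y,z)) ≤ KS x (y,(P,z)) + C` (`KS_cond`). -/
theorem cond_par : ∃ C, ∀ ν x y z P, KS P 0 ≤ ν →
    KS x (Nat.pair y z) ≤ KS x (Nat.pair y (Nat.pair P z)) + KS P z + er C ν := by
  obtain ⟨C₁, h₁⟩ := KS_upper
  obtain ⟨C₃, h₃⟩ := KS_drop
  obtain ⟨C₅, h₅⟩ := KS_cond (fun w => Nat.pair w.unpair.2.unpair.1 (Nat.pair w.unpair.1 w.unpair.2.unpair.2))
    (T_pair (T_fst.comp T_snd) (T_pair T_fst (T_snd.comp T_snd)))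
  refine ⟨C₁ + C₃ + C₅, fun ν x y z P hP => ?_⟩
  have a1 := h₁ ν x P (Nat.pair y z) hP
  have a2 := (h₃ P y z).1
  have a3 := h₅ x (Nat.pair P (Nat.pair y z))
  simp only [Nat.unpair_pair] at a3
  have e1 : er (C₁ + C₃ + C₅) ν = er C₁ ν + er C₃ ν + er C₅ ν := by
    unfold er
    ring
  have e2 := le_er C₃ ν
  have e3 := le_er C₅ ν
  omega

end Pool.Agent.Lib.H96K
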