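import Pool.Agent.Lib.H96K.A3
import Pool.Agent.Lib.H96K.A1

/-! Chunk B2 (M): the counter is simple given a late element -/

set_option autoImplicit false

namespace Pool.Agent.Lib.H96K

open Pool.Agent.Lib.H52K

theorem b2_u1 {α : Type*} [Primcodable α] {f : α → ℕ} (hf : Primrec f) : Primrec fun a => (f a).unpair.1 :=
  Primrec.fst.comp (Primrec.unpair.comp hf)

theorem b2_u2 {α : Type*} [Primcodable α] {f : α → ℕ} (hf : Primrec f) : Primrec fun a => (f a).unpair.2 :=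
  Primrec.snd.comp (Primrec.unpair.comp hf)

/-- The relation. -/
def b2_R (p : (ℕ × ℕ) × (ℕ × ℕ)) : Bool :=
  decide (p.1.2.unpair.1 ∈ Xt p.1.1.unpair.1 p.1.1.unpair.2.unpair.2.unpair.1 p.1.2.unpair.2 p.2.2) &&
    decide (p.2.1 = (Xt p.1.1.unpair.1 p.1.1.unpair.2.unpair.1 p.1.2.unpair.2 p.2.2).length /
      2 ^ p.1.1.unpair.2.unpair.2.unpair.2)

theorem b2_comp : Computable b2_R := by
  have hθ : Primrec fun p : (ℕ × ℕ) × (ℕ × ℕ) => p.1.1 := Primrec.fst.comp Primrec.fst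
  have hw : Primrec fun p : (ℕ × ℕ) × (ℕ × ℕ) => p.1.2 := Primrec.snd.comp Primrec.fst
  have hm : Primrec fun p : (ℕ × ℕ) × (ℕ × ℕ) => p.2.1 := Primrec.fst.comp Primrec.snd
  have ht : Primrec fun p : (ℕ × ℕ) × (ℕ × ℕ) => p.2.2 := Primrec.snd.comp Primrec.snd
  have h1 := Xt_prim (b2_u1 hθ) (b2_u1 (b2_u2 (b2_u2 hθ))) (b2_u2 hw) ht
  have h2 := Xt_prim (b2_u1 hθ) (b2_u1 (b2_u2 hθ)) (b2_u2 hw) ht
  have h3 : Primrec fun p : (ℕ × ℕ) × (ℕ × ℕ) =>
      decide (p.1.2.unpair.1 ∈ Xt p.1.1.unpair.1 p.1.1.unpair.2.unpair.2.unpair.1 p.1.2.unpair.2 p.2.2) :=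
    (PrimrecRel.comp mem_primrec (b2_u1 hw) h1).decide
  have h4 : Primrec fun p : (ℕ × ℕ) × (ℕ × ℕ) =>
      (Xt p.1.1.unpair.1 p.1.1.unpair.2.unpair.1 p.1.2.unpair.2 p.2.2).length /
      2 ^ p.1.1.unpair.2.unpair.2.unpair.2 :=
    Primrec.nat_div.comp (Primrec.list_length.comp h2) (pow_primrec.comp (Primrec.const 2) (b2_u2 (b2_u2 (b2_u2 hθ))))
  have h5 : Primrec fun p : (ℕ × ℕ) × (ℕ × ℕ) =>
      decide (p.2.1 = (Xt p.1.1.unpair.1 p.1.1.unpair.2.unpair.1 p.1.2.unpair.2 p.2.2).length /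
      2 ^ p.1.1.unpair.2.unpair.2.unpair.2) :=
    (PrimrecRel.comp Primrec.eq hm h4).decide
  exact (Primrec.and.comp h3 h5).to_comp

/-- PROOF. `KS_ce` (file K5 of H52K) for the relation `R ((θ, w), (m, t))`: `y ∈ Xt n l z t` and
`m = (Xt n k z t).length / 2 ^ q`, where `θ = (n, (k, (l, q)))` and `w = (y, z)`. It is computable
(`Xt_prim`). By the second hypothesis the only `m` with `R` is `M`, so the sets of such `m` have at most
`1 = 2 ^ 0` elements. -/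
theorem KS_count : ∃ C, ∀ n k l z q y M, (∃ t, y ∈ Xt n l z t) →
    (∀ t, y ∈ Xt n l z t → (Xt n k z t).length / 2 ^ q = M) →
    KS M (Nat.pair y z) ≤
      2 * Nat.size (Nat.pair n (Nat.pair k (Nat.pair l q))) + C := by
  obtain ⟨C, hC⟩ := KS_ce b2_R b2_comp
  refine ⟨C, fun n k l z q y M hy hM => ?_⟩
  have hR : ∀ m t, b2_R ((Nat.pair n (Nat.pair k (Nat.pair l q)), Nat.pair y z), (m, t)) = true ↔
      y ∈ Xt n l z t ∧ m = (Xt n k z t).length / 2 ^ q := by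
    intro m t
    simp only [b2_R, Nat.unpair_pair, Bool.and_eq_true, decide_eq_true_eq]
  obtain ⟨t, ht⟩ := hy
  have h1 := hC (Nat.pair n (Nat.pair k (Nat.pair l q))) (Nat.pair y z) 0 (by
    intro S hS
    have h2 : S ⊆ {M} := by
      intro m hm
      obtain ⟨t', ht'⟩ := hS m hm
      rw [hR] at ht'
      rw [Finset.mem_singleton, ht'.2]
      exact hM t' ht'.1
    have h3 := Finset.card_le_card h2
    rw [Finset.card_singleton] at h3
    simpa using h3) M t ((hR M t).2 ⟨ht, (hM t ht).symm⟩)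
  omega

end Pool.Agent.Lib.H96K
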