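import Pool.Agent.Lib.H96K.A2
import Pool.Agent.Lib.H96K.A3

/-! Chunk B3 (M): complexity of a late element -/

set_option autoImplicit false

namespace Pool.Agent.Lib.H96K

open Pool.Agent.Lib.H52K

theorem b3_u1 {α : Type*} [Primcodable α] {f : α → ℕ} (hf : Primrec f) : Primrec fun a => (f a).unpair.1 :=
  Primrec.fst.comp (Primrec.unpair.comp hf)

theorem b3_u2 {α : Type*} [Primcodable α] {f : α → ℕ} (hf : Primrec f) : Primrec fun a => (f a).unpair.2 :=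
  Primrec.snd.comp (Primrec.unpair.comp hf)

/-- The relation. -/
def b3_R (p : (ℕ × ℕ) × (ℕ × ℕ)) : Bool :=
  decide (Fst p.1.1.unpair.1 p.1.1.unpair.2.unpair.1 p.1.2.unpair.2
      (p.1.2.unpair.1 * 2 ^ p.1.1.unpair.2.unpair.2) p.2.2.unpair.1) &&
    (decide (p.2.1 ∈ Xt p.1.1.unpair.1 p.1.1.unpair.2.unpair.1 p.1.2.unpair.2 p.2.2.unpair.2) &&
      !(decide (p.2.1 ∈ Xt p.1.1.unpair.1 p.1.1.unpair.2.unpair.1 p.1.2.unpair.2 p.2.2.unpair.1)))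

theorem b3_comp : Computable b3_R := by
  have hθ : Primrec fun p : (ℕ × ℕ) × (ℕ × ℕ) => p.1.1 := Primrec.fst.comp Primrec.fst
  have hw : Primrec fun p : (ℕ × ℕ) × (ℕ × ℕ) => p.1.2 := Primrec.snd.comp Primrec.fst
  have hm : Primrec fun p : (ℕ × ℕ) × (ℕ × ℕ) => p.2.1 := Primrec.fst.comp Primrec.snd
  have ht : Primrec fun p : (ℕ × ℕ) × (ℕ × ℕ) => p.2.2 := Primrec.snd.comp Primrec.snd
  have h1 := Xt_prim (b3_u1 hθ) (b3_u1 (b3_u2 hθ)) (b3_u2 hw) (b3_u1 ht)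
  have h2 := Xt_prim (b3_u1 hθ) (b3_u1 (b3_u2 hθ)) (b3_u2 hw) (b3_u2 ht)
  have h3 : Primrec fun p : (ℕ × ℕ) × (ℕ × ℕ) => p.1.2.unpair.1 * 2 ^ p.1.1.unpair.2.unpair.2 :=
    Primrec.nat_mul.comp (b3_u1 hw) (pow_primrec.comp (Primrec.const 2) (b3_u2 (b3_u2 hθ)))
  have h4 : Primrec fun p : (ℕ × ℕ) × (ℕ × ℕ) => decide (Fst p.1.1.unpair.1 p.1.1.unpair.2.unpair.1 p.1.2.unpair.2
      (p.1.2.unpair.1 * 2 ^ p.1.1.unpair.2.unpair.2) p.2.2.unpair.1) :=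
    (Fst_prim (b3_u1 hθ) (b3_u1 (b3_u2 hθ)) (b3_u2 hw) h3 (b3_u1 ht)).decide
  have h5 : Primrec fun p : (ℕ × ℕ) × (ℕ × ℕ) =>
      decide (p.2.1 ∈ Xt p.1.1.unpair.1 p.1.1.unpair.2.unpair.1 p.1.2.unpair.2 p.2.2.unpair.2) :=
    (PrimrecRel.comp mem_primrec hm h2).decide
  have h6 : Primrec fun p : (ℕ × ℕ) × (ℕ × ℕ) =>
      decide (p.2.1 ∈ Xt p.1.1.unpair.1 p.1.1.unpair.2.unpair.1 p.1.2.unpair.2 p.2.2.unpair.1) :=
    (PrimrecRel.comp mem_primrec hm h1).decide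
  exact (Primrec.and.comp h4 (Primrec.and.comp h5 (Primrec.not.comp h6))).to_comp

/-- PROOF. `KS_ce` (file K5 of H52K) for the relation `R ((θ, w), (x', τ))`: `Fst n k z (M * 2 ^ q) t`,
`x' ∈ Xt n k z t'`, `x' ∉ Xt n k z t`, where `θ = (n, (k, q))`, `w = (M, z)`, `τ = (t, t')`. It is computable
(`Xt_prim`, `Fst_prim`, `mem_primrec`). The stage `t` is unique (`Fst_unique`). If all elements of the
finite set `A` satisfy `R` (for some `τ`) then for a large stage `t'` (`Xt_final`) the set `A` and the elements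
of `Xt n k z t` are disjoint parts of `Xt n k z t'`, so
`A.card + M * 2 ^ q ≤ (Xt n k z t').length < (M + 1) * 2 ^ q`, and `A.card ≤ 2 ^ q`. For `x`: `exists_mem_Xt`. -/
theorem KS_late : ∃ C, ∀ n k z q x M t, Fst n k z (M * 2 ^ q) t →
    (∀ t', (Xt n k z t').length < (M + 1) * 2 ^ q) → x ∉ Xt n k z t → KS x z ≤ k → KS x 0 ≤ n →
    KS x (Nat.pair M z) ≤ q + 2 * Nat.size (Nat.pair n (Nat.pair k q)) + C := by
  classical
  obtain ⟨C, hC⟩ := KS_ce b3_R b3_comp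
  refine ⟨C, fun n k z q x M t hF hlen hx hxz hx0 => ?_⟩
  have hR : ∀ x' t₁ t₂, b3_R ((Nat.pair n (Nat.pair k q), Nat.pair M z), (x', Nat.pair t₁ t₂)) = true ↔
      Fst n k z (M * 2 ^ q) t₁ ∧ x' ∈ Xt n k z t₂ ∧ x' ∉ Xt n k z t₁ := by
    intro x' t₁ t₂
    simp only [b3_R, Nat.unpair_pair, Bool.and_eq_true, decide_eq_true_eq, Bool.not_eq_true', decide_eq_false_iff_not]
  obtain ⟨t₀, ht₀⟩ := Xt_final n k z
  obtain ⟨t', ht'⟩ := exists_mem_Xt hxz hx0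
  refine hC (Nat.pair n (Nat.pair k q)) (Nat.pair M z) q ?_ x (Nat.pair t t') ((hR x t t').2 ⟨hF, ht', hx⟩)
  intro S hS
  have hdisj : Disjoint S (Xt n k z t).toFinset := by
    rw [Finset.disjoint_left]
    intro a ha ha'
    obtain ⟨τ, hτ⟩ := hS a ha
    rw [← Nat.pair_unpair τ, hR] at hτ
    rw [Fst_unique hτ.1 hF] at hτ
    exact hτ.2.2 (List.mem_toFinset.1 ha')
  have hsub : S ∪ (Xt n k z t).toFinset ⊆ (Xt n k z t₀).toFinset := by
    intro a ha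
    rw [List.mem_toFinset]
    rcases Finset.mem_union.1 ha with ha | ha
    · obtain ⟨τ, hτ⟩ := hS a ha
      rw [← Nat.pair_unpair τ, hR] at hτ
      exact ht₀ _ a hτ.2.1
    · exact ht₀ _ a (List.mem_toFinset.1 ha)
  have h1 := Finset.card_le_card hsub
  rw [Finset.card_union_of_disjoint hdisj, List.toFinset_card_of_nodup (Xt_nodup n k z t),
    List.toFinset_card_of_nodup (Xt_nodup n k z t₀)] at h1
  have h2 := hlen t₀
  have h3 := hF.1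
  have h4 : (M + 1) * 2 ^ q = M * 2 ^ q + 2 ^ q := by ring
  omega

end Pool.Agent.Lib.H96K
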