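import Pool.Agent.Lib.H96K.B1
import Pool.Agent.Lib.H96K.B2
import Pool.Agent.Lib.H96K.B3

/-! Chunk B4 (M/L): the lateness lemma -/

set_option autoImplicit false

namespace Pool.Agent.Lib.H96K

open Pool.Agent.Lib.H52K

theorem b4_size_add (a b : ℕ) : Nat.size (a + b) ≤ Nat.size a + Nat.size b + 1 := by
  rw [Nat.size_le]
  have h1 : a < 2 ^ (Nat.size a + Nat.size b) :=
    (Nat.lt_size_self a).trans_le (Nat.pow_le_pow_right (by norm_num) (Nat.le_add_right _ _))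
  have h2 : b < 2 ^ (Nat.size a + Nat.size b) :=
    (Nat.lt_size_self b).trans_le (Nat.pow_le_pow_right (by norm_num) (Nat.le_add_left _ _))
  rw [pow_succ]
  omega

theorem b4_size_pair (a b : ℕ) :
    Nat.size (Nat.pair a b) ≤ 2 * (Nat.size a + Nat.size b) + 1 := by
  have h1 : Nat.pair a b < 2 ^ (2 * (Nat.size a + Nat.size b)) := by
    have h2 : max a b + 1 ≤ 2 ^ (Nat.size a + Nat.size b) := by
      rcases max_cases a b with ⟨h, -⟩ | ⟨h, -⟩
      · rw [h]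
        exact (Nat.lt_size_self a).trans_le
          (Nat.pow_le_pow_right (by norm_num) (Nat.le_add_right _ _))
      · rw [h]
        exact (Nat.lt_size_self b).trans_le
          (Nat.pow_le_pow_right (by norm_num) (Nat.le_add_left _ _))
    calc Nat.pair a b < (max a b + 1) ^ 2 := Nat.pair_lt_max_add_one_sq a b
      _ ≤ (2 ^ (Nat.size a + Nat.size b)) ^ 2 := Nat.pow_le_pow_left h2 2
      _ = 2 ^ (2 * (Nat.size a + Nat.size b)) := by rw [← pow_mul, mul_comm]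
  exact (Nat.size_le.2 h1).trans (Nat.le_succ _)

/-- The last stage is at least as long as every stage. -/
theorem b4_len {n k z t₀ : ℕ} (h : ∀ t, ∀ x ∈ Xt n k z t, x ∈ Xt n k z t₀) (t : ℕ) :
    (Xt n k z t).length ≤ (Xt n k z t₀).length :=
  ((Xt_nodup n k z t).subperm (h t)).length_le

theorem b4_full {n k z t₀ t x : ℕ} (h : ∀ t, ∀ x ∈ Xt n k z t, x ∈ Xt n k z t₀)
    (hl : (Xt n k z t₀).length ≤ (Xt n k z t).length) (hx : x ∈ Xt n k z t₀) :
    x ∈ Xt n k z t :=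
  (((Xt_nodup n k z t).subperm (h t)).perm_of_length_le hl).mem_iff.2 hx

theorem b4_div (N q : ℕ) : N / 2 ^ q * 2 ^ q ≤ N ∧ N < (N / 2 ^ q + 1) * 2 ^ q := by
  have h1 := Nat.div_add_mod N (2 ^ q)
  have h2 := Nat.mod_lt N (show 2 ^ q > 0 by positivity)
  have h3 : (N / 2 ^ q + 1) * 2 ^ q = 2 ^ q * (N / 2 ^ q) + 2 ^ q := by ring
  refine ⟨Nat.div_mul_le_self N _, ?_⟩
  omega

/-- The lateness lemma. PROOF. Let `a = KS x z` (`a ≤ ν + C` by `KS_zero`), `L = s + er C' ν` with a large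
constant `C'`, `q = a - L` (`0` if `a < L`), `N` the length of the last stage `Xt_final` of `Xt ν a z`,
`M = N / 2 ^ q`, `t` the first stage with at least `M * 2 ^ q` elements (`exists_Fst`). All lengths are at most
`N < (M + 1) * 2 ^ q` (`Xt_final`, `List.Nodup.subperm`). `M ≤ 2 ^ (a - q)` as `N ≤ 2 ^ a`, and `a - q ≤ L`, so
`Nat.size M ≤ L + 1`.
Suppose `x ∉ Xt ν a z t`. If `q = 0` then `N = M` elements are in `Xt t`, so `Xt t` contains all elements
(same length as the last stage), a contradiction (`exists_mem_Xt`). So `q = a - L > 0`. If `x ∈ Xt ν a z t'` then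
`t < t'` (`Xt_mono`), so `M * 2 ^ q ≤ length ≤ N` and `length / 2 ^ q = M`. `KS_count` with `l = k` (and `x` for `y`)
gives `KS M (x,z) ≤ er`; `KS_count` with `l = KS y z` gives `KS M (y,z) ≤ er` (if `y ∈ Xt ν (KS y z) z t'` then
`x ∈ Xt ν a z t'` by hypothesis). `common`: `KS M z + KS (x,y) z ≤ KS x z + KS y z + er`, so `KS M z ≤ s + er`.
`KS_late`: `KS x (M,z) ≤ q + er`. `KS_upper`: `a ≤ KS x (M,z) + KS M z + er ≤ q + s + er = a - L + s + er`:
contradiction if `C'` is large (`KS M 0 ≤ Nat.size M + C ≤ a + C`, `KS_num`; sizes of pairs of numbers which are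
polynomial in `ν`: `pair_le_pow`, `size_le_of_le_pow`). -/
theorem late : ∃ C, ∀ ν s x y z, KS x 0 ≤ ν → KS y 0 ≤ ν →
    KS x z + KS y z ≤ KS (Nat.pair x y) z + s →
    (∀ t, y ∈ Xt ν (KS y z) z t → x ∈ Xt ν (KS x z) z t) →
    ∃ M q t, Fst ν (KS x z) z (M * 2 ^ q) t ∧ x ∈ Xt ν (KS x z) z t ∧
      Nat.size M ≤ s + er C ν ∧ q ≤ KS x z := by
  obtain ⟨C₀, h0⟩ := KS_zero
  obtain ⟨C₁, h1⟩ := common
  obtain ⟨C₂, h2⟩ := KS_count
  obtain ⟨C₃, h3⟩ := KS_late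
  obtain ⟨C₄, h4⟩ := KS_upper
  obtain ⟨C₅, h5⟩ := KS_num
  obtain ⟨c, hc⟩ : ∃ c, c = C₀ + C₅ + 1 := ⟨_, rfl⟩
  obtain ⟨G, hG⟩ : ∃ G, G = Nat.size c + 2 := ⟨_, rfl⟩
  obtain ⟨K, hK⟩ : ∃ K, K = 108 * G + 35 + C₃ + 2 * C₂ + (C₁ + C₄) * (G + 1) + 1 := ⟨_, rfl⟩
  refine ⟨K + 1, fun ν s x y z hx hy hI hord => ?_⟩
  obtain ⟨w, hw⟩ : ∃ w, w = Nat.size ν + 1 := ⟨_, rfl⟩
  have hwe : ∀ C, er C ν = C * w := fun C => by
    rw [hw]
    rfl
  have hcw : ∀ C, C ≤ C * w := fun C => Nat.le_mul_of_pos_right C (by omega)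
  obtain ⟨a, ha⟩ : ∃ a, a = KS x z := ⟨_, rfl⟩
  obtain ⟨b, hb⟩ : ∃ b, b = KS y z := ⟨_, rfl⟩
  rw [← ha, ← hb] at hord hI
  rw [← ha]
  obtain ⟨L, hL⟩ : ∃ L, L = s + K * w := ⟨_, rfl⟩
  obtain ⟨q, hq⟩ : ∃ q, q = a - L := ⟨_, rfl⟩
  obtain ⟨t₀, ht₀⟩ := Xt_final ν a z
  obtain ⟨N, hN⟩ : ∃ N, N = (Xt ν a z t₀).length := ⟨_, rfl⟩
  obtain ⟨M, hM⟩ : ∃ M, M = N / 2 ^ q := ⟨_, rfl⟩
  obtain ⟨hM1, hM2⟩ := b4_div N q
  rw [← hM] at hM1 hM2
  obtain ⟨t, -, hF⟩ := exists_Fst (n := ν) (k := a) (z := z) (m := M * 2 ^ q) (t := t₀)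
    (by rw [← hN]; exact hM1)
  have hlen : ∀ t', (Xt ν a z t').length ≤ N := fun t' => by
    rw [hN]
    exact b4_len ht₀ t'
  have hMsz : Nat.size M ≤ a - q + 1 := by
    have g1 : M * 2 ^ q ≤ 2 ^ (a - q) * 2 ^ q := by
      rw [← pow_add, Nat.sub_add_cancel (by omega)]
      refine hM1.trans ?_
      rw [hN]
      exact Xt_length ν a z t₀
    have g2 : M ≤ 2 ^ (a - q) := Nat.le_of_mul_le_mul_right g1 (by positivity)
    rw [Nat.size_le, pow_succ]
    have := Nat.one_le_two_pow (n := a - q)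
    omega
  have hKw : (K + 1) * w = K * w + w := by ring
  refine ⟨M, q, t, hF, ?_, ?_, by omega⟩
  swap
  · rw [hwe]
    omega
  by_contra hxt
  obtain ⟨t₁, ht₁⟩ := exists_mem_Xt (n := ν) (k := a) (z := z) (x := x) (by omega) hx
  have hq0 : q ≠ 0 := by
    intro hq0
    apply hxt
    refine b4_full ht₀ ?_ (ht₀ t₁ x ht₁)
    have g1 := hF.1
    rw [hq0] at hM hM1 g1
    simp only [pow_zero, Nat.div_one, mul_one] at hM hM1 g1
    omega
  have hcnt : ∀ t', x ∈ Xt ν a z t' → (Xt ν a z t').length / 2 ^ q = M := by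
    intro t' ht'
    have g1 : t ≤ t' := by
      by_contra hcon
      exact hxt (Xt_mono ν a z (not_le.1 hcon).le x ht')
    have g2 := Xt_length_mono ν a z g1
    refine Nat.div_eq_of_lt_le (hF.1.trans g2) ?_
    have := hlen t'
    omega
  obtain ⟨t₂, ht₂⟩ := exists_mem_Xt (n := ν) (k := b) (z := z) (x := y) (by omega) hy
  have k1 := h2 ν a a z q x M ⟨t₁, ht₁⟩ hcnt
  have k2 := h2 ν a b z q y M ⟨t₂, ht₂⟩ (fun t' ht' => hcnt t' (hord t' ht'))
  have k3 := h3 ν a z q x M t hF (fun t' => (hlen t').trans_lt hM2) hxt (by omega) hx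
  -- sizes
  have haν : a ≤ ν + c := by
    have := h0 x z
    omega
  have hbν : b ≤ ν + c := by
    have := h0 y z
    omega
  obtain ⟨g, hg⟩ : ∃ g, g = Nat.size (ν + c) := ⟨_, rfl⟩
  have s1 : Nat.size a ≤ g := hg ▸ Nat.size_le_size haν
  have s2 : Nat.size b ≤ g := hg ▸ Nat.size_le_size hbν
  have s3 : Nat.size q ≤ g := hg ▸ Nat.size_le_size (by omega)
  have s4 : Nat.size ν ≤ g := hg ▸ Nat.size_le_size (by omega)
  have s5 := b4_size_pair a q
  have s6 := b4_size_pair b q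
  have s7 := b4_size_pair a (Nat.pair a q)
  have s8 := b4_size_pair a (Nat.pair b q)
  have s9 := b4_size_pair ν (Nat.pair a q)
  have s10 := b4_size_pair ν (Nat.pair a (Nat.pair a q))
  have s11 := b4_size_pair ν (Nat.pair a (Nat.pair b q))
  have hM0 := h5 M 0
  have k4 := h1 (ν + c) M x y z (by have := h0 x z; omega) (by omega) (by omega)
  have k5 := h4 (ν + c) x M z (by have := h0 x z; omega)
  have hgG : g ≤ G * w := by
    have g1 := b4_size_add ν c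
    have g2 : G * w = Nat.size c * w + 2 * w := by
      rw [hG]
      ring
    have g3 := hcw (Nat.size c)
    omega
  have k6 : er C₁ (ν + c) ≤ C₁ * (G + 1) * w := by
    have g5 : (G + 1) * w = G * w + w := by ring
    unfold er
    rw [mul_assoc]
    exact Nat.mul_le_mul_left C₁ (by omega)
  have k7 : er C₄ (ν + c) ≤ C₄ * (G + 1) * w := by
    have g5 : (G + 1) * w = G * w + w := by ring
    unfold er
    rw [mul_assoc]
    exact Nat.mul_le_mul_left C₄ (by omega)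
  have k8 : K * w = 108 * (G * w) + 35 * w + C₃ * w + 2 * (C₂ * w) + C₁ * (G + 1) * w +
      C₄ * (G + 1) * w + w := by
    rw [hK]
    ring
  have c2 := hcw C₂
  have c3 := hcw C₃
  rw [← ha, ← hb] at k4
  rw [← ha] at k5
  omega

end Pool.Agent.Lib.H96K
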