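import Pool.Agent.Lib.H96K.D

/-! Chunk C3 (S/M): sequences and their prefixes -/

set_option autoImplicit false

namespace Pool.Agent.Lib.H96K

open Pool.Agent.Lib.H52K

/-- PROOF. Definition. -/
theorem dec_length (X : List ℕ) (r U : ℕ) : (dec X r U).length = r := by
  unfold dec
  rw [List.length_map, List.length_range]

/-- PROOF. `List.map_take`, `List.take_range`. -/
theorem dec_take (X : List ℕ) {r R : ℕ} (U : ℕ) (h : r ≤ R) :
    (dec X R U).take r = dec X r U := by
  unfold dec
  rw [← List.map_take, List.take_range, min_eq_left h]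

/-- PROOF. Definition. -/
theorem dec_getD (X : List ℕ) {r i : ℕ} (U : ℕ) (h : i < r) :
    (dec X r U).getD i 0 = X.getD (dg X.length U i) 0 := by
  have hl : i < (dec X r U).length := by rw [dec_length]; exact h
  rw [List.getD_eq_getElem _ _ hl]
  simp [dec]

/-- PROOF. `dg X.length U i < X.length` (`Nat.mod_lt`). -/
theorem getD_mem {X : List ℕ} (hX : X ≠ []) (U i : ℕ) : X.getD (dg X.length U i) 0 ∈ X := by
  have h1 : dg X.length U i < X.length := Nat.mod_lt _ (List.length_pos_iff.2 hX)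
  rw [List.getD_eq_getElem _ _ h1]
  exact List.getElem_mem h1

/-- PROOF. `getD_mem`. -/
theorem mem_dec {X : List ℕ} (hX : X ≠ []) {r U x : ℕ} (h : x ∈ dec X r U) : x ∈ X := by
  unfold dec at h
  rw [List.mem_map] at h
  obtain ⟨i, -, rfl⟩ := h
  exact getD_mem hX U i

/-- PROOF. `U % S ^ r / S ^ i % S = U / S ^ i % S` for `i < r`: `Nat.mod_pow_succ`, or
`Nat.mod_mul_right_div_self` with `S ^ r = S ^ i * S ^ (r - i)` and `Nat.mod_mod_of_dvd` (`S ∣ S ^ (r - i)`). -/
theorem dg_mod (S U : ℕ) {r i : ℕ} (h : i < r) : dg S (U % S ^ r) i = dg S U i := by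
  unfold dg
  have h1 : S ^ r = S ^ i * S ^ (r - i) := by rw [← pow_add]; congr 1; omega
  rw [h1, Nat.mod_mul_right_div_self, Nat.mod_mod_of_dvd _ (dvd_pow_self S (by omega))]

/-- PROOF. `dg_mod`. -/
theorem pre_mod (X : List ℕ) (r U : ℕ) : pre X r (U % X.length ^ r) = pre X r U := by
  unfold pre dec
  congr 1
  apply List.map_congr_left
  intro i hi
  rw [dg_mod _ _ (List.mem_range.1 hi)]

end Pool.Agent.Lib.H96K
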