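import Pool.Agent.Lib.H96K.D

/-! Chunk E1 (M): the complexity of a list -/

set_option autoImplicit false

namespace Pool.Agent.Lib.H96K

open Pool.Agent.Lib.H52K

/-- the elements of the list with code `u` which are in `En n 0 t` -/
def e1_F (p : (ℕ × ℕ) × (ℕ × ℕ)) : List ℕ :=
  (lst p.2.1).filter fun x => decide (x ∈ En p.1.1.unpair.1 0 p.2.2)

/-- the relation which is enumerated -/
def e1_R (p : (ℕ × ℕ) × (ℕ × ℕ)) : Bool :=
  decide ((e1_F p).length = p.1.1.unpair.2) && decide (Encodable.encode (e1_F p) = p.2.1)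

theorem e1_F_comp : Computable e1_F := by
  have hmem : Computable₂ fun (a : ℕ) (l : List ℕ) => decide (a ∈ l) :=
    (mem_primrec (α := ℕ)).decide.to_comp
  have fs : Computable fun z : ℕ => z.unpair.1 := Computable.fst.comp Computable.unpair
  have c1 : Computable fun p : (ℕ × ℕ) × (ℕ × ℕ) => lst p.2.1 :=
    lst_computable.comp (Computable.fst.comp Computable.snd)
  have c2 : Computable fun q : ((ℕ × ℕ) × (ℕ × ℕ)) × ℕ => En q.1.1.1.unpair.1 0 q.1.2.2 :=
    K8_En (fs.comp (Computable.fst.comp (Computable.fst.comp Computable.fst)))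
      (Computable.const 0) (Computable.snd.comp (Computable.snd.comp Computable.fst))
  have c3 : Computable₂ fun (p : (ℕ × ℕ) × (ℕ × ℕ)) (x : ℕ) =>
      decide (x ∈ En p.1.1.unpair.1 0 p.2.2) := hmem.comp Computable.snd c2
  exact filter_computable c1 c3

theorem e1_R_comp : Computable e1_R := by
  have heq : Computable₂ fun (a b : ℕ) => decide (a = b) :=
    (PrimrecRel.decide (Primrec.eq (α := ℕ))).to_comp
  have fs : Computable fun z : ℕ => z.unpair.2 := Computable.snd.comp Computable.unpair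
  have c1 := heq.comp (Computable.list_length.comp e1_F_comp)
    (fs.comp (Computable.fst.comp (Computable.fst (α := ℕ × ℕ) (β := ℕ × ℕ))))
  have c2 := heq.comp (Computable.encode.comp e1_F_comp)
    (Computable.fst.comp (Computable.snd (α := ℕ × ℕ) (β := ℕ × ℕ)))
  exact Primrec.and.to_comp.comp c1 c2

theorem e1_of_R {n r u t : ℕ} (h : e1_R ((Nat.pair n r, 0), (u, t)) = true) :
    ∃ L : List ℕ, L.length = r ∧ (∀ x ∈ L, KS x 0 ≤ n) ∧ Encodable.encode L = u := by
  unfold e1_R at h
  simp only [Nat.unpair_pair, Bool.and_eq_true, decide_eq_true_eq] at h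
  refine ⟨_, h.1, fun x hx => ?_, h.2⟩
  unfold e1_F at hx
  simp only [Nat.unpair_pair] at hx
  rw [List.mem_filter, decide_eq_true_eq] at hx
  exact KS_le_of_mem_En hx.2

theorem e1_card (n r : ℕ) (S : Finset ℕ)
    (hS : ∀ u ∈ S, ∃ t, e1_R ((Nat.pair n r, 0), (u, t)) = true) : S.card ≤ 2 ^ (n * r) := by
  classical
  have hF : (KS_finite n 0).toFinset.card ≤ 2 ^ n :=
    KS_card_le n 0 _ fun x hx => by simpa using hx
  have h1 : ∀ u ∈ S, (lst u).length = r ∧ (∀ x ∈ lst u, KS x 0 ≤ n) ∧
      Encodable.encode (lst u) = u := by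
    intro u hu
    obtain ⟨t, ht⟩ := hS u hu
    obtain ⟨L, e1, e2, e3⟩ := e1_of_R ht
    rw [← e3, lst_encode]
    exact ⟨e1, e2, rfl⟩
  have h2 : S.card ≤ (Fintype.piFinset fun _ : Fin r => (KS_finite n 0).toFinset).card := by
    refine Finset.card_le_card_of_injOn (fun u (i : Fin r) => (lst u).getD i 0) ?_ ?_
    · intro u hu
      obtain ⟨e1, e2, -⟩ := h1 u hu
      rw [Finset.mem_coe, Fintype.mem_piFinset]
      intro i
      have hi : (i : ℕ) < (lst u).length := by rw [e1]; exact i.2
      rw [Set.Finite.mem_toFinset]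
      change KS ((lst u).getD i 0) 0 ≤ n
      rw [List.getD_eq_getElem _ _ hi]
      exact e2 _ (List.getElem_mem hi)
    · intro u hu v hv huv
      obtain ⟨e1, -, e3⟩ := h1 u hu
      obtain ⟨f1, -, f3⟩ := h1 v hv
      rw [← e3, ← f3]
      congr 1
      refine List.ext_getElem (e1.trans f1.symm) fun i h3 h4 => ?_
      have h5 : (lst u).getD i 0 = (lst v).getD i 0 :=
        congrFun huv ⟨i, by rw [← e1]; exact h3⟩
      rwa [List.getD_eq_getElem _ _ h3, List.getD_eq_getElem _ _ h4] at h5
  rw [Fintype.card_piFinset, Finset.prod_const, Finset.card_univ, Fintype.card_fin] at h2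
  calc S.card ≤ _ := h2
    _ ≤ (2 ^ n) ^ r := Nat.pow_le_pow_left hF r
    _ = 2 ^ (n * r) := (pow_mul 2 n r).symm

theorem e1_stage (n : ℕ) (l : List ℕ) (h : ∀ x ∈ l, KS x 0 ≤ n) :
    ∃ t, ∀ x ∈ l, x ∈ En n 0 t := by
  induction l with
  | nil => exact ⟨0, fun x hx => absurd hx List.not_mem_nil⟩
  | cons a l ih =>
    obtain ⟨t, ht⟩ := ih fun x hx => h x (List.mem_cons_of_mem a hx)
    obtain ⟨s, hs⟩ := exists_mem_En (h a List.mem_cons_self)
    refine ⟨max s t, fun x hx => ?_⟩
    rcases List.mem_cons.1 hx with rfl | hx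
    · exact (En_prefix _ _ (le_max_left s t)).subset hs
    · exact (En_prefix _ _ (le_max_right s t)).subset (ht x hx)

/-- PROOF. `KS_ce` (file K5 of H52K) for the relation `R ((θ, w), (u, t))`: `(lst u).length = r`,
`Encodable.encode (lst u) = u`, all elements of `lst u` are in `En n 0 t`, where `θ = (n, r)` (`lst`, `lst_computable`:
file S3a of H52K; `forall_mem_primrec` for the last condition, or a filter whose length is `r`).
If all elements of the finite set `A` satisfy `R` then `u ↦ (fun i : Fin r => (lst u).getD i 0)` is injective on `A`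
with values in `Fintype.piFinset (fun _ => F)`, `F` the finite set of all `x` with `KS x 0 ≤ n` (`KS_finite`,
`KS_card_le`: at most `2 ^ n` elements), so `A.card ≤ (2 ^ n) ^ r = 2 ^ (n * r)`. For `l`: `exists_mem_En` for all
elements, the largest stage, `En_prefix`, `lst_encode`. -/
theorem KS_list : ∃ C, ∀ n (l : List ℕ), (∀ x ∈ l, KS x 0 ≤ n) →
    KS (Encodable.encode l) 0 ≤ n * l.length + 2 * Nat.size (Nat.pair n l.length) + C := by
  obtain ⟨C, hC⟩ := KS_ce e1_R e1_R_comp
  refine ⟨C, fun n l hl => ?_⟩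
  obtain ⟨t, ht⟩ := e1_stage n l hl
  refine hC (Nat.pair n l.length) 0 (n * l.length) (fun S hS => e1_card n l.length S hS)
    (Encodable.encode l) t ?_
  have hf : e1_F ((Nat.pair n l.length, 0), (Encodable.encode l, t)) = l := by
    unfold e1_F
    simp only [Nat.unpair_pair, lst_encode]
    rw [List.filter_eq_self]
    intro x hx
    rw [decide_eq_true_eq]
    exact ht x hx
  unfold e1_R
  rw [hf]
  simp

end Pool.Agent.Lib.H96K
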