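import Pool.Agent.Lib.H96K.A1
import Pool.Agent.Lib.H96K.C3
import Pool.Agent.Lib.H96K.E1

/-! Chunk E4 (M): bounds for the complexities -/

set_option autoImplicit false

namespace Pool.Agent.Lib.H96K

open Pool.Agent.Lib.H52K

/-- PROOF. `Xt n k z t` has at most `2 ^ k` elements (`Xt_length`), so `U < 2 ^ (k * T)` and
`KS U 0 ≤ Nat.size U + C ≤ k * T + C` (`KS_num`, `Nat.size_le`). The entries of the prefix are in `Xt n k z t`
(`mem_dec`), so their complexity is at most `n` (`KS_of_mem_Xt`); `KS_list`, `dec_length`: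
`KS (pre ..) 0 ≤ n * r + 2 * Nat.size (n, r) + C`. The pair: `KS_pair_bound`. All numbers are polynomial in `ν + T`:
`add_le_pow`, `mul_le_pow`, `const_le_pow`, `le_pow_er`, `pair_le_pow`, `size_le_of_le_pow`, `er_le_pow`, `er_pow`. -/
theorem bounds : ∃ C, ∀ ν n k z t r U T, n ≤ ν → k ≤ ν → r ≤ T → Xt n k z t ≠ [] →
    U < (Xt n k z t).length ^ T →
    KS U 0 ≤ 2 ^ er C (ν + T) ∧ KS (pre (Xt n k z t) r U) 0 ≤ 2 ^ er C (ν + T) ∧
    ∀ x ∈ Xt n k z t, KS (Nat.pair x (pre (Xt n k z t) r U)) 0 ≤ 2 ^ er C (ν + T) := by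
  obtain ⟨C₁, h1⟩ := KS_num
  obtain ⟨C₂, h2⟩ := KS_list
  obtain ⟨C₃, h3⟩ := KS_pair_bound
  obtain ⟨K, hK⟩ : ∃ K, K = 30 + C₂ := ⟨_, rfl⟩
  refine ⟨(1 + 1 + C₁ + 1) + K + C₃ * (K + 2), fun ν n k z t r U T hn hk hr hX hU => ?_⟩
  obtain ⟨μ, hμ⟩ : ∃ μ, μ = ν + T := ⟨_, rfl⟩
  rw [← hμ]
  have en : n ≤ 2 ^ er 1 μ := le_trans (by omega) (le_pow_er μ)
  have ek : k ≤ 2 ^ er 1 μ := le_trans (by omega) (le_pow_er μ)
  have eT : T ≤ 2 ^ er 1 μ := le_trans (by omega) (le_pow_er μ)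
  have e_r : r ≤ 2 ^ er 1 μ := le_trans (by omega) (le_pow_er μ)
  have a1 : Nat.size U ≤ k * T := by
    rw [Nat.size_le, pow_mul]
    exact lt_of_lt_of_le hU (Nat.pow_le_pow_left (Xt_length n k z t) T)
  have a2 : KS U 0 ≤ 2 ^ er (1 + 1 + C₁ + 1) μ :=
    ((h1 U 0).trans (Nat.add_le_add_right a1 C₁)).trans
      (add_le_pow (mul_le_pow ek eT) (const_le_pow C₁ μ))
  have b1 : KS (pre (Xt n k z t) r U) 0 ≤ 2 ^ er K μ := by
    have b2 := h2 n (dec (Xt n k z t) r U) fun x hx => (KS_of_mem_Xt (mem_dec hX hx)).2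
    rw [dec_length] at b2
    have b3 := mul_le_pow en e_r
    have b4 := (size_le_of_le_pow (pair_le_pow en e_r)).trans (er_le_pow _ μ)
    have b5 := mul_le_pow (const_le_pow 2 μ) b4
    have b6 := add_le_pow b3 b5
    have b7 := add_le_pow b6 (const_le_pow C₂ μ)
    exact (b2.trans b7).trans (pow_er_mono μ (by omega))
  refine ⟨a2.trans (pow_er_mono μ (by omega)), b1.trans (pow_er_mono μ (by omega)),
    fun x hx => ?_⟩
  have c1 : KS x 0 ≤ 2 ^ er K μ :=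
    ((KS_of_mem_Xt hx).2.trans en).trans (pow_er_mono μ (by omega))
  have c2 := h3 (2 ^ er K μ) x _ c1 b1
  refine (c2.trans (Nat.pow_le_pow_right (by norm_num) (er_pow K C₃ μ))).trans
    (pow_er_mono μ (by omega))

/-- PROOF. `KS_pair_le`: `KS (M, m) z ≤ KS M z + KS m (M, z) + er`, `m = (n, (k, q))`; `KS_num`; `Nat.size m` is at most
`er C ν` (`pair_le_pow`, `size_le_of_le_pow`). -/
theorem par_small : ∃ C, ∀ ν M n k q z, n ≤ ν → k ≤ ν → q ≤ ν → Nat.size M ≤ ν →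
    KS (par M n k q) z ≤ Nat.size M + er C ν := by
  obtain ⟨C₁, h1⟩ := KS_num
  obtain ⟨C₂, h2⟩ := KS_pair_le
  obtain ⟨C₃, h3⟩ := T_er C₂ (1 + C₁ + 1)
  refine ⟨C₃ + (2 * (1 + (2 * (1 + 1) + 4)) + 4 + 1) + 2 * C₁, fun ν M n k q z hn hk hq hM => ?_⟩
  have en : n ≤ 2 ^ er 1 ν := hn.trans (le_pow_er ν)
  have ek : k ≤ 2 ^ er 1 ν := hk.trans (le_pow_er ν)
  have eq : q ≤ 2 ^ er 1 ν := hq.trans (le_pow_er ν)
  have a1 := size_le_of_le_pow (pair_le_pow en (pair_le_pow ek eq))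
  have a2 := h1 (Nat.pair n (Nat.pair k q)) (Nat.pair M z)
  have a3 := h1 M z
  have a4 := h1 M 0
  have a5 := h2 (ν + C₁) M (Nat.pair n (Nat.pair k q)) z (by omega)
  have a6 := h3 ν (ν + C₁) (add_le_pow (le_pow_er ν) (const_le_pow C₁ ν))
  have a7 := er_add (C₃ + (2 * (1 + (2 * (1 + 1) + 4)) + 4 + 1)) (2 * C₁) ν
  have a8 := er_add C₃ (2 * (1 + (2 * (1 + 1) + 4)) + 4 + 1) ν
  have a9 := le_er (2 * C₁) ν
  unfold par
  omega

end Pool.Agent.Lib.H96K
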