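import Pool.Agent.Lib.H96K.B4
import Pool.Agent.Lib.H96K.E4

/-! Chunk B5 (M): the lateness lemma, second form -/

set_option autoImplicit false

namespace Pool.Agent.Lib.H96K

open Pool.Agent.Lib.H52K

/-- PROOF. `late` gives `M, q, t`; `a = KS x z ≤ ν + C` (`KS_zero`). `P = par M ν a q`. `par_small` with
`ν' = ν + C + s + er C ν` for its `ν`: `KS P z' ≤ Nat.size M + er C' ν' ≤ C'' * s + er C'' ν` for all `z'`
(`Nat.size (u + v) ≤ Nat.size u + Nat.size v + 1`, `Nat.size s ≤ s`, `er_le_pow`, `add_le_pow`, `size_le_of_le_pow`).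
`a ≤ KS x (y, z) + s + er` (`cmi`) and `KS x (y, z) ≤ KS x (y, (P, z)) + KS P z + er C ν₂` (`cond_par` with
`ν₂ = C'' * s + er C'' ν ≥ KS P 0`). -/
theorem late2 : ∃ C, ∀ ν s x y z, KS x 0 ≤ ν → KS y 0 ≤ ν →
    KS x z + KS y z ≤ KS (Nat.pair x y) z + s →
    (∀ t, y ∈ Xt ν (KS y z) z t → x ∈ Xt ν (KS x z) z t) →
    ∃ M q t, Fst ν (KS x z) z (M * 2 ^ q) t ∧ x ∈ Xt ν (KS x z) z t ∧
      (∀ z', KS (par M ν (KS x z) q) z' ≤ C * s + er C ν) ∧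
      KS x z ≤ KS x (Nat.pair y (Nat.pair (par M ν (KS x z) q) z)) + C * s + er C ν := by
  obtain ⟨C₀, h0⟩ := KS_zero
  obtain ⟨C₁, h1⟩ := late
  obtain ⟨C₂, h2⟩ := par_small
  obtain ⟨C₃, h3⟩ := cmi
  obtain ⟨C₄, h4⟩ := cond_par
  obtain ⟨G, hG⟩ : ∃ G, G = Nat.size C₀ + C₁ + 5 := ⟨_, rfl⟩
  obtain ⟨K₁, hK₁⟩ : ∃ K, K = C₂ * G := ⟨_, rfl⟩
  obtain ⟨K₂, hK₂⟩ : ∃ K, K = C₄ * (1 + C₁ + K₁ + 1) := ⟨_, rfl⟩
  obtain ⟨K, hK⟩ : ∃ K, K = 2 + C₁ + K₁ + K₂ + C₃ + 1 := ⟨_, rfl⟩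
  refine ⟨K, fun ν s x y z hx hy hI hord => ?_⟩
  obtain ⟨w, hw⟩ : ∃ w, w = s + (Nat.size ν + 1) := ⟨_, rfl⟩
  have hcs : ∀ C, C * s + er C ν = C * w := fun C => by
    rw [hw]
    unfold er
    ring
  have her : ∀ C, er C ν ≤ C * w := fun C => by
    have := hcs C
    omega
  have hcw : ∀ C, C ≤ C * w := fun C => Nat.le_mul_of_pos_right C (by omega)
  obtain ⟨M, q, t, e1, e2, e3, e4⟩ := h1 ν s x y z hx hy hI hord
  have e5 := h0 x z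
  have e6 := her C₁
  obtain ⟨ν', hν'⟩ : ∃ ν', ν' = ν + C₀ + (s + C₁ * w) := ⟨_, rfl⟩
  obtain ⟨a, ha⟩ : ∃ a, a = KS x z := ⟨_, rfl⟩
  rw [← ha] at e1 e2 e4 e5
  have hszν : Nat.size ν' + 1 ≤ G * w := by
    have g1 := b4_size_add (ν + C₀) (s + C₁ * w)
    have g2 := b4_size_add ν C₀
    have g3 : Nat.size (s + C₁ * w) ≤ s + C₁ * w := Nat.size_le.2 Nat.lt_two_pow_self
    have g4 := hcw (Nat.size C₀)
    have g5 : G * w = Nat.size C₀ * w + C₁ * w + 5 * w := by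
      rw [hG]
      ring
    rw [hν']
    omega
  have k1 : ∀ z', KS (par M ν a q) z' ≤ w + C₁ * w + K₁ * w := fun z' => by
    have g1 := h2 ν' M ν a q z' (by omega) (by omega) (by omega) (by omega)
    have g2 : er C₂ ν' ≤ K₁ * w := by
      unfold er
      rw [hK₁, mul_assoc]
      exact Nat.mul_le_mul_left C₂ hszν
    omega
  have k2 := (h3 ν s x y z hx hy hI).1
  have k3 := h4 (w + C₁ * w + K₁ * w) x y z (par M ν a q) (k1 0)
  have k4 := k1 z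
  have k5 : er C₄ (w + C₁ * w + K₁ * w) ≤ K₂ * w := by
    have g1 : Nat.size (w + C₁ * w + K₁ * w) ≤ w + C₁ * w + K₁ * w :=
      Nat.size_le.2 Nat.lt_two_pow_self
    have g2 : (1 + C₁ + K₁ + 1) * w = w + C₁ * w + K₁ * w + w := by ring
    unfold er
    rw [hK₂, mul_assoc]
    exact Nat.mul_le_mul_left C₄ (by omega)
  have k6 := her C₃
  have k7 : K * w = 2 * w + C₁ * w + K₁ * w + K₂ * w + C₃ * w + w := by
    rw [hK]
    ring
  have hKs := hcs K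
  rw [← ha] at k2
  refine ⟨M, q, t, ?_⟩
  rw [← ha]
  refine ⟨e1, e2, fun z' => ?_, ?_⟩
  · have := k1 z'
    omega
  · omega

end Pool.Agent.Lib.H96K
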