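import Pool.Agent.Lib.H96K.D

/-! Chunk C1 (M): counting sequences, pure -/

set_option autoImplicit false

namespace Pool.Agent.Lib.H96K

theorem c1_inj (S r : ℕ) (U U' : ℕ) (h0 : U % S ^ r = U' % S ^ r) (B : ℕ)
    (h : ∀ i < B, dg S U (r + i) = dg S U' (r + i)) : U % S ^ (r + B) = U' % S ^ (r + B) := by
  induction B with
  | zero => exact h0
  | succ B ih =>
    have h1 := ih fun i hi => h i (Nat.lt_succ_of_lt hi)
    have h2 := h B (Nat.lt_succ_self B)
    unfold dg at h2
    rw [← Nat.add_assoc, Nat.mod_pow_succ, Nat.mod_pow_succ, h1, h2]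

/-- The number of the sequences (numbers `U < S ^ T`, sequence of the digits) whose digits number
`r, …, r + B - 1` lie in a set `A V` with at most `h` elements, which may depend on `V = U % S ^ r`
(that is on the first `r` digits). PROOF. The set is the union over `V < S ^ r` of the sets
`M V = {U | U % S ^ r = V, digits in A V}`. The map `U ↦ (fun i : Fin B => dg S U (r + i), U / S ^ (r + B))` is
injective on `M V` (`Nat.mod_pow_succ`: the digits and `U % S ^ r` determine `U % S ^ (r + B)`, induction on `B`) with
values in `Fintype.piFinset (fun _ => A V) ×ˢ Finset.range (S ^ (T - (r + B)))`, so `M V` has at most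
`h ^ B * S ^ (T - (r + B))` elements. Sum over `V`: `S ^ r * h ^ B * S ^ (T - (r + B))`; multiply by `S ^ B`. -/
theorem card_block (S T r B h : ℕ) (hS : 0 < S) (hT : r + B ≤ T) (A : ℕ → Finset ℕ)
    (hA : ∀ V, (A V).card ≤ h) :
    ((Finset.range (S ^ T)).filter fun U => ∀ i < B, dg S U (r + i) ∈ A (U % S ^ r)).card * S ^ B ≤
      h ^ B * S ^ T := by
  have h1 : ((Finset.range (S ^ T)).filter fun U =>
      ∀ i < B, dg S U (r + i) ∈ A (U % S ^ r)).card ≤
      (h ^ B * S ^ (T - (r + B))) * (Finset.range (S ^ r)).card := by
    apply Finset.card_le_mul_card_image_of_maps_to (f := fun U => U % S ^ r)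
    · intro U _
      exact Finset.mem_range.2 (Nat.mod_lt _ (pow_pos hS r))
    · intro V _
      have h2 : (Fintype.piFinset (fun _ : Fin B => A V) ×ˢ
          Finset.range (S ^ (T - (r + B)))).card ≤ h ^ B * S ^ (T - (r + B)) := by
        rw [Finset.card_product, Fintype.card_piFinset, Finset.prod_const, Finset.card_univ,
          Fintype.card_fin, Finset.card_range]
        exact Nat.mul_le_mul_right _ (Nat.pow_le_pow_left (hA V) B)
      refine le_trans ?_ h2
      apply Finset.card_le_card_of_injOn
        (fun U => ((fun i : Fin B => dg S U (r + i)), U / S ^ (r + B)))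
      · intro U hU
        simp only [Finset.coe_filter, Finset.mem_filter, Finset.mem_range,
          Set.mem_ofPred_eq] at hU
        obtain ⟨⟨hU1, hU2⟩, hU3⟩ := hU
        simp only [Finset.coe_product, Set.mem_prod, Finset.mem_coe, Fintype.mem_piFinset,
          Finset.mem_range]
        constructor
        · intro i
          rw [← hU3]
          exact hU2 i i.2
        · apply Nat.div_lt_of_lt_mul
          rw [← pow_add, Nat.add_sub_cancel' hT]
          exact hU1
      · intro U hU U' hU' hh
        simp only [Finset.coe_filter, Finset.mem_filter, Finset.mem_range,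
          Set.mem_ofPred_eq] at hU hU'
        simp only [Prod.mk.injEq] at hh
        have h3 := c1_inj S r U U' (hU.2.trans hU'.2.symm) B
          (fun i hi => congrFun hh.1 ⟨i, hi⟩)
        rw [← Nat.div_add_mod U (S ^ (r + B)), ← Nat.div_add_mod U' (S ^ (r + B)), hh.2, h3]
  calc _ ≤ (h ^ B * S ^ (T - (r + B))) * (Finset.range (S ^ r)).card * S ^ B :=
        Nat.mul_le_mul_right _ h1
    _ = h ^ B * S ^ T := by
        rw [Finset.card_range]
        have h4 : S ^ T = S ^ (T - (r + B)) * (S ^ r * S ^ B) := by
          rw [← pow_add, ← pow_add]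
          congr 1
          omega
        rw [h4]
        ring

end Pool.Agent.Lib.H96K
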