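import Pool.Agent.Lib.H96K.D

/-! Chunk C2 (S): three small pure lemmas -/

set_option autoImplicit false

namespace Pool.Agent.Lib.H96K

/-- PROOF. Over the reals: `1 - g / S ≤ exp (- g / S)` (`Real.one_sub_le_exp_neg` or `Real.add_one_le_exp`), so
`(1 - g / S) ^ B ≤ exp (- B g / S) ≤ exp (- D) ≤ 2 ^ (- D)` (`exp 1 ≥ 2`: `Real.add_one_le_exp 1`). -/
theorem pow_bound (S g B D : ℕ) (hS : 0 < S) (hg : g ≤ S) (h : D * S ≤ B * g) :
    (S - g) ^ B * 2 ^ D ≤ S ^ B := by
  have hS' : (0 : ℝ) < S := by exact_mod_cast hS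
  have h1 : ((S - g : ℕ) : ℝ) ≤ S * Real.exp (-(g / S : ℝ)) := by
    have h2 := Real.add_one_le_exp (-(g / S : ℝ))
    rw [Nat.cast_sub hg]
    have h3 : (S : ℝ) - g = S * (-(g / S : ℝ) + 1) := by
      field_simp
      ring
    rw [h3]
    exact mul_le_mul_of_nonneg_left h2 hS'.le
  have h4 : (2 : ℝ) ≤ Real.exp 1 := by
    have := Real.add_one_le_exp 1
    linarith
  have h5 : (((S - g : ℕ) : ℝ)) ^ B * 2 ^ D ≤ (S : ℝ) ^ B := by
    have h6 : (((S - g : ℕ) : ℝ)) ^ B ≤ (S : ℝ) ^ B * Real.exp (-(B * g / S : ℝ)) := by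
      calc (((S - g : ℕ) : ℝ)) ^ B ≤ (S * Real.exp (-(g / S : ℝ))) ^ B :=
            pow_le_pow_left₀ (Nat.cast_nonneg _) h1 B
        _ = (S : ℝ) ^ B * Real.exp (-(B * g / S : ℝ)) := by
            rw [mul_pow, ← Real.exp_nat_mul]
            congr 2
            ring
    have h7 : Real.exp (-(B * g / S : ℝ)) ≤ Real.exp (-(D : ℝ)) := by
      apply Real.exp_le_exp.mpr
      have h8 : (D : ℝ) * S ≤ B * g := by exact_mod_cast h
      have h9 : (D : ℝ) ≤ B * g / S := by
        rw [le_div_iff₀ hS']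
        exact h8
      linarith
    have h10 : (2 : ℝ) ^ D ≤ Real.exp (D : ℝ) := by
      calc (2 : ℝ) ^ D ≤ (Real.exp 1) ^ D := pow_le_pow_left₀ (by norm_num) h4 D
        _ = Real.exp (D : ℝ) := by
            rw [← Real.exp_nat_mul]
            congr 1
            ring
    calc (((S - g : ℕ) : ℝ)) ^ B * 2 ^ D
        ≤ ((S : ℝ) ^ B * Real.exp (-(D : ℝ))) * Real.exp (D : ℝ) := by
          refine mul_le_mul (h6.trans ?_) h10 (by positivity) (by positivity)
          exact mul_le_mul_of_nonneg_left h7 (by positivity)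
      _ = (S : ℝ) ^ B := by
          rw [mul_assoc, ← Real.exp_add]
          simp
  exact_mod_cast h5

/-- PROOF. Induction on `N`: if no `G j` holds for `j < N` then `f j + j ≤ f 0` for all `j ≤ N`. -/
theorem potential (f : ℕ → ℕ) (G : ℕ → Prop) (N : ℕ) (h : ∀ j < N, G j ∨ f (j + 1) + 1 ≤ f j)
    (h0 : f 0 < N) : ∃ j < N, G j := by
  by_contra hc
  push Not at hc
  have key : ∀ j, j ≤ N → f j + j ≤ f 0 := by
    intro j
    induction j with
    | zero => intro _; omega
    | succ j ih =>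
      intro hj
      have h1 := ih (by omega)
      rcases h j (by omega) with h2 | h2
      · exact absurd h2 (hc j (by omega))
      · omega
  have := key N le_rfl
  omega

/-- PROOF. `C = 2 ^ k`, `Nat.size C = k + 1`, `k` large (for instance `k = 2 * A + 10`: `A + A (k + 1) ≤ 2 ^ k`). -/
theorem numeric (A : ℕ) : ∃ C, A + A * Nat.size C ≤ C := by
  refine ⟨2 ^ (2 * A + 4), ?_⟩
  rw [Nat.size_pow]
  have key : ∀ a : ℕ, a + a * (2 * a + 4 + 1) ≤ 2 ^ (2 * a + 4) := by
    intro a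
    induction a with
    | zero => simp
    | succ n ih =>
      have h1 : 2 ^ (2 * (n + 1) + 4) = 4 * 2 ^ (2 * n + 4) := by
        rw [show 2 * (n + 1) + 4 = (2 * n + 4) + 2 by ring, pow_add]
        ring
      have h2 : 16 * (n + 1) ≤ 4 * 2 ^ (2 * n + 4) := by
        have h3 : n + 1 ≤ 2 ^ n := Nat.lt_two_pow_self
        have h4 : 2 ^ (2 * n + 4) = 16 * (2 ^ n * 2 ^ n) := by
          rw [pow_add, two_mul, pow_add]
          ring
        have h5 : 0 < 2 ^ n := by positivity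
        nlinarith
      rw [h1]
      nlinarith [ih, h2, Nat.lt_two_pow_self (n := 2 * n + 4)]
  exact key A

end Pool.Agent.Lib.H96K
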