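import Pool.Agent.Lib.H96K.D

/-! Chunk C4 (S): fibres, pure -/

set_option autoImplicit false

namespace Pool.Agent.Lib.H96K

/-- PROOF. `U ↦ (U % S ^ r, U / S ^ r)` maps `range (S ^ T)` injectively to
`range (S ^ r) ×ˢ range (S ^ (T - r))`. -/
theorem card_fiber (S T r : ℕ) (hS : 0 < S) (hT : r ≤ T) (P : ℕ → Prop) [DecidablePred P] :
    ((Finset.range (S ^ T)).filter fun U => P (U % S ^ r)).card ≤
      ((Finset.range (S ^ r)).filter P).card * S ^ (T - r) := by
  have h0 : 0 < S ^ r := pow_pos hS r
  have h1 : S ^ T = S ^ r * S ^ (T - r) := by rw [← pow_add]; congr 1; omega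
  calc ((Finset.range (S ^ T)).filter fun U => P (U % S ^ r)).card
      ≤ (((Finset.range (S ^ r)).filter P) ×ˢ (Finset.range (S ^ (T - r)))).card := by
        refine Finset.card_le_card_of_injOn (fun U => (U % S ^ r, U / S ^ r)) ?_ ?_
        · intro U hU
          rw [Finset.mem_coe, Finset.mem_filter, Finset.mem_range] at hU
          rw [Finset.mem_coe, Finset.mem_product, Finset.mem_filter, Finset.mem_range, Finset.mem_range]
          refine ⟨⟨Nat.mod_lt _ h0, hU.2⟩, ?_⟩
          rw [Nat.div_lt_iff_lt_mul h0, mul_comm, ← h1]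
          exact hU.1
        · intro U _ V _ h
          rw [Prod.mk.injEq] at h
          rw [← Nat.div_add_mod U (S ^ r), ← Nat.div_add_mod V (S ^ r), h.1, h.2]
    _ = _ := by rw [Finset.card_product, Finset.card_range]

end Pool.Agent.Lib.H96K
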