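import Pool.Agent.Lib.H96K.C2

/-! Chunk C5 (M): the numbers, pure -/

set_option autoImplicit false

namespace Pool.Agent.Lib.H96K

open Pool.Agent.Lib.H52K

theorem c5_pair (a b : ℕ) : Nat.size (Nat.pair a b) ≤ 2 * (Nat.size a + Nat.size b) + 1 := by
  have h0 : Nat.pair a b < (max a b + 1) ^ 2 := Nat.pair_lt_max_add_one_sq a b
  have h1 : max a b < 2 ^ (Nat.size a + Nat.size b) := by
    rcases max_choice a b with h | h
    · rw [h]
      exact (Nat.lt_size_self a).trans_le (Nat.pow_le_pow_right (by norm_num) (by omega))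
    · rw [h]
      exact (Nat.lt_size_self b).trans_le (Nat.pow_le_pow_right (by norm_num) (by omega))
  have h2 : (max a b + 1) ^ 2 ≤ (2 ^ (Nat.size a + Nat.size b)) ^ 2 := Nat.pow_le_pow_left h1 2
  rw [← pow_mul] at h2
  have h3 : Nat.size (Nat.pair a b) ≤ (Nat.size a + Nat.size b) * 2 :=
    Nat.size_le.2 (h0.trans_le h2)
  omega

theorem c5_mul (a b : ℕ) : Nat.size (a * b) ≤ Nat.size a + Nat.size b := by
  rw [Nat.size_le, pow_add]
  rcases Nat.eq_zero_or_pos b with rfl | hb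
  · rw [Nat.mul_zero]
    positivity
  · exact Nat.mul_lt_mul'' (Nat.lt_size_self a) (Nat.lt_size_self b)

theorem c5_add (a b : ℕ) : Nat.size (a + b) ≤ Nat.size a + Nat.size b + 1 := by
  rw [Nat.size_le]
  have h1 := Nat.lt_size_self a
  have h2 := Nat.lt_size_self b
  have h3 : 2 ^ Nat.size a ≤ 2 ^ (Nat.size a + Nat.size b) :=
    Nat.pow_le_pow_right (by norm_num) (by omega)
  have h4 : 2 ^ Nat.size b ≤ 2 ^ (Nat.size a + Nat.size b) :=
    Nat.pow_le_pow_right (by norm_num) (by omega)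
  rw [pow_succ]
  omega

theorem c5_self (a : ℕ) : Nat.size a ≤ a := Nat.size_le.2 Nat.lt_two_pow_self

/-- PROOF. `Nat.size (Nat.pair a b) ≤ 2 * (Nat.size a + Nat.size b) + 1`: `Nat.pair a b < (max a b + 1) ^ 2`
(`Nat.pair_lt_max_add_one_sq`), `max a b < 2 ^ (Nat.size a + Nat.size b)` (`Nat.lt_size_self`), `Nat.size_le`. Use this
four times. -/
theorem thc_size (κ m j β d : ℕ) : Nat.size (thc κ m j β d) ≤
    16 * (Nat.size κ + Nat.size m + Nat.size j + Nat.size β + Nat.size d) + 16 := by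
  unfold thc
  have h1 := c5_pair β d
  have h2 := c5_pair j (Nat.pair β d)
  have h3 := c5_pair m (Nat.pair j (Nat.pair β d))
  have h4 := c5_pair κ (Nat.pair m (Nat.pair j (Nat.pair β d)))
  omega

/-- PROOF. `d = er Cd ν` where `Cd` (depending on `A`) is such that `4 * ((ν + 1) * (ν + A + 1)) ≤ 2 ^ er Cd ν`
(`le_pow_er`, `const_le_pow`, `add_le_pow`, `mul_le_pow` of file K0 of H52K). Let `w = s + Nat.size ν + 1`, so that
`er C ν ≤ C * w` for all `C`, `β = Cβ * w`, where `Cβ` is chosen below. For `κ ≤ ν + A`, `j ≤ ν`, `m ≤ ν + A`: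
`Nat.size κ ≤ Nat.size ν + Nat.size A + 1`, .., `Nat.size d ≤ d ≤ Cd * w`, `Nat.size β ≤ Nat.size Cβ + Nat.size w ≤ Nat.size Cβ + w`
(`Nat.size (a * b) ≤ Nat.size a + Nat.size b`), so `thc_size` gives
`2 * Nat.size (thc κ m j β d) ≤ D * w + 32 * Nat.size Cβ =: σ` with a constant `D` depending on `A`, `Cd` only. The fifth
statement is then of the form `D' * w + 32 * Nat.size Cβ ≤ Cβ * w`: take `Cβ` from `numeric (D' + 32)`
(`w ≥ 1`). The last one: `ν + 1 ≤ 2 ^ er 1 ν` or so (`le_pow_er`, `Nat.lt_size_self`), `β ≤ Cβ * s + er Cβ ν`. -/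
theorem params (A : ℕ) : ∃ C, ∀ ν s : ℕ, ∃ d β σ : ℕ,
    4 * ((ν + 1) * (ν + A + 1)) ≤ 2 ^ d ∧
    (∀ κ m j, κ ≤ ν + A → m ≤ ν + A → j ≤ ν → 2 * Nat.size (thc κ m j β d) ≤ σ) ∧
    d + (d + σ + A + 1) + (A * s + er A ν) ≤ β ∧
    (ν + 1) * 2 ^ β ≤ 2 ^ (C * s + er C ν) := by
  obtain ⟨Cd, hCd⟩ : ∃ Cd, ∀ ν : ℕ, 4 * ((ν + 1) * (ν + A + 1)) ≤ 2 ^ er Cd ν :=
    ⟨4 + ((1 + 1 + 1) + (1 + A + 1 + 1 + 1)), fun ν =>
      mul_le_pow (const_le_pow 4 ν) (mul_le_pow (add_le_pow (le_pow_er ν) (const_le_pow 1 ν))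
        (add_le_pow (add_le_pow (le_pow_er ν) (const_le_pow A ν)) (const_le_pow 1 ν)))⟩
  obtain ⟨D, hD⟩ : ∃ D, D = 2 * Cd + 32 * (3 + 2 * (Nat.size A + 1) + 1 + Cd) + 32 + A + 1 + A :=
    ⟨_, rfl⟩
  obtain ⟨Cβ, hCβ⟩ := numeric (D + 32)
  refine ⟨Cβ + 1, fun ν s => ?_⟩
  obtain ⟨w, hw⟩ : ∃ w, w = s + Nat.size ν + 1 := ⟨_, rfl⟩
  have hw1 : 1 ≤ w := by omega
  obtain ⟨Q, hQ⟩ : ∃ Q, Q = (3 + 2 * (Nat.size A + 1) + 1 + Cd) * w := ⟨_, rfl⟩
  have hd : er Cd ν ≤ Cd * w := Nat.mul_le_mul_left _ (by omega)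
  refine ⟨er Cd ν, Cβ * w, 32 * (Q + Nat.size Cβ) + 32 * w, hCd ν, ?_, ?_, ?_⟩
  · intro κ m j hκ hm hj
    have h1 := thc_size κ m j (Cβ * w) (er Cd ν)
    have h2 : Nat.size κ ≤ Nat.size ν + Nat.size A + 1 := (Nat.size_le_size hκ).trans (c5_add ν A)
    have h3 : Nat.size m ≤ Nat.size ν + Nat.size A + 1 := (Nat.size_le_size hm).trans (c5_add ν A)
    have h4 : Nat.size j ≤ Nat.size ν := Nat.size_le_size hj
    have h5 : Nat.size (Cβ * w) ≤ Nat.size Cβ + w := (c5_mul Cβ w).trans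
      (Nat.add_le_add_left (c5_self w) _)
    have h6 : Nat.size (er Cd ν) ≤ Cd * w := (c5_self _).trans hd
    have h7 : Nat.size κ + Nat.size m + Nat.size j + Nat.size (Cβ * w) + Nat.size (er Cd ν) ≤
        Q + Nat.size Cβ := by
      have h8 : (Nat.size A + 1) * 1 ≤ (Nat.size A + 1) * w := Nat.mul_le_mul_left _ hw1
      have h9 : Q = 3 * w + 2 * ((Nat.size A + 1) * w) + w + Cd * w := by rw [hQ]; ring
      omega
    omega
  · have h1 : er Cd ν + (er Cd ν + (32 * (Q + Nat.size Cβ) + 32 * w) + A + 1) +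
        (A * s + er A ν) ≤ D * w + 32 * (Nat.size Cβ * w) := by
      have h2 : A * s + er A ν = A * w := by
        rw [hw]; unfold er; ring
      have h3 : (A + 1) * 1 ≤ (A + 1) * w := Nat.mul_le_mul_left _ hw1
      have h4 : Nat.size Cβ * 1 ≤ Nat.size Cβ * w := Nat.mul_le_mul_left _ hw1
      have h5 : D * w = 2 * (Cd * w) + 32 * Q + 32 * w + (A + 1) * w + A * w := by
        rw [hD, hQ]; ring
      omega
    refine h1.trans ?_
    calc D * w + 32 * (Nat.size Cβ * w) = (D + 32 * Nat.size Cβ) * w := by ring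
      _ ≤ Cβ * w := by
        refine Nat.mul_le_mul_right _ (le_trans ?_ hCβ)
        nlinarith [Nat.zero_le (D * Nat.size Cβ)]
  · have h1 : ν + 1 ≤ 2 ^ Nat.size ν := Nat.lt_size_self ν
    calc (ν + 1) * 2 ^ (Cβ * w) ≤ 2 ^ Nat.size ν * 2 ^ (Cβ * w) := Nat.mul_le_mul_right _ h1
      _ = 2 ^ (Nat.size ν + Cβ * w) := (pow_add _ _ _).symm
      _ ≤ _ := by
        apply Nat.pow_le_pow_right (by norm_num)
        have h2 : (Cβ + 1) * s + er (Cβ + 1) ν = Cβ * w + w := by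
          rw [hw]; unfold er; ring
        omega

end Pool.Agent.Lib.H96K
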