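import Pool.Agent.Lib.H52K.M2
import Pool.Agent.Lib.H52K.S5

/-!
# Project H96K (MP_a7dd6b_lc): definitions

The question is answered positively when the conditional mutual information of `x, y` given `z` can be
extracted (`PROOF.md`).  The toolkit for Kolmogorov complexity is `Pool.Agent.Lib.H52K`.
-/

set_option autoImplicit false

namespace Pool.Agent.Lib.H96K

open Pool.Agent.Lib.H52K

/-- Stage `t` of the enumeration of `{x | KS x z ≤ k ∧ KS x 0 ≤ n}`. -/
def Xt (n k z t : ℕ) : List ℕ := (En k z t).filter fun x => decide (x ∈ En n 0 t)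

/-- `t` is the first stage at which `Xt n k z` has at least `m` elements. -/
def Fst (n k z m t : ℕ) : Prop := m ≤ (Xt n k z t).length ∧ ∀ t' < t, (Xt n k z t').length < m

instance (n k z m t : ℕ) : Decidable (Fst n k z m t) := inferInstanceAs (Decidable (_ ∧ _))

/-- The digit number `i` of `U` in base `S`. -/
def dg (S U i : ℕ) : ℕ := U / S ^ i % S

/-- The first `r` entries of the sequence number `U` over the alphabet `X`. -/
def dec (X : List ℕ) (r U : ℕ) : List ℕ := (List.range r).map fun i => X.getD (dg X.length U i) 0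

/-- The code of the first `r` entries. -/
def pre (X : List ℕ) (r U : ℕ) : ℕ := Encodable.encode (dec X r U)

/-- Code of the parameters. -/
def par (M n k q : ℕ) : ℕ := Nat.pair M (Nat.pair n (Nat.pair k q))

/-- The elements `x` of `X` with `KS y (x, p) ≤ κ`, as seen at stage `t`. -/
def Gl (X : List ℕ) (y κ p t : ℕ) : List ℕ := X.filter fun x => decide (y ∈ En κ (Nat.pair x p) t)

/-- `x` is among the first elements (less than `g`) of `Gl X y κ p`. -/
def Ear (X : List ℕ) (y κ p g x : ℕ) : Prop :=
  ∃ t, x ∈ Gl X y κ p t ∧ (Gl X y κ p t).length < g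

/-- Code of the parameters. -/
def thc (κ m j β d : ℕ) : ℕ := Nat.pair κ (Nat.pair m (Nat.pair j (Nat.pair β d)))

end Pool.Agent.Lib.H96K
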