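import Pool.Agent.Lib.H96K.A2
import Pool.Agent.Lib.H96K.A4

/-! Chunk E2 (M): the prefix is simple given the sequence number and the set -/

set_option autoImplicit false

namespace Pool.Agent.Lib.H96K

open Pool.Agent.Lib.H52K

/-- the relation which is enumerated -/
def e2_P (p : (ℕ × ℕ) × (ℕ × ℕ)) : Prop :=
  Fst p.1.2.unpair.2.unpair.1.unpair.2.unpair.1
    p.1.2.unpair.2.unpair.1.unpair.2.unpair.2.unpair.1
    p.1.2.unpair.2.unpair.2
    (p.1.2.unpair.2.unpair.1.unpair.1 * 2 ^ p.1.2.unpair.2.unpair.1.unpair.2.unpair.2.unpair.2)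
    p.2.2 ∧
  p.2.1 = pre (Xt p.1.2.unpair.2.unpair.1.unpair.2.unpair.1
    p.1.2.unpair.2.unpair.1.unpair.2.unpair.2.unpair.1
    p.1.2.unpair.2.unpair.2 p.2.2) p.1.1 p.1.2.unpair.1

theorem e2_prim : PrimrecPred e2_P := by
  have f : Primrec fun z : ℕ => z.unpair.1 := Primrec.fst.comp Primrec.unpair
  have s : Primrec fun z : ℕ => z.unpair.2 := Primrec.snd.comp Primrec.unpair
  have c1 : Primrec fun p : (ℕ × ℕ) × (ℕ × ℕ) => p.1.1 := Primrec.fst.comp Primrec.fst
  have c2 : Primrec fun p : (ℕ × ℕ) × (ℕ × ℕ) => p.1.2 := Primrec.snd.comp Primrec.fst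
  have c3 : Primrec fun p : (ℕ × ℕ) × (ℕ × ℕ) => p.2.1 := Primrec.fst.comp Primrec.snd
  have c4 : Primrec fun p : (ℕ × ℕ) × (ℕ × ℕ) => p.2.2 := Primrec.snd.comp Primrec.snd
  have d1 := s.comp c2
  have d2 := f.comp d1
  have z := s.comp d1
  have M := f.comp d2
  have d3 := s.comp d2
  have n := f.comp d3
  have d4 := s.comp d3
  have k := f.comp d4
  have q := s.comp d4
  have m := Primrec.nat_mul.comp M (pow_primrec.comp (Primrec.const 2) q)
  exact (Fst_prim n k z m c4).and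
    (Primrec.eq.comp c3 (pre_prim (Xt_prim n k z c4) c1 (f.comp c2)))

/-- PROOF. `KS_ce` (file K5 of H52K) for the relation `R ((θ, w), (u, t))`: `Fst n k z (M * 2 ^ q) t` and
`u = pre (Xt n k z t) r U`, where `θ = r`, `w = (U, (par M n k q, z))`: computable (`Fst_prim`, `pre_prim`,
`Xt_prim`); as `t` is unique (`Fst_unique`) there is only one such `u`, so the sets of such `u` have at most
`1 = 2 ^ 0` elements. -/
theorem KS_pre : ∃ C, ∀ n k z M q t r U, Fst n k z (M * 2 ^ q) t →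
    KS (pre (Xt n k z t) r U) (Nat.pair U (Nat.pair (par M n k q) z)) ≤
      2 * Nat.size r + C := by
  classical
  obtain ⟨C, hC⟩ := KS_ce (fun p => decide (e2_P p)) e2_prim.decide.to_comp
  refine ⟨C, fun n k z M q t r U ht => ?_⟩
  have h := hC r (Nat.pair U (Nat.pair (par M n k q) z)) 0 (fun S hS => ?_)
    (pre (Xt n k z t) r U) t ?_
  · omega
  · rw [pow_zero, Finset.card_le_one]
    intro a ha b hb
    obtain ⟨t1, h1⟩ := hS a ha
    obtain ⟨t2, h2⟩ := hS b hb
    rw [decide_eq_true_eq] at h1 h2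
    simp only [e2_P, par, Nat.unpair_pair] at h1 h2
    rw [h1.2, h2.2, Fst_unique h1.1 h2.1]
  · rw [decide_eq_true_eq]
    simp only [e2_P, par, Nat.unpair_pair]
    exact ⟨ht, trivial⟩

end Pool.Agent.Lib.H96K
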