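import Pool.Agent.Lib.H96K.C3

/-! Chunk E3 (S/M): from a long prefix to a short one -/

set_option autoImplicit false

namespace Pool.Agent.Lib.H96K

open Pool.Agent.Lib.H52K

/-- entry and short prefix of a list -/
def e3_f (p : ℕ × ℕ) : ℕ :=
  Nat.pair ((lst p.2).getD p.1.unpair.2 0) (Encodable.encode ((lst p.2).take p.1.unpair.1))

theorem e3_comp : Computable e3_f := by
  have c1 : Computable fun p : ℕ × ℕ => lst p.2 := lst_computable.comp Computable.snd
  have c2 : Computable fun p : ℕ × ℕ => p.1.unpair.1 :=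
    Computable.fst.comp (Computable.unpair.comp Computable.fst)
  have c3 : Computable fun p : ℕ × ℕ => p.1.unpair.2 :=
    Computable.snd.comp (Computable.unpair.comp Computable.fst)
  have d1 : Computable fun p : ℕ × ℕ => (lst p.2).getD p.1.unpair.2 0 :=
    (Primrec.list_getD 0).to_comp.comp c1 c3
  have d2 : Computable fun p : ℕ × ℕ => (lst p.2).take p.1.unpair.1 :=
    Primrec.list_take.to_comp.comp c2 c1
  exact Primrec₂.natPair.to_comp.comp d1 (Computable.encode.comp d2)

/-- PROOF. Let `v = (x', pre X r U)` with the entry `x'` number `i`. `KS_trans`: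
`KS y P ≤ KS y v + KS v P + er C N` for `P = pre X R U`. `KS v P ≤ Nat.size (r, i) + C` by `KS_le_partrec` for the
computable function `(w, P) ↦ ((lst P).getD w.unpair.2 0, Encodable.encode ((lst P).take w.unpair.1))`
(`lst_computable`, `lst_encode`: file S3a of H52K; `Computable.list_getD`, `Primrec.list_take` (if missing: take as a map over a
range), `dec_take`, `dec_getD`). -/
theorem KS_step : ∃ C, ∀ N X r R i U y, i < R → r ≤ R →
    KS (Nat.pair (X.getD (dg X.length U i) 0) (pre X r U)) 0 ≤ N →
    KS y (pre X R U) ≤ KS y (Nat.pair (X.getD (dg X.length U i) 0) (pre X r U)) +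
      Nat.size (Nat.pair r i) + er C N := by
  obtain ⟨C₁, h1⟩ := KS_trans
  obtain ⟨C₂, h2⟩ := KS_le_partrec (fun p => Part.some (e3_f p)) e3_comp.partrec
  refine ⟨C₁ + C₂, fun N X r R i U y hi hr hN => ?_⟩
  have k1 := h1 N y _ (pre X R U) hN
  have k2 := h2 (Nat.pair r i) (pre X R U)
    (Nat.pair (X.getD (dg X.length U i) 0) (pre X r U)) (by
      rw [Part.mem_some_iff]
      unfold e3_f pre
      simp only [Nat.unpair_pair, lst_encode]
      rw [dec_getD X U hi, dec_take X U hr])
  have k3 := er_add C₁ C₂ N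
  have k4 := le_er C₂ N
  omega

end Pool.Agent.Lib.H96K
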