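import Pool.Agent.Lib.H96K.D

/-! Chunk F1 (S): basic properties of `Gl`, `Ear` -/

set_option autoImplicit false

namespace Pool.Agent.Lib.H96K

open Pool.Agent.Lib.H52K

theorem f1_mem {X : List ℕ} {y κ p t x : ℕ} : x ∈ Gl X y κ p t ↔ x ∈ X ∧ y ∈ En κ (Nat.pair x p) t := by
  unfold Gl
  rw [List.mem_filter, decide_eq_true_eq]

/-- PROOF. `En_prefix`. -/
theorem Gl_mono (X : List ℕ) (y κ p : ℕ) {s t : ℕ} (h : s ≤ t) :
    ∀ x ∈ Gl X y κ p s, x ∈ Gl X y κ p t := by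
  intro x hx
  rw [f1_mem] at hx ⊢
  exact ⟨hx.1, (En_prefix _ _ h).subset hx.2⟩

/-- PROOF. `Gl X y κ p s` is a sublist of `Gl X y κ p t` (filters with an implication: `List.monotone_filter_right`). -/
theorem Gl_length_mono (X : List ℕ) (y κ p : ℕ) {s t : ℕ} (h : s ≤ t) :
    (Gl X y κ p s).length ≤ (Gl X y κ p t).length := by
  unfold Gl
  apply List.Sublist.length_le
  apply List.monotone_filter_right
  intro x hx
  rw [decide_eq_true_eq] at hx ⊢
  exact (En_prefix _ _ h).subset hx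

/-- PROOF. `KS_le_of_mem_En`. -/
theorem KS_of_mem_Gl {X : List ℕ} {y κ p t x : ℕ} (h : x ∈ Gl X y κ p t) :
    x ∈ X ∧ KS y (Nat.pair x p) ≤ κ := by
  rw [f1_mem] at h
  exact ⟨h.1, KS_le_of_mem_En h.2⟩

/-- PROOF. `exists_mem_En`. -/
theorem exists_mem_Gl {X : List ℕ} {y κ p x : ℕ} (hx : x ∈ X) (h : KS y (Nat.pair x p) ≤ κ) :
    ∃ t, x ∈ Gl X y κ p t := by
  obtain ⟨t, ht⟩ := exists_mem_En h
  exact ⟨t, f1_mem.2 ⟨hx, ht⟩⟩

/-- PROOF. `exists_mem_Gl` and the definition of `Ear`. -/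
theorem Gl_large {X : List ℕ} {y κ p g x : ℕ} (hx : x ∈ X) (h : KS y (Nat.pair x p) ≤ κ)
    (hE : ¬ Ear X y κ p g x) : ∃ t, g ≤ (Gl X y κ p t).length := by
  obtain ⟨t, ht⟩ := exists_mem_Gl hx h
  exact ⟨t, not_lt.1 fun h1 => hE ⟨t, ht, h1⟩⟩

/-- PROOF. Every `x ∈ A` has a stage `t x` with `x ∈ Gl (t x)`, length less than `g`. Let `t` be the largest one
of these stages, `t = t x₀`: then `A` is contained in `Gl t` (`Gl_mono`), whose length is less than `g`.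
(`A = ∅`: trivial.) -/
theorem Ear_card (X : List ℕ) (y κ p g : ℕ) (A : Finset ℕ) (hA : ∀ x ∈ A, Ear X y κ p g x) :
    A.card ≤ g := by
  classical
  rcases A.eq_empty_or_nonempty with h | h
  · rw [h, Finset.card_empty]
    exact Nat.zero_le _
  have h1 : ∀ x : ℕ, ∃ t : ℕ, x ∈ A → x ∈ Gl X y κ p t ∧ (Gl X y κ p t).length < g := by
    intro x
    by_cases hx : x ∈ A
    · obtain ⟨t, ht⟩ := hA x hx
      exact ⟨t, fun _ => ht⟩
    · exact ⟨0, fun h => absurd h hx⟩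
  choose t ht using h1
  obtain ⟨x₀, hx₀, hmax⟩ := A.exists_max_image t h
  have h2 : A ⊆ (Gl X y κ p (t x₀)).toFinset := by
    intro x hx
    rw [List.mem_toFinset]
    exact Gl_mono X y κ p (hmax x hx) x (ht x hx).1
  calc A.card ≤ (Gl X y κ p (t x₀)).toFinset.card := Finset.card_le_card h2
    _ ≤ (Gl X y κ p (t x₀)).length := List.toFinset_card_le _
    _ ≤ g := (ht x₀ hx₀).2.le

end Pool.Agent.Lib.H96K
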