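import Pool.Agent.Lib.H96K.F1

/-! Chunk F2 (M): the number of bad elements -/

set_option autoImplicit false

namespace Pool.Agent.Lib.H96K

open Pool.Agent.Lib.H52K

open Classical in
/-- PROOF. Double counting of the pairs `(x, V)`, `x ∈ A`, `V < S ^ r` (`S = X.length`), with
`Ear X y κ (pre X r V) (2 ^ m) x` (`Finset.sum_card_bipartiteAbove_eq_sum_card_bipartiteBelow` or `Finset.sum_comm`):
for every `V` there are at most `2 ^ m` of them (`Ear_card`), so
`A.card * S ^ r ≤ 2 ^ d * (number of pairs) ≤ 2 ^ d * (S ^ r * 2 ^ m)`; divide by `S ^ r > 0`. -/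
theorem card_bad (X : List ℕ) (hX : X ≠ []) (y κ m r d : ℕ) (A : Finset ℕ)
    (hA : ∀ x ∈ A, X.length ^ r ≤ 2 ^ d *
      ((Finset.range (X.length ^ r)).filter fun V => Ear X y κ (pre X r V) (2 ^ m) x).card) :
    A.card ≤ 2 ^ (m + d) := by
  have hS : 0 < X.length ^ r := pow_pos (List.length_pos_iff.2 hX) r
  have h1 : ∑ x ∈ A, ((Finset.range (X.length ^ r)).filter fun V =>
      Ear X y κ (pre X r V) (2 ^ m) x).card =
      ∑ V ∈ Finset.range (X.length ^ r), (A.filter fun x => Ear X y κ (pre X r V) (2 ^ m) x).card :=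
    Finset.sum_card_bipartiteAbove_eq_sum_card_bipartiteBelow
      (fun x V => Ear X y κ (pre X r V) (2 ^ m) x)
  have h2 : ∑ V ∈ Finset.range (X.length ^ r),
      (A.filter fun x => Ear X y κ (pre X r V) (2 ^ m) x).card ≤ X.length ^ r * 2 ^ m := by
    refine (Finset.sum_le_card_nsmul _ _ (2 ^ m) fun V _ => ?_).trans ?_
    · exact Ear_card X y κ (pre X r V) (2 ^ m) _ fun x hx => (Finset.mem_filter.1 hx).2
    · rw [Finset.card_range, smul_eq_mul]
  have h3 : A.card * X.length ^ r ≤ 2 ^ d * ∑ x ∈ A, ((Finset.range (X.length ^ r)).filter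
      fun V => Ear X y κ (pre X r V) (2 ^ m) x).card := by
    rw [Finset.mul_sum, ← smul_eq_mul, ← Finset.sum_const]
    exact Finset.sum_le_sum hA
  rw [h1] at h3
  have h4 : A.card * X.length ^ r ≤ 2 ^ (m + d) * X.length ^ r := by
    refine h3.trans ((Nat.mul_le_mul_left _ h2).trans (le_of_eq ?_))
    rw [pow_add]
    ring
  exact Nat.le_of_mul_le_mul_right h4 hS

end Pool.Agent.Lib.H96K
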