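import Pool.Agent.Lib.H96K.A4
import Pool.Agent.Lib.H96K.F1

/-! Chunk F3 (M): the bad elements form a computably enumerable set -/

set_option autoImplicit false

namespace Pool.Agent.Lib.H96K

open Pool.Agent.Lib.H52K

/-- The stages of `Ear`. -/
def EarT (X : List ℕ) (y κ p g x t : ℕ) : Prop :=
  ∃ t' < t, x ∈ Gl X y κ p t' ∧ (Gl X y κ p t').length < g

instance (X : List ℕ) (y κ p g x t : ℕ) : Decidable (EarT X y κ p g x t) := by
  unfold EarT
  infer_instance

/-- The number of the sequences of length `r` for which `x` is early, seen at stage `t`. -/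
def cntE (X : List ℕ) (y κ r g x t : ℕ) : ℕ :=
  ((List.range (X.length ^ r)).filter fun V => decide (EarT X y κ (pre X r V) g x t)).length

/-- PROOF. `Gl_prim`, `mem_primrec`, and an existential quantifier over the numbers `< t`
(`exists_mem_primrec` for the list `List.range t`, or the negation of `forall_lt_primrec`). -/
theorem EarT_prim {α : Type*} [Primcodable α] {X : α → List ℕ} {y κ p g x t : α → ℕ}
    (hX : Primrec X) (hy : Primrec y) (hκ : Primrec κ) (hp : Primrec p) (hg : Primrec g)
    (hx : Primrec x) (ht : Primrec t) :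
    PrimrecPred fun a => EarT (X a) (y a) (κ a) (p a) (g a) (x a) (t a) := by
  have hG : Primrec fun q : α × ℕ => Gl (X q.1) (y q.1) (κ q.1) (p q.1) q.2 :=
    Gl_prim (hX.comp Primrec.fst) (hy.comp Primrec.fst) (hκ.comp Primrec.fst)
      (hp.comp Primrec.fst) Primrec.snd
  have h1 : PrimrecPred fun q : α × ℕ => x q.1 ∈ Gl (X q.1) (y q.1) (κ q.1) (p q.1) q.2 :=
    PrimrecRel.comp (R := fun (a : ℕ) (l : List ℕ) => a ∈ l) mem_primrec
      (hx.comp Primrec.fst) hG
  have h2 : PrimrecPred fun q : α × ℕ =>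
      (Gl (X q.1) (y q.1) (κ q.1) (p q.1) q.2).length < g q.1 :=
    Primrec.nat_lt.comp (Primrec.list_length.comp hG) (hg.comp Primrec.fst)
  have h3 : PrimrecPred fun a => ∃ t' ∈ List.range (t a),
      (x a ∈ Gl (X a) (y a) (κ a) (p a) t' ∧ (Gl (X a) (y a) (κ a) (p a) t').length < g a) :=
    exists_mem_primrec (p := fun (a : α) (t' : ℕ) =>
      (x a ∈ Gl (X a) (y a) (κ a) (p a) t' ∧ (Gl (X a) (y a) (κ a) (p a) t').length < g a))
      (Primrec.list_range.comp ht) (h1.and h2).primrecRel
  exact h3.of_eq fun a => by simp [EarT]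

/-- PROOF. `filter_primrec`, `EarT_prim`, `pre_prim`, `pow_primrec`. -/
theorem cntE_prim {α : Type*} [Primcodable α] {X : α → List ℕ} {y κ r g x t : α → ℕ}
    (hX : Primrec X) (hy : Primrec y) (hκ : Primrec κ) (hr : Primrec r) (hg : Primrec g)
    (hx : Primrec x) (ht : Primrec t) :
    Primrec fun a => cntE (X a) (y a) (κ a) (r a) (g a) (x a) (t a) := by
  have h1 : PrimrecPred fun q : α × ℕ =>
      EarT (X q.1) (y q.1) (κ q.1) (pre (X q.1) (r q.1) q.2) (g q.1) (x q.1) (t q.1) :=
    EarT_prim (hX.comp Primrec.fst) (hy.comp Primrec.fst) (hκ.comp Primrec.fst)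
      (pre_prim (hX.comp Primrec.fst) (hr.comp Primrec.fst) Primrec.snd)
      (hg.comp Primrec.fst) (hx.comp Primrec.fst) (ht.comp Primrec.fst)
  have h2 : Primrec fun a => List.range ((X a).length ^ (r a)) :=
    Primrec.list_range.comp (pow_primrec.comp (Primrec.list_length.comp hX) hr)
  exact Primrec.list_length.comp (filter_primrec
    (p := fun (a : α) (V : ℕ) => EarT (X a) (y a) (κ a) (pre (X a) (r a) V) (g a) (x a) (t a))
    h2 h1.primrecRel)

open Classical in
/-- the count as the cardinality of a finite set -/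
theorem f3_card (X : List ℕ) (y κ r g x t : ℕ) : cntE X y κ r g x t =
    ((Finset.range (X.length ^ r)).filter fun V => EarT X y κ (pre X r V) g x t).card := by
  unfold cntE
  have hn : ((List.range (X.length ^ r)).filter
      fun V => decide (EarT X y κ (pre X r V) g x t)).Nodup :=
    List.nodup_range.filter _
  rw [← List.toFinset_card_of_nodup hn]
  congr 1
  ext V
  simp

open Classical in
/-- PROOF. `EarT` implies `Ear`. -/
theorem cntE_le (X : List ℕ) (y κ r g x t : ℕ) : cntE X y κ r g x t ≤
    ((Finset.range (X.length ^ r)).filter fun V => Ear X y κ (pre X r V) g x).card := by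
  rw [f3_card]
  refine Finset.card_le_card fun V hV => ?_
  rw [Finset.mem_filter] at hV ⊢
  obtain ⟨h0, t', _, h2, h3⟩ := hV
  exact ⟨h0, t', h2, h3⟩

open Classical in
/-- PROOF. For each of the finitely many `V < X.length ^ r` with `Ear` choose the stage; let `t` be larger than
all of them. -/
theorem exists_cntE (X : List ℕ) (y κ r g x : ℕ) : ∃ t,
    ((Finset.range (X.length ^ r)).filter fun V => Ear X y κ (pre X r V) g x).card ≤
      cntE X y κ r g x t := by
  set S := (Finset.range (X.length ^ r)).filter fun V => Ear X y κ (pre X r V) g x with hS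
  have hex : ∀ V : ℕ, ∃ t : ℕ, V ∈ S → x ∈ Gl X y κ (pre X r V) t ∧
      (Gl X y κ (pre X r V) t).length < g := by
    intro V
    by_cases hV : V ∈ S
    · obtain ⟨t, ht⟩ := (Finset.mem_filter.1 hV).2
      exact ⟨t, fun _ => ht⟩
    · exact ⟨0, fun h => absurd h hV⟩
  choose f hf using hex
  refine ⟨∑ V ∈ S, f V + 1, ?_⟩
  rw [f3_card]
  refine Finset.card_le_card fun V hV => ?_
  rw [Finset.mem_filter]
  refine ⟨(Finset.mem_filter.1 hV).1, f V, ?_, (hf V hV).1, (hf V hV).2⟩
  have := Finset.single_le_sum (f := f) (fun i _ => Nat.zero_le _) hV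
  omega

end Pool.Agent.Lib.H96K
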