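import Pool.Agent.Lib.H96K.A2
import Pool.Agent.Lib.H96K.F2
import Pool.Agent.Lib.H96K.F3

/-! Chunk F4 (M): bad elements are simple -/

set_option autoImplicit false

namespace Pool.Agent.Lib.H96K

open Pool.Agent.Lib.H52K

/-- the relation -/
def f4_P (κ m j β d y M n k q z x t t' : ℕ) : Prop :=
  Fst n k z (M * 2 ^ q) t ∧ x ∈ Xt n k z t ∧
    (Xt n k z t).length ^ (j * 2 ^ β) ≤ 2 ^ d * cntE (Xt n k z t) y κ (j * 2 ^ β) (2 ^ m) x t'

instance (κ m j β d y M n k q z x t t' : ℕ) : Decidable (f4_P κ m j β d y M n k q z x t t') := by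
  unfold f4_P
  infer_instance

theorem f4_prim {α : Type*} [Primcodable α] {κ m j β d y M n k q z x t t' : α → ℕ}
    (hκ : Primrec κ) (hm : Primrec m) (hj : Primrec j) (hβ : Primrec β) (hd : Primrec d) (hy : Primrec y)
    (hM : Primrec M) (hn : Primrec n) (hk : Primrec k) (hq : Primrec q) (hz : Primrec z) (hx : Primrec x)
    (ht : Primrec t) (ht' : Primrec t') :
    PrimrecPred fun a => f4_P (κ a) (m a) (j a) (β a) (d a) (y a) (M a) (n a) (k a) (q a) (z a) (x a) (t a)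
      (t' a) := by
  have hX : Primrec fun a => Xt (n a) (k a) (z a) (t a) := Xt_prim hn hk hz ht
  have hr : Primrec fun a => j a * 2 ^ β a :=
    Primrec.nat_mul.comp hj (pow_primrec.comp (Primrec.const 2) hβ)
  have hg : Primrec fun a => 2 ^ m a := pow_primrec.comp (Primrec.const 2) hm
  have h1 : PrimrecPred fun a => Fst (n a) (k a) (z a) (M a * 2 ^ q a) (t a) :=
    Fst_prim hn hk hz (Primrec.nat_mul.comp hM (pow_primrec.comp (Primrec.const 2) hq)) ht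
  have h2 : PrimrecPred fun a => x a ∈ Xt (n a) (k a) (z a) (t a) := mem_primrec.comp hx hX
  have h3 : PrimrecPred fun a => (Xt (n a) (k a) (z a) (t a)).length ^ (j a * 2 ^ β a) ≤
      2 ^ d a * cntE (Xt (n a) (k a) (z a) (t a)) (y a) (κ a) (j a * 2 ^ β a) (2 ^ m a) (x a) (t' a) :=
    Primrec.nat_le.comp (pow_primrec.comp (Primrec.list_length.comp hX) hr)
      (Primrec.nat_mul.comp (pow_primrec.comp (Primrec.const 2) hd) (cntE_prim hX hy hκ hr hg hx ht'))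
  exact h1.and (h2.and h3)

theorem f4_u1 {α : Type*} [Primcodable α] {f : α → ℕ} (hf : Primrec f) : Primrec fun a => (f a).unpair.1 :=
  Primrec.fst.comp (Primrec.unpair.comp hf)

theorem f4_u2 {α : Type*} [Primcodable α] {f : α → ℕ} (hf : Primrec f) : Primrec fun a => (f a).unpair.2 :=
  Primrec.snd.comp (Primrec.unpair.comp hf)

/-- the relation for `KS_ce` -/
def f4_R (p : (ℕ × ℕ) × (ℕ × ℕ)) : Bool :=
  decide (f4_P p.1.1.unpair.1 p.1.1.unpair.2.unpair.1 p.1.1.unpair.2.unpair.2.unpair.1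
    p.1.1.unpair.2.unpair.2.unpair.2.unpair.1 p.1.1.unpair.2.unpair.2.unpair.2.unpair.2
    p.1.2.unpair.1 p.1.2.unpair.2.unpair.1.unpair.1 p.1.2.unpair.2.unpair.1.unpair.2.unpair.1
    p.1.2.unpair.2.unpair.1.unpair.2.unpair.2.unpair.1 p.1.2.unpair.2.unpair.1.unpair.2.unpair.2.unpair.2
    p.1.2.unpair.2.unpair.2 p.2.1 p.2.2.unpair.1 p.2.2.unpair.2)

theorem f4_comp : Computable f4_R := by
  have hθ : Primrec fun p : (ℕ × ℕ) × (ℕ × ℕ) => p.1.1 := Primrec.fst.comp Primrec.fst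
  have hw : Primrec fun p : (ℕ × ℕ) × (ℕ × ℕ) => p.1.2 := Primrec.snd.comp Primrec.fst
  have hx : Primrec fun p : (ℕ × ℕ) × (ℕ × ℕ) => p.2.1 := Primrec.fst.comp Primrec.snd
  have hτ : Primrec fun p : (ℕ × ℕ) × (ℕ × ℕ) => p.2.2 := Primrec.snd.comp Primrec.snd
  have h := f4_prim (f4_u1 hθ) (f4_u1 (f4_u2 hθ)) (f4_u1 (f4_u2 (f4_u2 hθ)))
    (f4_u1 (f4_u2 (f4_u2 (f4_u2 hθ)))) (f4_u2 (f4_u2 (f4_u2 (f4_u2 hθ))))
    (f4_u1 hw) (f4_u1 (f4_u1 (f4_u2 hw))) (f4_u1 (f4_u2 (f4_u1 (f4_u2 hw))))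
    (f4_u1 (f4_u2 (f4_u2 (f4_u1 (f4_u2 hw))))) (f4_u2 (f4_u2 (f4_u2 (f4_u1 (f4_u2 hw)))))
    (f4_u2 (f4_u2 hw)) hx (f4_u1 hτ) (f4_u2 hτ)
  exact (h.decide.of_eq fun p => decide_eq_decide.2 Iff.rfl).to_comp

theorem f4_spec (κ m j β d y M n k q z x τ : ℕ) :
    f4_R ((thc κ m j β d, Nat.pair y (Nat.pair (par M n k q) z)), (x, τ)) = true ↔
      f4_P κ m j β d y M n k q z x τ.unpair.1 τ.unpair.2 := by
  unfold f4_R thc par
  simp only [decide_eq_true_eq, Nat.unpair_pair]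

open Classical in
/-- PROOF. `KS_ce` (file K5 of H52K) for the relation `R ((θ, w), (x, τ))`, where `θ = thc κ m j β d`,
`w = (y, (par M n k q, z))`, `τ = (t, t')`:
`Fst n k z (M * 2 ^ q) t`, `x ∈ Xt n k z t` and
`(Xt n k z t).length ^ (j * 2 ^ β) ≤ 2 ^ d * cntE (Xt n k z t) y κ (j * 2 ^ β) (2 ^ m) x t'`.
It is computable (`Fst_prim`, `Xt_prim`, `cntE_prim`, `pow_primrec`). If all elements of a finite set `A` satisfy `R`
(for some `τ`) then `A.card ≤ 2 ^ (m + d)` by `card_bad` and `cntE_le` (the stage `t` is unique, `Fst_unique`; if `A` is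
empty there is nothing to show, otherwise `Xt n k z t ≠ []`). For `x`: `exists_cntE`. -/
theorem bad_KS : ∃ C, ∀ n k z M q t x y κ m j β d, Fst n k z (M * 2 ^ q) t →
    x ∈ Xt n k z t →
    (Xt n k z t).length ^ (j * 2 ^ β) ≤ 2 ^ d *
      ((Finset.range ((Xt n k z t).length ^ (j * 2 ^ β))).filter fun V =>
        Ear (Xt n k z t) y κ (pre (Xt n k z t) (j * 2 ^ β) V) (2 ^ m) x).card →
    KS x (Nat.pair y (Nat.pair (par M n k q) z)) ≤
      m + d + 2 * Nat.size (thc κ m j β d) + C := by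
  obtain ⟨C, hC⟩ := KS_ce f4_R f4_comp
  refine ⟨C, fun n k z M q t x y κ m j β d hF hx hb => ?_⟩
  obtain ⟨t', ht'⟩ := exists_cntE (Xt n k z t) y κ (j * 2 ^ β) (2 ^ m) x
  refine hC (thc κ m j β d) (Nat.pair y (Nat.pair (par M n k q) z)) (m + d) ?_ x (Nat.pair t t') ?_
  · intro S hS
    rcases S.eq_empty_or_nonempty with h0 | ⟨x0, hx0⟩
    · rw [h0, Finset.card_empty]
      exact Nat.zero_le _
    · obtain ⟨τ0, h1⟩ := hS x0 hx0
      rw [f4_spec] at h1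
      obtain ⟨g1, g2, -⟩ := h1
      refine card_bad (Xt n k z τ0.unpair.1) (List.ne_nil_of_mem g2) y κ m (j * 2 ^ β) d S ?_
      intro x' hx'
      obtain ⟨τ, h2⟩ := hS x' hx'
      rw [f4_spec] at h2
      obtain ⟨k1, k2, k3⟩ := h2
      rw [Fst_unique g1 k1]
      exact k3.trans (Nat.mul_le_mul_left _ (cntE_le _ _ _ _ _ _ _))
  · rw [f4_spec, Nat.unpair_pair]
    exact ⟨hF, hx, hb.trans (Nat.mul_le_mul_left _ ht')⟩


end Pool.Agent.Lib.H96K
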