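import Pool.Agent.Lib.H96K.C1
import Pool.Agent.Lib.H96K.C2
import Pool.Agent.Lib.H96K.C3
import Pool.Agent.Lib.H96K.C4
import Pool.Agent.Lib.H96K.F1

/-! Chunk F5 (M): three sets of bad sequences -/

set_option autoImplicit false

namespace Pool.Agent.Lib.H96K

open Pool.Agent.Lib.H52K

open Classical in
/-- PROOF. `pre_mod`, `card_fiber`. -/
theorem card_ear (X : List ℕ) (hX : X ≠ []) (x y κ g r T d : ℕ) (hT : r ≤ T)
    (h : 2 ^ d * ((Finset.range (X.length ^ r)).filter fun V =>
      Ear X y κ (pre X r V) g x).card ≤ X.length ^ r) :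
    2 ^ d * ((Finset.range (X.length ^ T)).filter fun U =>
      Ear X y κ (pre X r U) g x).card ≤ X.length ^ T := by
  have hS : 0 < X.length := List.length_pos_iff.2 hX
  have h1 := card_fiber X.length T r hS hT (fun V => Ear X y κ (pre X r V) g x)
  simp only [pre_mod] at h1
  calc _ ≤ 2 ^ d * (((Finset.range (X.length ^ r)).filter fun V =>
        Ear X y κ (pre X r V) g x).card * X.length ^ (T - r)) := Nat.mul_le_mul_left _ h1
    _ = (2 ^ d * ((Finset.range (X.length ^ r)).filter fun V =>
        Ear X y κ (pre X r V) g x).card) * X.length ^ (T - r) := by ring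
    _ ≤ X.length ^ r * X.length ^ (T - r) := Nat.mul_le_mul_right _ h
    _ = X.length ^ T := by rw [← pow_add, Nat.add_sub_cancel' hT]

open Classical in
/-- the set of the digits which avoid the list -/
noncomputable def f5_A (X : List ℕ) (y κ g r V : ℕ) : Finset ℕ :=
  if ∃ t, g ≤ (Gl X y κ (pre X r V) t).length then
    (Finset.range X.length).filter fun δ => ∀ t, X.getD δ 0 ∉ Gl X y κ (pre X r V) t
  else ∅

theorem f5_card (X : List ℕ) (hn : X.Nodup) (y κ g r V : ℕ) :
    (f5_A X y κ g r V).card ≤ X.length - g := by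
  classical
  unfold f5_A
  split_ifs with h
  · obtain ⟨t, ht⟩ := h
    have hnod : (Gl X y κ (pre X r V) t).Nodup := hn.filter _
    have hsub : ∀ x ∈ Gl X y κ (pre X r V) t, x ∈ X := fun x hx => (List.mem_filter.1 hx).1
    have h1 : ((Finset.range X.length).filter fun δ => ∀ t, X.getD δ 0 ∉ Gl X y κ (pre X r V) t).card
        ≤ (X.toFinset \ (Gl X y κ (pre X r V) t).toFinset).card := by
      apply Finset.card_le_card_of_injOn (fun δ => X.getD δ 0)
      · intro δ hδ
        simp only [Finset.coe_filter, Finset.mem_range, Set.mem_ofPred_eq] at hδ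
        simp only [Finset.coe_sdiff, Set.mem_sdiff, Finset.mem_coe, List.mem_toFinset]
        refine ⟨?_, hδ.2 t⟩
        rw [List.getD_eq_getElem _ _ hδ.1]
        exact List.getElem_mem _
      · intro a ha b hb hab
        simp only [Finset.coe_filter, Finset.mem_range, Set.mem_ofPred_eq] at ha hb
        simp only [List.getD_eq_getElem _ _ ha.1, List.getD_eq_getElem _ _ hb.1] at hab
        exact (List.Nodup.getElem_inj_iff hn).1 hab
    refine h1.trans ?_
    rw [Finset.card_sdiff_of_subset, List.toFinset_card_of_nodup hn,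
      List.toFinset_card_of_nodup hnod]
    · omega
    · intro x hx
      exact List.mem_toFinset.2 (hsub x (List.mem_toFinset.1 hx))
  · simp

open Classical in
/-- PROOF. If `g > X.length` then the set is empty (`Gl` is a filter of `X`). Otherwise let `A V` be the set of the
`δ < X.length` with `X.getD δ 0 ∉ Gl X y κ (pre X r V) t` for all `t`, if some `Gl X y κ (pre X r V) t` has at least `g`
elements, and `∅` otherwise. As `X` is without repetitions, `A V` has at most `X.length - g` elements. By `pre_mod`
the set is contained in the set of `card_block` (with `B`, `h = X.length - g`); `pow_bound`: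
`count * S ^ B * 2 ^ D ≤ (S - g) ^ B * 2 ^ D * S ^ T ≤ S ^ B * S ^ T`. -/
theorem card_avoid (X : List ℕ) (hX : X ≠ []) (hn : X.Nodup) (y κ g r B T D : ℕ)
    (hT : r + B ≤ T) (hD : D * X.length ≤ B * g) :
    2 ^ D * ((Finset.range (X.length ^ T)).filter fun U =>
      (∃ t, g ≤ (Gl X y κ (pre X r U) t).length) ∧
        ∀ i < B, ∀ t, X.getD (dg X.length U (r + i)) 0 ∉ Gl X y κ (pre X r U) t).card ≤
      X.length ^ T := by
  have hS : 0 < X.length := List.length_pos_iff.2 hX
  by_cases hg : g ≤ X.length
  · have h1 := card_block X.length T r B (X.length - g) hS hT (f5_A X y κ g r)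
      (f5_card X hn y κ g r)
    have h2 := pow_bound X.length g B D hS hg hD
    have h3 : ((Finset.range (X.length ^ T)).filter fun U =>
        (∃ t, g ≤ (Gl X y κ (pre X r U) t).length) ∧
        ∀ i < B, ∀ t, X.getD (dg X.length U (r + i)) 0 ∉ Gl X y κ (pre X r U) t).card ≤
        ((Finset.range (X.length ^ T)).filter fun U =>
          ∀ i < B, dg X.length U (r + i) ∈ f5_A X y κ g r (U % X.length ^ r)).card := by
      apply Finset.card_le_card
      intro U hU
      simp only [Finset.mem_filter, Finset.mem_range] at hU ⊢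
      refine ⟨hU.1, fun i hi => ?_⟩
      unfold f5_A
      rw [pre_mod, if_pos hU.2.1]
      simp only [Finset.mem_filter, Finset.mem_range]
      exact ⟨Nat.mod_lt _ hS, hU.2.2 i hi⟩
    have h4 : 0 < X.length ^ B := pow_pos hS B
    apply Nat.le_of_mul_le_mul_right _ h4
    calc _ ≤ 2 ^ D * ((Finset.range (X.length ^ T)).filter fun U =>
          ∀ i < B, dg X.length U (r + i) ∈ f5_A X y κ g r (U % X.length ^ r)).card *
            X.length ^ B := Nat.mul_le_mul_right _ (Nat.mul_le_mul_left _ h3)
      _ = 2 ^ D * (((Finset.range (X.length ^ T)).filter fun U =>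
          ∀ i < B, dg X.length U (r + i) ∈ f5_A X y κ g r (U % X.length ^ r)).card *
            X.length ^ B) := by ring
      _ ≤ 2 ^ D * ((X.length - g) ^ B * X.length ^ T) := Nat.mul_le_mul_left _ h1
      _ = (X.length - g) ^ B * 2 ^ D * X.length ^ T := by ring
      _ ≤ X.length ^ B * X.length ^ T := Nat.mul_le_mul_right _ h2
      _ = X.length ^ T * X.length ^ B := by ring
  · rw [Finset.card_eq_zero.2, Nat.mul_zero]
    · exact Nat.zero_le _
    · rw [Finset.filter_eq_empty_iff]
      rintro U _ ⟨⟨t, ht⟩, -⟩
      have : (Gl X y κ (pre X r U) t).length ≤ X.length := List.length_filter_le _ _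
      omega

open Classical in
/-- PROOF. If `Nat.size P ≤ 3` the set is empty. Otherwise it has at most `2 ^ (Nat.size P - 4)` elements
(`KS_card_le`) and `2 ^ (Nat.size P - 1) ≤ P` (`Nat.lt_size`). -/
theorem card_simple (P w : ℕ) :
    8 * ((Finset.range P).filter fun U => KS U w + 3 < Nat.size P).card ≤ P := by
  by_cases h : Nat.size P ≤ 3
  · rw [Finset.card_eq_zero.2, Nat.mul_zero]
    · exact Nat.zero_le _
    · rw [Finset.filter_eq_empty_iff]
      intro U _ hU
      omega
  · have h1 : ((Finset.range P).filter fun U => KS U w + 3 < Nat.size P).card ≤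
        2 ^ (Nat.size P - 4) := by
      apply KS_card_le (Nat.size P - 4) w
      intro x hx
      have := (Finset.mem_filter.1 hx).2
      omega
    have h2 : 2 ^ (Nat.size P - 1) ≤ P := Nat.lt_size.1 (by omega)
    have h3 : 2 ^ (Nat.size P - 1) = 8 * 2 ^ (Nat.size P - 4) := by
      rw [show Nat.size P - 1 = (Nat.size P - 4) + 3 by omega, pow_add]
      norm_num
      ring
    omega

end Pool.Agent.Lib.H96K
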