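import Pool.Agent.Lib.H96K.F5

/-! Chunk F6 (M): choice of the sequence -/

set_option autoImplicit false

namespace Pool.Agent.Lib.H96K

open Pool.Agent.Lib.H52K

open Classical in
/-- PROOF. Let `P = X.length ^ (N * 2 ^ β) > 0`. The sets of the `U < P` which violate the first condition
(`card_simple`), the second condition for a given `(j, κ)` (`card_ear`; `j * 2 ^ β ≤ N * 2 ^ β`), the third condition for
a given `(j, κ)` (`card_avoid` with `D = d`, `B = 2 ^ β`; `j * 2 ^ β + 2 ^ β ≤ N * 2 ^ β`) have together at most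
`P / 8 + 2 * N * K * P / 2 ^ d ≤ P / 8 + P / 2 < P` elements. -/
theorem choose_U (X : List ℕ) (hX : X ≠ []) (hn : X.Nodup) (x y w N β K g d : ℕ)
    (hNK : 4 * (N * K) ≤ 2 ^ d) (hD : d * X.length ≤ 2 ^ β * g)
    (hbad : ∀ j < N, ∀ κ < K, 2 ^ d *
      ((Finset.range (X.length ^ (j * 2 ^ β))).filter fun V =>
        Ear X y κ (pre X (j * 2 ^ β) V) g x).card ≤ X.length ^ (j * 2 ^ β)) :
    ∃ U < X.length ^ (N * 2 ^ β), Nat.size (X.length ^ (N * 2 ^ β)) ≤ KS U w + 3 ∧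
      (∀ j < N, ∀ κ < K, ¬ Ear X y κ (pre X (j * 2 ^ β) U) g x) ∧
      (∀ j < N, ∀ κ < K, (∃ t, g ≤ (Gl X y κ (pre X (j * 2 ^ β) U) t).length) →
        ∃ i < 2 ^ β, ∃ t, X.getD (dg X.length U (j * 2 ^ β + i)) 0 ∈
          Gl X y κ (pre X (j * 2 ^ β) U) t) := by
  have hS : 0 < X.length := List.length_pos_iff.2 hX
  obtain ⟨P, hP⟩ : ∃ P, P = X.length ^ (N * 2 ^ β) := ⟨_, rfl⟩
  have hP0 : 0 < P := by rw [hP]; exact pow_pos hS _
  rw [← hP]
  by_contra hcon
  push Not at hcon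
  let B1 : Finset ℕ := (Finset.range P).filter fun U => KS U w + 3 < Nat.size P
  let B2 : ℕ × ℕ → Finset ℕ := fun q => (Finset.range P).filter fun U => Ear X y q.2 (pre X (q.1 * 2 ^ β) U) g x
  let B3 : ℕ × ℕ → Finset ℕ := fun q => (Finset.range P).filter fun U =>
      (∃ t, g ≤ (Gl X y q.2 (pre X (q.1 * 2 ^ β) U) t).length) ∧
        ∀ i < 2 ^ β, ∀ t, X.getD (dg X.length U (q.1 * 2 ^ β + i)) 0 ∉ Gl X y q.2 (pre X (q.1 * 2 ^ β) U) t
  have hsub : Finset.range P ⊆ B1 ∪ (Finset.range N ×ˢ Finset.range K).biUnion (fun q => B2 q ∪ B3 q) := by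
    intro U hU
    rw [Finset.mem_union, Finset.mem_biUnion]
    by_cases h1 : KS U w + 3 < Nat.size P
    · exact Or.inl (Finset.mem_filter.2 ⟨hU, h1⟩)
    right
    by_cases h2 : ∀ j < N, ∀ κ < K, ¬ Ear X y κ (pre X (j * 2 ^ β) U) g x
    · obtain ⟨j, hj, κ, hκ, h3, h4⟩ := hcon U (Finset.mem_range.1 hU) (not_lt.1 h1) h2
      exact ⟨(j, κ), Finset.mem_product.2 ⟨Finset.mem_range.2 hj, Finset.mem_range.2 hκ⟩,
        Finset.mem_union_right _ (Finset.mem_filter.2 ⟨hU, h3, h4⟩)⟩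
    · push Not at h2
      obtain ⟨j, hj, κ, hκ, h3⟩ := h2
      exact ⟨(j, κ), Finset.mem_product.2 ⟨Finset.mem_range.2 hj, Finset.mem_range.2 hκ⟩,
        Finset.mem_union_left _ (Finset.mem_filter.2 ⟨hU, h3⟩)⟩
  have hB1 : 8 * B1.card ≤ P := card_simple P w
  have hle : ∀ j < N, j * 2 ^ β + 2 ^ β ≤ N * 2 ^ β := by
    intro j hj
    calc j * 2 ^ β + 2 ^ β = (j + 1) * 2 ^ β := by ring
      _ ≤ N * 2 ^ β := Nat.mul_le_mul_right _ hj
  have hB2 : ∀ q ∈ Finset.range N ×ˢ Finset.range K, 2 ^ d * (B2 q).card ≤ P := by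
    rintro ⟨j, κ⟩ hq
    rw [Finset.mem_product, Finset.mem_range, Finset.mem_range] at hq
    have := card_ear X hX x y κ g (j * 2 ^ β) (N * 2 ^ β) d ((Nat.le_add_right _ _).trans (hle j hq.1)) (hbad j hq.1 κ hq.2)
    rw [← hP] at this
    exact this
  have hB3 : ∀ q ∈ Finset.range N ×ˢ Finset.range K, 2 ^ d * (B3 q).card ≤ P := by
    rintro ⟨j, κ⟩ hq
    rw [Finset.mem_product, Finset.mem_range, Finset.mem_range] at hq
    have := card_avoid X hX hn y κ g (j * 2 ^ β) (2 ^ β) (N * 2 ^ β) d (hle j hq.1) hD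
    rw [← hP] at this
    exact this
  have hcard : P ≤ B1.card + ∑ q ∈ Finset.range N ×ˢ Finset.range K, ((B2 q).card + (B3 q).card) := by
    calc P = (Finset.range P).card := (Finset.card_range P).symm
      _ ≤ _ := Finset.card_le_card hsub
      _ ≤ B1.card + ((Finset.range N ×ˢ Finset.range K).biUnion (fun q => B2 q ∪ B3 q)).card := Finset.card_union_le _ _
      _ ≤ B1.card + ∑ q ∈ Finset.range N ×ˢ Finset.range K, (B2 q ∪ B3 q).card := Nat.add_le_add_left Finset.card_biUnion_le _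
      _ ≤ _ := Nat.add_le_add_left (Finset.sum_le_sum fun q _ => Finset.card_union_le _ _) _
  have hsum : 2 ^ d * ∑ q ∈ Finset.range N ×ˢ Finset.range K, ((B2 q).card + (B3 q).card) ≤ (N * K) * (2 * P) := by
    rw [Finset.mul_sum]
    calc ∑ q ∈ Finset.range N ×ˢ Finset.range K, 2 ^ d * ((B2 q).card + (B3 q).card)
        ≤ ∑ q ∈ Finset.range N ×ˢ Finset.range K, (2 * P) := by
          apply Finset.sum_le_sum
          intro q hq
          have h1 := hB2 q hq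
          have h2 := hB3 q hq
          rw [mul_add]
          omega
      _ = (N * K) * (2 * P) := by
          rw [Finset.sum_const, Finset.card_product, Finset.card_range, Finset.card_range, smul_eq_mul]
  have hd : 0 < 2 ^ d := by positivity
  have h5 : 8 * (2 ^ d * P) ≤ 2 ^ d * (8 * B1.card) + 8 * ((N * K) * (2 * P)) := by
    calc 8 * (2 ^ d * P) ≤ 8 * (2 ^ d * (B1.card + ∑ q ∈ Finset.range N ×ˢ Finset.range K, ((B2 q).card + (B3 q).card))) := by gcongr
      _ = 2 ^ d * (8 * B1.card) + 8 * (2 ^ d * ∑ q ∈ Finset.range N ×ˢ Finset.range K, ((B2 q).card + (B3 q).card)) := by ring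
      _ ≤ _ := by gcongr
  have h6 : 2 ^ d * (8 * B1.card) ≤ 2 ^ d * P := by gcongr
  have h7 : 8 * ((N * K) * (2 * P)) ≤ 4 * (2 ^ d * P) := by
    calc 8 * ((N * K) * (2 * P)) = 4 * ((4 * (N * K)) * P) := by ring
      _ ≤ 4 * (2 ^ d * P) := by gcongr
  have h8 : 0 < 2 ^ d * P := Nat.mul_pos hd hP0
  omega

end Pool.Agent.Lib.H96K
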