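import Pool.Agent.Lib.H96K.D

/-! Chunk H1 (M): an incompressible sequence has no information about `x` -/

set_option autoImplicit false

namespace Pool.Agent.Lib.H96K

open Pool.Agent.Lib.H52K

/-- PROOF. Let `Z = (y, W)`. `KS_pair_ge`: `KS x Z + KS U (x, Z) ≤ KS (x, U) Z + er`; `KS_swap`, `KS_pair_le`:
`KS (x, U) Z ≤ KS U Z + KS x (U, Z) + er`. With the hypothesis: `KS x Z ≤ KS x (U, Z) + κ + er`. `KS_upper`:
`KS x (U, Z) ≤ KS x (p, (U, Z)) + KS p (U, Z) + er`, where `KS p (U, Z) ≤ KS p (U, W) + C ≤ κ + C` and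
`KS x (p, (U, Z)) ≤ KS x (y, p) + C` (`KS_cond`). -/
theorem keep : ∃ C, ∀ N κ x y W U p, KS x 0 ≤ N → KS U 0 ≤ N → KS p 0 ≤ N →
    KS U (Nat.pair y W) ≤ KS U (Nat.pair x (Nat.pair y W)) + κ → KS p (Nat.pair U W) ≤ κ →
    KS x (Nat.pair y W) ≤ KS x (Nat.pair y p) + 2 * κ + er C N := by
  obtain ⟨Cg, hg⟩ := KS_pair_ge
  obtain ⟨Cs, hs⟩ := KS_swap
  obtain ⟨Cl, hl⟩ := KS_pair_le
  obtain ⟨Cu, hu⟩ := KS_upper
  obtain ⟨C1, h1⟩ := KS_cond (fun t => Nat.pair t.unpair.1 t.unpair.2.unpair.2)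
    (T_pair T_fst (T_snd.comp T_snd))
  obtain ⟨C2, h2⟩ := KS_cond (fun t => Nat.pair t.unpair.2.unpair.2.unpair.1 t.unpair.1)
    (T_pair (T_fst.comp (T_snd.comp T_snd)) T_fst)
  refine ⟨Cg + Cl + Cu + (Cs + C1 + C2), fun N κ x y W U p hx hU hp a1 a2 => ?_⟩
  have e1 := er_add Cg Cl N
  have e2 := er_add (Cg + Cl) Cu N
  have e3 := er_add (Cg + Cl + Cu) (Cs + C1 + C2) N
  have e4 := le_er (Cs + C1 + C2) N
  have b1 := hg N x U (Nat.pair y W) hx hU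
  have b2 := hs x U (Nat.pair y W)
  have b3 := hl N U x (Nat.pair y W) hU
  have b4 := hu N x p (Nat.pair U (Nat.pair y W)) hp
  have b5 := h1 p (Nat.pair U (Nat.pair y W))
  have b6 := h2 x (Nat.pair p (Nat.pair U (Nat.pair y W)))
  simp only [Nat.unpair_pair] at b5 b6
  omega

end Pool.Agent.Lib.H96K
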