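import Pool.Agent.Lib.H96K.B5
import Pool.Agent.Lib.H96K.C5
import Pool.Agent.Lib.H96K.F4
import Pool.Agent.Lib.H96K.F6

/-! Chunk P1 (M/L): the sequence -/

set_option autoImplicit false

namespace Pool.Agent.Lib.H96K

open Pool.Agent.Lib.H52K

theorem p1_ear (X : List ℕ) (y κ p x : ℕ) : ¬ Ear X y κ p 1 x := by
  rintro ⟨t, h1, h2⟩
  have h3 := List.length_pos_of_mem h1
  omega

theorem p1_pre (X : List ℕ) (U : ℕ) : pre X 0 U = 0 := rfl

/-- PROOF. Notation: `a = KS x z`, `X = Xt ν a z t`, `S = X.length`, `P = par M ν a q`, `W = (P, z)`. `late2` gives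
`M, q, t`; let `C₁` be its constant, `C₂` the constant of `KS_zero`, `C₃` the constant of `bad_KS`, `A = C₁ + C₂ + C₃`;
`params A` gives `d, β, σ`. `N = ν + 1`, `K = ν + A + 1`; `pre X 0 U = Encodable.encode [] = 0`, so
`KS y (pre X 0 U) = KS y 0 ≤ ν < N`. `m = KS x (y, W) - (d + σ + A + 1)` (truncated subtraction), `g = 2 ^ m`.
Hypothesis `hbad` of `choose_U` for `j < N`, `κ < K`: if it is false then `S ^ r < 2 ^ d * card`; if `m = 0` then `g = 1` and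
`Ear .. 1 x` is impossible (a list with an element has length at least `1`), so `card = 0`, a contradiction; if
`m > 0` then `bad_KS` gives `KS x (y, W) ≤ m + d + 2 * Nat.size (thc ..) + C₃ ≤ m + d + σ + A < KS x (y, W)`, a contradiction
(`m ≤ KS x (y, W) ≤ ν + C₂`). `d * S ≤ 2 ^ β * g`: `S ≤ 2 ^ a` (`Xt_length`), `d ≤ 2 ^ d`, and `d + a ≤ β + m` because
`a ≤ KS x (y, W) + A * s + er A ν ≤ m + (d + σ + A + 1) + A * s + er A ν` and `params`.
`choose_U` with the condition `(x, (y, W))` gives `U`. For `j < N` let `κ = KS y (x, p)`, `p = pre X (j * 2 ^ β) U`;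
`κ ≤ ν + C₂ < K`: `x` is not early, so `Gl X y κ p` has at least `g` elements (`Gl_large`), so some entry `x'` of the
block is in `Gl`: `KS y (x', p) ≤ κ` (`KS_of_mem_Gl`). -/
theorem sample : ∃ C, ∀ ν s x y z, KS x 0 ≤ ν → KS y 0 ≤ ν →
    KS x z + KS y z ≤ KS (Nat.pair x y) z + s →
    (∀ t, y ∈ Xt ν (KS y z) z t → x ∈ Xt ν (KS x z) z t) →
    ∃ M q t N β U, Fst ν (KS x z) z (M * 2 ^ q) t ∧ x ∈ Xt ν (KS x z) z t ∧
      (∀ z', KS (par M ν (KS x z) q) z' ≤ C * s + er C ν) ∧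
      U < (Xt ν (KS x z) z t).length ^ (N * 2 ^ β) ∧
      Nat.size ((Xt ν (KS x z) z t).length ^ (N * 2 ^ β)) ≤
        KS U (Nat.pair x (Nat.pair y (Nat.pair (par M ν (KS x z) q) z))) + 3 ∧
      KS y (pre (Xt ν (KS x z) z t) 0 U) < N ∧ N * 2 ^ β ≤ 2 ^ (C * s + er C ν) ∧
      ∀ j < N, ∃ i < 2 ^ β,
        KS y (Nat.pair ((Xt ν (KS x z) z t).getD
          (dg (Xt ν (KS x z) z t).length U (j * 2 ^ β + i)) 0)
          (pre (Xt ν (KS x z) z t) (j * 2 ^ β) U)) ≤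
        KS y (Nat.pair x (pre (Xt ν (KS x z) z t) (j * 2 ^ β) U)) := by
  classical
  obtain ⟨C₁, h1⟩ := late2
  obtain ⟨C₂, h2⟩ := KS_zero
  obtain ⟨C₃, h3⟩ := bad_KS
  obtain ⟨A, hA⟩ : ∃ A, A = C₁ + C₂ + C₃ := ⟨_, rfl⟩
  obtain ⟨C₄, h4⟩ := params A
  refine ⟨C₁ + C₄, fun ν s x y z hx hy hI hord => ?_⟩
  obtain ⟨M, q, t, e1, e2, e3, e4⟩ := h1 ν s x y z hx hy hI hord
  obtain ⟨d, β, σ, f1, f2, f3, f4⟩ := h4 ν s
  refine ⟨M, q, t, ν + 1, β, ?_⟩
  obtain ⟨a, ha⟩ : ∃ a, a = KS x z := ⟨_, rfl⟩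
  rw [← ha] at e1 e2 e3 e4 ⊢
  obtain ⟨X, hX⟩ : ∃ X, X = Xt ν a z t := ⟨_, rfl⟩
  have hn : X.Nodup := by
    rw [hX]
    exact Xt_nodup ν a z t
  have hS : X.length ≤ 2 ^ a := by
    rw [hX]
    exact Xt_length ν a z t
  have hX0 : X ≠ [] := by
    rw [hX]
    exact List.ne_nil_of_mem e2
  obtain ⟨W, hW⟩ : ∃ W, W = Nat.pair (par M ν a q) z := ⟨_, rfl⟩
  rw [← hW] at e4
  obtain ⟨m, hm⟩ : ∃ m, m = KS x (Nat.pair y W) - (d + σ + A + 1) := ⟨_, rfl⟩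
  have hxW := h2 x (Nat.pair y W)
  have hAs : C₁ * s ≤ A * s := Nat.mul_le_mul_right s (by omega)
  have hAe : er C₁ ν ≤ er A ν := er_mono_left ν (by omega)
  have hD : d * X.length ≤ 2 ^ β * 2 ^ m := by
    calc d * X.length ≤ 2 ^ d * 2 ^ a := Nat.mul_le_mul Nat.lt_two_pow_self.le hS
      _ = 2 ^ (d + a) := (pow_add 2 d a).symm
      _ ≤ 2 ^ (β + m) := Nat.pow_le_pow_right (by norm_num) (by omega)
      _ = 2 ^ β * 2 ^ m := pow_add 2 β m
  obtain ⟨U, g1, g2, g3, g4⟩ := choose_U X hX0 hn x y (Nat.pair x (Nat.pair y W)) (ν + 1) β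
    (ν + A + 1) (2 ^ m) d f1 hD (fun j hj κ hκ => by
      by_contra hcon
      have hcon2 := not_le.1 hcon
      rcases Nat.eq_zero_or_pos m with hm0 | hm0
      · rw [Finset.filter_eq_empty_iff.2 (fun V _ => by
          rw [hm0]
          exact p1_ear X y κ _ x)] at hcon2
        rw [Finset.card_empty, mul_zero] at hcon2
        exact absurd hcon2 (Nat.not_lt_zero _)
      · subst hX
        have k1 := h3 ν a z M q t x y κ m j β d e1 e2 hcon2.le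
        have k2 := f2 κ m j (by omega) (by omega) (by omega)
        rw [← hW] at k1
        omega)
  rw [hX] at g1 g2 g3 g4
  have hC1 : C₁ * s ≤ (C₁ + C₄) * s := Nat.mul_le_mul_right s (by omega)
  have hC2 : er C₁ ν ≤ er (C₁ + C₄) ν := er_mono_left ν (by omega)
  have hC3 : C₄ * s ≤ (C₁ + C₄) * s := Nat.mul_le_mul_right s (by omega)
  have hC4 : er C₄ ν ≤ er (C₁ + C₄) ν := er_mono_left ν (by omega)
  refine ⟨U, e1, e2, fun z' => ?_, g1, ?_, ?_, ?_, fun j hj => ?_⟩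
  · have := e3 z'
    omega
  · rw [← hW]
    exact g2
  · rw [p1_pre]
    omega
  · refine f4.trans (Nat.pow_le_pow_right (by norm_num) ?_)
    omega
  · obtain ⟨p, hp⟩ : ∃ p, p = pre (Xt ν a z t) (j * 2 ^ β) U := ⟨_, rfl⟩
    have g3j := g3 j hj (KS y (Nat.pair x p))
    have g4j := g4 j hj (KS y (Nat.pair x p))
    rw [← hp] at g3j g4j ⊢
    have hκ : KS y (Nat.pair x p) < ν + A + 1 := by
      have := h2 y (Nat.pair x p)
      omega
    obtain ⟨i, hi, t', ht'⟩ := g4j hκ (Gl_large e2 le_rfl (g3j hκ))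
    exact ⟨i, hi, (KS_of_mem_Gl ht').2⟩

end Pool.Agent.Lib.H96K
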