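import Pool.Agent.Lib.H96K.P1
import Pool.Agent.Lib.H96K.A1
import Pool.Agent.Lib.H96K.H1
import Pool.Agent.Lib.H96K.E2
import Pool.Agent.Lib.H96K.E3

/-! Chunk P2 (M/L): the condition `v` -/

set_option autoImplicit false

namespace Pool.Agent.Lib.H96K

open Pool.Agent.Lib.H52K

theorem p2_size_add (a b : ℕ) : Nat.size (a + b) ≤ Nat.size a + Nat.size b + 1 := by
  rw [Nat.size_le]
  have h1 : a < 2 ^ (Nat.size a + Nat.size b) :=
    (Nat.lt_size_self a).trans_le (Nat.pow_le_pow_right (by norm_num) (Nat.le_add_right _ _))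
  have h2 : b < 2 ^ (Nat.size a + Nat.size b) :=
    (Nat.lt_size_self b).trans_le (Nat.pow_le_pow_right (by norm_num) (Nat.le_add_left _ _))
  rw [pow_succ]
  omega

theorem p2_size_pair (a b : ℕ) :
    Nat.size (Nat.pair a b) ≤ 2 * (Nat.size a + Nat.size b) + 1 := by
  have h1 : Nat.pair a b < 2 ^ (2 * (Nat.size a + Nat.size b)) := by
    have h2 : max a b + 1 ≤ 2 ^ (Nat.size a + Nat.size b) := by
      rcases max_cases a b with ⟨h, -⟩ | ⟨h, -⟩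
      · rw [h]
        exact (Nat.lt_size_self a).trans_le
          (Nat.pow_le_pow_right (by norm_num) (Nat.le_add_right _ _))
      · rw [h]
        exact (Nat.lt_size_self b).trans_le
          (Nat.pow_le_pow_right (by norm_num) (Nat.le_add_left _ _))
    calc Nat.pair a b < (max a b + 1) ^ 2 := Nat.pair_lt_max_add_one_sq a b
      _ ≤ (2 ^ (Nat.size a + Nat.size b)) ^ 2 := Nat.pow_le_pow_left h2 2
      _ = 2 ^ (2 * (Nat.size a + Nat.size b)) := by rw [← pow_mul, mul_comm]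
  exact (Nat.size_le.2 h1).trans (Nat.le_succ _)

theorem p2_er (C E : ℕ) : er C (2 ^ E) = C * (E + 2) := by
  unfold er
  rw [Nat.size_pow]

theorem p2_size_le (n : ℕ) : Nat.size n ≤ n := Nat.size_le.2 Nat.lt_two_pow_self

/-- PROOF. Take the data of `sample`, `X = Xt ν (KS x z) z t`, `P = par M ν (KS x z) q`, `p j = pre X (j * 2 ^ β) U`,
`T = N * 2 ^ β ≤ 2 ^ (C * s + er C ν)`, `N₂ = 2 ^ er C (ν' + T)` the bound of `bounds` for all complexities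
(`ν' = ν + C ≥ ν, KS x z`), so that `er C N₂ ≤ C' * s + er C' ν`. Let `δ` be a bound of this form for
`Nat.size (Nat.pair r i) + er C N₂` (`r, i ≤ T`).
Potential: for `j < N` either `KS y (p j) ≤ KS y (x, p j) + δ + 1`, or by `KS_step` (with `R = (j + 1) * 2 ^ β`,
`r = j * 2 ^ β`, index `j * 2 ^ β + i`) and `sample`:
`KS y (p (j + 1)) ≤ KS y (x', p j) + δ ≤ KS y (x, p j) + δ < KS y (p j)`. `potential` gives `j < N` with the first
alternative. Let `v = p j`.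
`KS U (y, (P, z)) ≤ Nat.size U + C ≤ KS U (x, (y, (P, z))) + 3 + C` (`KS_num`, `Nat.size_le_size`), and the same for
`KS U (x, (P, z)) ≤ KS U (y, (x, (P, z))) + 3 + 2 C` (`KS_cond`); `KS_pre`: `KS v (U, (P, z)) ≤ 2 * Nat.size r + C`. So
`keep` gives `KS x (y, (P, z)) ≤ KS x (y, v) + ..` and `KS y (x, (P, z)) ≤ KS y (x, v) + ..`, and
`cond_par` gives the last two statements. -/
theorem basic_v : ∃ C, ∀ ν s x y z, KS x 0 ≤ ν → KS y 0 ≤ ν →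
    KS x z + KS y z ≤ KS (Nat.pair x y) z + s →
    (∀ t, y ∈ Xt ν (KS y z) z t → x ∈ Xt ν (KS x z) z t) →
    ∃ v, KS v 0 ≤ 2 ^ (C * s + er C ν) ∧ KS y v ≤ KS y (Nat.pair x v) + C * s + er C ν ∧
      KS x (Nat.pair y z) ≤ KS x (Nat.pair y v) + C * s + er C ν ∧
      KS y (Nat.pair x z) ≤ KS y (Nat.pair x v) + C * s + er C ν := by
  obtain ⟨C₁, h1⟩ := sample
  obtain ⟨C₂, h2⟩ := KS_zero
  obtain ⟨C₃, h3⟩ := bounds
  obtain ⟨C₄, h4⟩ := KS_step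
  obtain ⟨C₅, h5⟩ := KS_pre
  obtain ⟨C₆, h6⟩ := keep
  obtain ⟨C₇, h7⟩ := cond_par
  obtain ⟨C₈, h8⟩ := KS_num
  obtain ⟨C₉, h9⟩ := KS_cond
    (fun z => Nat.pair z.unpair.2.unpair.1 (Nat.pair z.unpair.1 z.unpair.2.unpair.2))
    (T_pair (T_fst.comp T_snd) (T_pair T_fst (T_snd.comp T_snd)))
  obtain ⟨K₁, hK₁⟩ : ∃ K, K = C₃ * (C₁ + Nat.size C₂ + 5) := ⟨_, rfl⟩
  obtain ⟨K₂, hK₂⟩ : ∃ K, K = C₄ * (K₁ + 3) := ⟨_, rfl⟩
  obtain ⟨K₃, hK₃⟩ : ∃ K, K = C₆ * (K₁ + 3) := ⟨_, rfl⟩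
  obtain ⟨K₄, hK₄⟩ : ∃ K, K = C₇ * (C₁ + 1) := ⟨_, rfl⟩
  obtain ⟨K, hK⟩ : ∃ K, K = 10 * (C₁ + K₁ + K₂ + K₃ + K₄ + C₅ + C₈ + C₉ + 1) := ⟨_, rfl⟩
  refine ⟨K, fun ν s x y z hx hy hI hord => ?_⟩
  obtain ⟨w, hw⟩ : ∃ w, w = s + (Nat.size ν + 1) := ⟨_, rfl⟩
  have hcs : ∀ C, C * s + er C ν = C * w := fun C => by
    rw [hw]
    unfold er
    ring
  have hcw : ∀ C, C ≤ C * w := fun C => Nat.le_mul_of_pos_right C (by omega)
  obtain ⟨M, q, t, N, β, U, e1, e2, e3, e4, e5, e6, e7, e8⟩ := h1 ν s x y z hx hy hI hord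
  obtain ⟨a, ha⟩ : ∃ a, a = KS x z := ⟨_, rfl⟩
  rw [← ha] at e1 e2 e3 e4 e5 e6 e8
  obtain ⟨T, hT⟩ : ∃ T, T = N * 2 ^ β := ⟨_, rfl⟩
  rw [← hT] at e4 e5 e7
  rw [hcs] at e7
  simp only [hcs] at e3
  obtain ⟨P, hP⟩ : ∃ P, P = par M ν a q := ⟨_, rfl⟩
  rw [← hP] at e3 e5
  obtain ⟨X, hX⟩ : ∃ X, X = Xt ν a z t := ⟨_, rfl⟩
  have hX0 : X ≠ [] := by
    rw [hX]
    exact List.ne_nil_of_mem e2
  have haν : a ≤ ν + C₂ := by
    have := h2 x z
    omega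
  -- sizes
  have hsz : ∀ r, r ≤ T → Nat.size r ≤ C₁ * w + 1 := fun r hr => by
    rw [Nat.size_le, pow_succ]
    have := Nat.one_le_two_pow (n := C₁ * w)
    omega
  obtain ⟨B, hB⟩ : ∃ B, B = er C₃ (ν + C₂ + T) := ⟨_, rfl⟩
  have hBw : B ≤ K₁ * w := by
    have g1 := p2_size_add (ν + C₂) T
    have g2 := p2_size_add ν C₂
    have g3 := hsz T le_rfl
    have g4 := hcw (Nat.size C₂)
    have g5 : (C₁ + Nat.size C₂ + 5) * w = C₁ * w + Nat.size C₂ * w + 5 * w := by ring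
    rw [hB, hK₁, mul_assoc]
    exact Nat.mul_le_mul_left C₃ (by omega)
  obtain ⟨N₃, hN₃⟩ : ∃ N, N = 2 ^ (K₁ * w + Nat.size ν + 1) := ⟨_, rfl⟩
  have hBN : 2 ^ B ≤ N₃ := by
    rw [hN₃]
    exact Nat.pow_le_pow_right (by norm_num) (by omega)
  have hνN : ν ≤ N₃ := by
    rw [hN₃]
    exact (Nat.lt_size_self ν).le.trans (Nat.pow_le_pow_right (by norm_num) (by omega))
  have herN : ∀ C, er C N₃ ≤ C * (K₁ + 3) * w := fun C => by
    have g5 : (K₁ + 3) * w = K₁ * w + 3 * w := by ring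
    rw [hN₃, p2_er, mul_assoc]
    exact Nat.mul_le_mul_left C (by omega)
  -- bounds
  have hbd : ∀ r ≤ T, KS U 0 ≤ N₃ ∧ KS (pre X r U) 0 ≤ 2 ^ B ∧
      ∀ x' ∈ X, KS (Nat.pair x' (pre X r U)) 0 ≤ N₃ := fun r hr => by
    have g1 := h3 (ν + C₂) ν a z t r U T (by omega) haν hr
      (by rw [← hX]; exact hX0) e4
    rw [← hX, ← hB] at g1
    exact ⟨g1.1.trans hBN, g1.2.1, fun x' hx' => (g1.2.2 x' hx').trans hBN⟩
  -- the potential
  obtain ⟨δ, hδ⟩ : ∃ δ, δ = 4 * (C₁ * w) + 5 + K₂ * w := ⟨_, rfl⟩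
  have key : ∀ j < N, KS y (pre X (j * 2 ^ β) U) ≤
      KS y (Nat.pair x (pre X (j * 2 ^ β) U)) + δ ∨
      KS y (pre X ((j + 1) * 2 ^ β) U) + 1 ≤ KS y (pre X (j * 2 ^ β) U) := by
    intro j hj
    by_cases hG : KS y (pre X (j * 2 ^ β) U) ≤ KS y (Nat.pair x (pre X (j * 2 ^ β) U)) + δ
    · exact Or.inl hG
    · right
      obtain ⟨i, hi, g1⟩ := e8 j hj
      rw [← hX] at g1
      have hr : j * 2 ^ β ≤ T := by
        rw [hT]
        exact Nat.mul_le_mul_right _ hj.le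
      have hR' : (j + 1) * 2 ^ β = j * 2 ^ β + 2 ^ β := by ring
      have hRT : (j + 1) * 2 ^ β ≤ T := by
        rw [hT]
        exact Nat.mul_le_mul_right _ hj
      have k1 := h4 N₃ X (j * 2 ^ β) ((j + 1) * 2 ^ β) (j * 2 ^ β + i) U y (by omega) (by omega)
        ((hbd _ hr).2.2 _ (getD_mem hX0 U _))
      have k2 := p2_size_pair (j * 2 ^ β) (j * 2 ^ β + i)
      have k3 := hsz _ hr
      have k4 := hsz (j * 2 ^ β + i) (by omega)
      have k5 := herN C₄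
      rw [← hK₂] at k5
      omega
  obtain ⟨j, hj, hG⟩ := potential (fun j => KS y (pre X (j * 2 ^ β) U))
    (fun j => KS y (pre X (j * 2 ^ β) U) ≤ KS y (Nat.pair x (pre X (j * 2 ^ β) U)) + δ) N key
    (by
      show KS y (pre X (0 * 2 ^ β) U) < N
      rw [zero_mul, hX]
      exact e6)
  have hr : j * 2 ^ β ≤ T := by
    rw [hT]
    exact Nat.mul_le_mul_right _ hj.le
  obtain ⟨b1, b2, -⟩ := hbd _ hr
  have k5 := h5 ν a z M q t (j * 2 ^ β) U e1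
  rw [← hP, ← hX] at k5
  obtain ⟨v, hv⟩ : ∃ v, v = pre X (j * 2 ^ β) U := ⟨_, rfl⟩
  rw [← hv] at b2 k5 hG
  have k6 := hsz _ hr
  have k7 := h8 U (Nat.pair y (Nat.pair P z))
  have k8 := h8 U (Nat.pair x (Nat.pair P z))
  have k9 : Nat.size U ≤ Nat.size ((Xt ν a z t).length ^ T) := Nat.size_le_size e4.le
  have k10 := h9 U (Nat.pair x (Nat.pair y (Nat.pair P z)))
  simp only [Nat.unpair_pair] at k10
  obtain ⟨κ, hκ⟩ : ∃ κ, κ = 3 + C₈ + C₉ + 2 * (C₁ * w + 1) + C₅ := ⟨_, rfl⟩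
  have k11 := h6 N₃ κ x y (Nat.pair P z) U v (hx.trans hνN) b1 (b2.trans hBN) (by omega)
    (by omega)
  have k12 := h6 N₃ κ y x (Nat.pair P z) U v (hy.trans hνN) b1 (b2.trans hBN) (by omega)
    (by omega)
  have k13 := herN C₆
  rw [← hK₃] at k13
  have k14 := h7 (C₁ * w) x y z P (e3 0)
  have k15 := h7 (C₁ * w) y x z P (e3 0)
  have k16 : er C₇ (C₁ * w) ≤ K₄ * w := by
    have g1 := p2_size_le (C₁ * w)
    have g5 : (C₁ + 1) * w = C₁ * w + w := by ring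
    rw [hK₄, mul_assoc]
    exact Nat.mul_le_mul_left C₇ (by omega)
  have k17 := e3 z
  have k18 : K * w = 10 * (C₁ * w + K₁ * w + K₂ * w + K₃ * w + K₄ * w + C₅ * w + C₈ * w +
      C₉ * w + w) := by
    rw [hK]
    ring
  have c5 := hcw C₅
  have c8 := hcw C₈
  have c9 := hcw C₉
  have hKs := hcs K
  refine ⟨v, b2.trans (Nat.pow_le_pow_right (by norm_num) (by omega)), ?_, ?_, ?_⟩
  · have hG' : KS y v ≤ KS y (Nat.pair x v) + δ := hG
    omega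
  · omega
  · omega

end Pool.Agent.Lib.H96K
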