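import Pool.Agent.Lib.H96K.D

/-! Chunk Q1 (M): adding bits of `x` and `y` to the condition -/

set_option autoImplicit false

namespace Pool.Agent.Lib.H96K

open Pool.Agent.Lib.H52K

/-- One step: bits of `X` are added to the condition until the complexity of `X` is at most `a`. -/
theorem q1_step : ∃ C, ∀ N X v a, KS X 0 ≤ N → KS v 0 ≤ N → ∃ v₁, KS v₁ 0 ≤ 2 ^ er C N ∧
    KS X v₁ ≤ a + er C N ∧ (∀ U, KS U v ≤ KS U v₁ + (KS X v - a) + er C N) ∧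
    ∀ U, KS U v₁ ≤ KS U v + C := by
  obtain ⟨Ch, hh⟩ := hash_step
  obtain ⟨Cq, hq⟩ := KS_pair_bound
  obtain ⟨Cc, hc⟩ := KS_cond (fun t => Nat.pair 0 t) (T_pair (Computable.const 0) Computable.id)
  obtain ⟨C0, h0⟩ : ∃ C0, C0 = KS 0 0 := ⟨_, rfl⟩
  obtain ⟨Ch1, hh1⟩ := T_er Ch (1 + C0 + 1)
  obtain ⟨Cq1, hq1⟩ := T_er Cq (Ch1 + 1 + 1)
  refine ⟨Ch1 + (Cc + Ch) + Cq1, fun N X v a hX hv => ?_⟩
  have hN : N + C0 ≤ 2 ^ er (1 + C0 + 1) N := add_le_pow (le_pow_er N) (const_le_pow C0 N)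
  have e0 := hh1 N _ hN
  have e1 := er_add Ch1 (Cc + Ch) N
  have e2 := er_add (Ch1 + (Cc + Ch)) Cq1 N
  have e3 := le_er (Cc + Ch) N
  have c1 := hc X v
  obtain ⟨k, hk⟩ : ∃ k, k = min (KS X v - a) (KS X (Nat.pair 0 v)) := ⟨_, rfl⟩
  obtain ⟨w, -, w2, w3, w4, -, w6⟩ := hh (N + C0) X v (fun _ => 0) k (by omega) (by omega)
    (fun _ => by omega) (by omega) (fun _ => by omega)
  refine ⟨Nat.pair w v, ?_, by omega, fun U => ?_, fun U => ?_⟩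
  · have h2 : 2 ^ er Ch (N + C0) ≤ 2 ^ er Ch1 N := Nat.pow_le_pow_right (by norm_num) e0
    have h3 := hq (2 ^ er Ch1 N + N) w v (w2.trans (h2.trans (Nat.le_add_right _ _)))
      (hv.trans (Nat.le_add_left _ _))
    refine h3.trans (Nat.pow_le_pow_right (by norm_num) ?_)
    have h4 := hq1 N (2 ^ er Ch1 N + N) (add_le_pow le_rfl (le_pow_er N))
    omega
  · have h5 := w4 U
    omega
  · have h6 := w6 U
    omega

/-- PROOF. Write `a = KS x z`, `b = KS y z`, `α = KS x v`. Step 1: `hash_step` (file F0 of H52K) with `X = x`, condition `v`,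
`Y = fun _ => 0`, `k = min (α - a) (KS x (0, v))` (truncated subtraction; `KS x (0, v) ≥ KS x v - C` by `KS_cond`): `w₁`,
`v₁ = (w₁, v)`. So `KS x v₁ ≤ α - k + er ≤ a + er`, `KS U v ≤ KS U v₁ + k + er` for all `U`, `KS U v₁ ≤ KS U v + C`,
`KS w₁ 0 ≤ 2 ^ er C N`. Step 2: the same with `X = y`, condition `v₁`, `k' = min (KS y v₁ - b) ..`: `w₂`,
`v₂ = (w₂, v₁)`. Then `KS x v₂ ≤ a + er`, `KS y v₂ ≤ b + er` and
`KS (x,y) v₂ ≥ KS (x,y) v - k - k' - er ≥ KS x v + KS y (x,v) - (α - a) - (KS y v - b) - er` (`KS_pair_ge`), where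
`KS y (x,v) ≥ KS y v - ε`: so this is at least `min α a + min (KS y v) b - ε - er`. Now
`α ≥ KS x (y,v) - C ≥ KS x (y,z) - ε - C ≥ a - 2 ε - C` and `KS y v ≥ KS y (x,v) - C ≥ b - 2 ε - C` (`KS_drop`), so it is at
least `a + b - 5 ε - er ≥ KS (x,y) z - 5 ε - er` (`KS_pair_le`, `KS_drop`). -/
theorem ineq_of_v : ∃ C, ∀ N ε x y z v, KS x 0 ≤ N → KS y 0 ≤ N → KS v 0 ≤ N →
    KS y v ≤ KS y (Nat.pair x v) + ε → KS x (Nat.pair y z) ≤ KS x (Nat.pair y v) + ε →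
    KS y (Nat.pair x z) ≤ KS y (Nat.pair x v) + ε → KS x z ≤ KS x (Nat.pair y z) + ε →
    KS y z ≤ KS y (Nat.pair x z) + ε →
    ∃ v', KS v' 0 ≤ 2 ^ er C N ∧ KS x v' ≤ KS x z + C * ε + er C N ∧
      KS y v' ≤ KS y z + C * ε + er C N ∧
      KS (Nat.pair x y) z ≤ KS (Nat.pair x y) v' + C * ε + er C N := by
  obtain ⟨Ch, hh⟩ := q1_step
  obtain ⟨Cd, hd⟩ := KS_drop
  obtain ⟨Cg, hg⟩ := KS_pair_ge
  obtain ⟨Cl, hl⟩ := KS_pair_le
  obtain ⟨Ch2, hh2⟩ := T_er Ch (1 + (Ch + 1))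
  refine ⟨5 + (Ch + Ch2 + Cg + Cl + (4 * Cd + 2 * Ch)), fun N ε x y z v hx hy hv a1 a2 a3 a4 a5 => ?_⟩
  have hN : N + 2 ^ er Ch N ≤ 2 ^ er (1 + (Ch + 1)) N := by
    have := add_le_pow (le_pow_er N) (le_refl (2 ^ er Ch N))
    exact this.trans (pow_er_mono N (by omega))
  have e0 := hh2 N _ hN
  have e1 := er_add Ch Ch2 N
  have e2 := er_add (Ch + Ch2) Cg N
  have e3 := er_add (Ch + Ch2 + Cg) Cl N
  have e4 := er_add (Ch + Ch2 + Cg + Cl) (4 * Cd + 2 * Ch) N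
  have e5 := er_add 5 (Ch + Ch2 + Cg + Cl + (4 * Cd + 2 * Ch)) N
  have e6 := le_er (4 * Cd + 2 * Ch) N
  have e7 : 5 * ε ≤ (5 + (Ch + Ch2 + Cg + Cl + (4 * Cd + 2 * Ch))) * ε := by gcongr; omega
  obtain ⟨v₁, p1, p2, p3, p4⟩ := hh N x v (KS x z) hx hv
  obtain ⟨v₂, q1, q2, q3, q4⟩ := hh (N + 2 ^ er Ch N) y v₁ (KS y z) (by omega) (by omega)
  have c1 := p3 (Nat.pair x y)
  have c2 := q3 (Nat.pair x y)
  have c3 := hg N x y v hx hy
  have c4 := hl N x y z hx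
  have c5 := (hd y x z).1
  have c6 := (hd x y v).1
  have c7 := (hd y x v).1
  have c8 := q4 x
  have c9 := p4 y
  refine ⟨v₂, ?_, by omega, by omega, by omega⟩
  refine q1.trans (Nat.pow_le_pow_right (by norm_num) ?_)
  omega

end Pool.Agent.Lib.H96K
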