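import Pool.Agent.Lib.H96K.P2
import Pool.Agent.Lib.H96K.Q1
import Pool.Agent.Lib.H52K.F3
import Pool.Agent.Lib.H52K.S4b
import Pool.Agent.Lib.H96K.A2
import Pool.Agent.Lib.H96K.B1

/-! Chunk Q2 (M): the theorem for small conditional mutual information -/

set_option autoImplicit false

namespace Pool.Agent.Lib.H96K

open Pool.Agent.Lib.H52K

/-- The conclusion with error `e`. -/
def Exact (x y z v e : ℕ) : Prop :=
  KS v (Nat.pair x y) ≤ e ∧ KS x v ≤ KS x z + e ∧ KS x z ≤ KS x v + e ∧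
    KS y v ≤ KS y z + e ∧ KS y z ≤ KS y v + e ∧
    KS (Nat.pair x y) v ≤ KS (Nat.pair x y) z + e ∧
    KS (Nat.pair x y) z ≤ KS (Nat.pair x y) v + e

/-- Errors of the form `C s + O(log ν)`. -/
def q2_D (C s ν : ℕ) : ℕ := C * s + er C ν

theorem q2_add (C C' s ν : ℕ) : q2_D (C + C') s ν = q2_D C s ν + q2_D C' s ν := by
  unfold q2_D; rw [← er_add]; ring

theorem q2_mul (K C s ν : ℕ) : K * q2_D C s ν = q2_D (K * C) s ν := by
  unfold q2_D; rw [← er_mul]; ring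

theorem q2_mono {C C' : ℕ} (s ν : ℕ) (h : C ≤ C') : q2_D C s ν ≤ q2_D C' s ν := by
  unfold q2_D; exact Nat.add_le_add (Nat.mul_le_mul_right _ h) (er_mono_left ν h)

theorem q2_er (C s ν : ℕ) : er C ν ≤ q2_D C s ν := Nat.le_add_left _ _

theorem q2_c (C s ν : ℕ) : C ≤ q2_D C s ν := (le_er C ν).trans (q2_er C s ν)

theorem q2_erpow (K C s ν : ℕ) : er K (2 ^ q2_D C s ν) ≤ q2_D (K * (C + 2)) s ν := by
  have h1 : er K (2 ^ q2_D C s ν) = K * q2_D C s ν + 2 * K := by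
    unfold er
    rw [Nat.size_pow]
    ring
  rw [h1, q2_mul]
  have h2 : q2_D (K * (C + 2)) s ν = q2_D (K * C) s ν + q2_D (2 * K) s ν := by
    rw [← q2_add]
    congr 1
    ring
  have h3 := q2_c (2 * K) s ν
  omega

theorem q2_pow_mono {C C' : ℕ} (s ν : ℕ) (h : C ≤ C') : 2 ^ q2_D C s ν ≤ 2 ^ q2_D C' s ν :=
  Nat.pow_le_pow_right (by norm_num) (q2_mono s ν h)

theorem q2_pow_er (C s ν : ℕ) : 2 ^ er C ν ≤ 2 ^ q2_D C s ν :=
  Nat.pow_le_pow_right (by norm_num) (q2_er C s ν)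

theorem q2_le_pow (C s ν : ℕ) : q2_D C s ν ≤ 2 ^ q2_D C s ν := Nat.lt_two_pow_self.le

theorem q2_add_le {a b C C' s ν : ℕ} (ha : a ≤ 2 ^ q2_D C s ν) (hb : b ≤ 2 ^ q2_D C' s ν) :
    a + b ≤ 2 ^ q2_D (C + C' + 1) s ν := by
  rw [q2_add, q2_add, pow_add, pow_add]
  have h1 : 1 ≤ 2 ^ q2_D C s ν := Nat.one_le_two_pow
  have h2 : 1 ≤ 2 ^ q2_D C' s ν := Nat.one_le_two_pow
  have h3 : 2 ≤ 2 ^ q2_D 1 s ν := by
    have := q2_c 1 s ν
    calc 2 = 2 ^ 1 := by norm_num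
      _ ≤ 2 ^ q2_D 1 s ν := Nat.pow_le_pow_right (by norm_num) this
  have h4 : 2 ^ q2_D C s ν + 2 ^ q2_D C' s ν ≤ 2 ^ q2_D C s ν * 2 ^ q2_D C' s ν * 2 := by nlinarith
  calc a + b ≤ 2 ^ q2_D C s ν + 2 ^ q2_D C' s ν := Nat.add_le_add ha hb
    _ ≤ 2 ^ q2_D C s ν * 2 ^ q2_D C' s ν * 2 := h4
    _ ≤ 2 ^ q2_D C s ν * 2 ^ q2_D C' s ν * 2 ^ q2_D 1 s ν := Nat.mul_le_mul_left _ h3

theorem q2_nu (s ν : ℕ) : ν ≤ 2 ^ q2_D 1 s ν := (le_pow_er ν).trans (q2_pow_er 1 s ν)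

/-- PROOF. `ineq_of_v` for the `v` of `basic_v` with `N = 2 ^ (C * s + er C ν)` (this `N` is at least `ν`, and
`er C' N ≤ C'' * s + er C'' ν`), `ε` of the same form; the last two hypotheses of `ineq_of_v` are `cmi`. Then `step3` (file F3 of
H52K) for the condition `v'` gives `v''` with `KS v'' (x,y) ≤ er C N'` and `KS x v'' ≤ KS x v' + er`,
`KS y v'' ≤ KS y v' + er`, `KS (x,y) v' ≤ KS (x,y) v'' + er`. Finally `KS v'' 0 ≤ KS v'' (x,y) + KS (x,y) 0 + er` is small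
(`KS_upper`, `KS_pair_bound`): `exact_of_ineq` (file S4b of H52K). -/
theorem basic_x : ∃ C, ∀ ν s x y z, KS x 0 ≤ ν → KS y 0 ≤ ν →
    KS x z + KS y z ≤ KS (Nat.pair x y) z + s →
    (∀ t, y ∈ Xt ν (KS y z) z t → x ∈ Xt ν (KS x z) z t) →
    ∃ v, Exact x y z v (C * s + er C ν) := by
  obtain ⟨C1, h1⟩ := basic_v
  obtain ⟨Cc, hc⟩ := cmi
  obtain ⟨C2, h2⟩ := ineq_of_v
  obtain ⟨C3, h3⟩ := step3
  obtain ⟨Cu, hu⟩ := KS_upper
  obtain ⟨Cq, hq⟩ := KS_pair_bound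
  obtain ⟨Cd, hd⟩ := KS_drop
  obtain ⟨Cu', hu'⟩ := T_er Cu Cq
  obtain ⟨C4, h4⟩ := exact_of_ineq
  obtain ⟨E, hE⟩ : ∃ E, E = C1 + Cc + 1 := ⟨_, rfl⟩
  obtain ⟨K2, hK2⟩ : ∃ K2, K2 = C2 * (C1 + 1 + 2) := ⟨_, rfl⟩
  obtain ⟨K3, hK3⟩ : ∃ K3, K3 = C3 * (K2 + 1 + 1 + 2) := ⟨_, rfl⟩
  obtain ⟨K5, hK5⟩ : ∃ K5, K5 = (K3 + Cd + Cu') + Cq + 1 := ⟨_, rfl⟩
  obtain ⟨E4, hE4⟩ : ∃ E4, E4 = C2 * E + K2 + K3 := ⟨_, rfl⟩
  refine ⟨C4 * E4 + C4 * (K5 + 1 + 1 + 2), fun ν s x y z hx hy hs hst => ?_⟩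
  obtain ⟨v, v1, v2, v3, v4⟩ := h1 ν s x y z hx hy hs hst
  obtain ⟨c1, c2⟩ := hc ν s x y z hx hy hs
  -- the numbers
  have hdE : C1 * s + er C1 ν + (s + er Cc ν) ≤ q2_D E s ν := by
    rw [hE, q2_add, q2_add]
    unfold q2_D
    omega
  have hN1 : ν ≤ 2 ^ q2_D (C1 + 1) s ν := (q2_nu s ν).trans (q2_pow_mono s ν (by omega))
  have hN2 : KS v 0 ≤ 2 ^ q2_D (C1 + 1) s ν := v1.trans (q2_pow_mono s ν (by omega))
  have hE1 : er C2 (2 ^ q2_D (C1 + 1) s ν) ≤ q2_D K2 s ν := by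
    rw [hK2]
    exact q2_erpow C2 (C1 + 1) s ν
  obtain ⟨v', w1, w2, w3, w4⟩ := h2 (2 ^ q2_D (C1 + 1) s ν) (q2_D E s ν) x y z v (hx.trans hN1)
    (hy.trans hN1) hN2 (by omega) (by omega) (by omega) (by omega) (by omega)
  have hN3 : ν + KS v' 0 ≤ 2 ^ q2_D (K2 + 1 + 1) s ν := by
    have := q2_add_le (q2_nu s ν) (w1.trans (Nat.pow_le_pow_right (by norm_num) hE1))
    exact this.trans (q2_pow_mono s ν (by omega))
  have hE2 : er C3 (2 ^ q2_D (K2 + 1 + 1) s ν) ≤ q2_D K3 s ν := by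
    rw [hK3]
    exact q2_erpow C3 (K2 + 1 + 1) s ν
  obtain ⟨v'', r1, r2, r3, r4, r5, r6, r7⟩ := h3 (2 ^ q2_D (K2 + 1 + 1) s ν) x y v' (by omega) (by omega)
    (by omega)
  have b1 := hq ν x y hx hy
  have b2 := hu (2 ^ er Cq ν) v'' (Nat.pair x y) 0 b1
  have b3 := hu' ν (2 ^ er Cq ν) le_rfl
  have b4 := (hd v'' (Nat.pair x y) 0).2
  have b5 : KS v'' 0 ≤ 2 ^ q2_D K5 s ν := by
    have b6 : KS v'' 0 ≤ q2_D (K3 + Cd + Cu') s ν + 2 ^ er Cq ν := by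
      rw [q2_add, q2_add]
      have := q2_c Cd s ν
      have := q2_er Cu' s ν
      omega
    rw [hK5]
    exact b6.trans (q2_add_le (q2_le_pow _ s ν) (q2_pow_er Cq s ν))
  have hN5 : ν + KS v'' 0 ≤ 2 ^ q2_D (K5 + 1 + 1) s ν := by
    have := q2_add_le (q2_nu s ν) b5
    exact this.trans (q2_pow_mono s ν (by omega))
  have hE5 : er C4 (2 ^ q2_D (K5 + 1 + 1) s ν) ≤ q2_D (C4 * (K5 + 1 + 1 + 2)) s ν :=
    q2_erpow C4 (K5 + 1 + 1) s ν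
  have hEE : q2_D E4 s ν = C2 * q2_D E s ν + q2_D K2 s ν + q2_D K3 s ν := by
    rw [hE4, q2_add, q2_add, q2_mul]
  obtain ⟨w, t1, t2, t3, t4, t5, t6, t7⟩ := h4 (2 ^ q2_D (K5 + 1 + 1) s ν) (q2_D E4 s ν) x y z v''
    (by omega) (by omega) (by omega) (by omega) (by omega) (by omega) (by omega)
  have hF : (C4 * E4 + C4 * (K5 + 1 + 1 + 2)) * s + er (C4 * E4 + C4 * (K5 + 1 + 1 + 2)) ν =
      C4 * q2_D E4 s ν + q2_D (C4 * (K5 + 1 + 1 + 2)) s ν := by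
    rw [q2_mul, ← q2_add]
    rfl
  rw [hF]
  exact ⟨w, by omega, by omega, by omega, by omega, by omega, by omega, by omega⟩

/-- PROOF. `order` (file A2): in the second case apply `basic_x` to `y, x` and exchange `x` and `y` with `KS_swap`
(in the hypothesis and in the conclusion) and `KS_cond` (for the condition `(x, y)`). -/
theorem basic : ∃ C, ∀ ν s x y z, KS x 0 ≤ ν → KS y 0 ≤ ν →
    KS x z + KS y z ≤ KS (Nat.pair x y) z + s → ∃ v, Exact x y z v (C * s + er C ν) := by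
  obtain ⟨C1, h1⟩ := basic_x
  obtain ⟨Cs, hs⟩ := KS_swap
  obtain ⟨Cc, hc⟩ := KS_cond (fun t => Nat.pair t.unpair.2 t.unpair.1) (T_pair T_snd T_fst)
  refine ⟨C1 + (C1 * Cs + 2 * Cs + Cc), fun ν s x y z hx hy hxy => ?_⟩
  have e1 : (C1 + (C1 * Cs + 2 * Cs + Cc)) * s + er (C1 + (C1 * Cs + 2 * Cs + Cc)) ν =
      (C1 * s + er C1 ν) + ((C1 * Cs + 2 * Cs + Cc) * s + er (C1 * Cs + 2 * Cs + Cc) ν) := by
    rw [← er_add]
    ring
  have e2 := le_er (C1 * Cs + 2 * Cs + Cc) ν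
  have e3 : C1 * (s + Cs) = C1 * s + C1 * Cs := by ring
  rw [e1]
  rcases order ν (KS x z) (KS y z) z x y with hor | hor
  · obtain ⟨v, t1, t2, t3, t4, t5, t6, t7⟩ := h1 ν s x y z hx hy hxy hor
    exact ⟨v, by omega, by omega, by omega, by omega, by omega, by omega, by omega⟩
  · have c1 := hs x y z
    have c2 := hs y x z
    obtain ⟨v, t1, t2, t3, t4, t5, t6, t7⟩ := h1 ν (s + Cs) y x z hy hx (by omega) hor
    have c3 := hs x y v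
    have c4 := hs y x v
    have c5 := hc v (Nat.pair x y)
    simp only [Nat.unpair_pair] at c5
    rw [e3] at t1 t2 t3 t4 t5 t6 t7
    exact ⟨v, by omega, by omega, by omega, by omega, by omega, by omega, by omega⟩

end Pool.Agent.Lib.H96K
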