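import Pool.Agent.Lib.H96K.Q2
import Pool.Agent.Lib.H52K.F1

/-! Chunk Q3 (M/L): removing a common information from the condition -/

set_option autoImplicit false

namespace Pool.Agent.Lib.H96K

open Pool.Agent.Lib.H52K

theorem q3_size (s : ℕ) : Nat.size s ≤ s := Nat.size_le.2 Nat.lt_two_pow_self

/-- Changing the condition. -/
theorem q3_a : ∃ C, ∀ N x y q v, KS q 0 ≤ N →
    KS x (Nat.pair y v) ≤ KS x (Nat.pair y q) + KS q v + er C N := by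
  obtain ⟨Cu, hu⟩ := KS_upper
  obtain ⟨Cd, hd⟩ := KS_drop
  obtain ⟨Cc, hc⟩ := KS_cond (fun t => Nat.pair t.unpair.2.unpair.1 t.unpair.1)
    (T_pair (T_fst.comp T_snd) T_fst)
  refine ⟨Cu + (Cd + Cc), fun N x y q v hq => ?_⟩
  have e1 := er_add Cu (Cd + Cc) N
  have e2 := le_er (Cd + Cc) N
  have b1 := hu N x q (Nat.pair y v) hq
  have b2 := (hd q y v).1
  have b3 := hc x (Nat.pair q (Nat.pair y v))
  simp only [Nat.unpair_pair] at b3
  omega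

theorem q3_b : ∃ C, ∀ N e s x y z w v, KS x 0 ≤ N → KS y 0 ≤ N →
    KS (Nat.pair x y) (Nat.pair w z) ≤ KS (Nat.pair x y) v + e →
    KS y v ≤ KS y (Nat.pair w z) + e → KS w (Nat.pair y z) ≤ s →
    KS x (Nat.pair y z) ≤ KS x (Nat.pair y v) + 2 * e + C * s + er C N := by
  obtain ⟨Cg, hg⟩ := KS_pair_ge
  obtain ⟨Cl, hl⟩ := KS_pair_le
  obtain ⟨Cs, hs⟩ := KS_swap
  obtain ⟨Co, ho⟩ := KS_comp
  obtain ⟨Cc, hc⟩ := KS_cond (fun t => Nat.pair t.unpair.2.unpair.1 (Nat.pair t.unpair.1 t.unpair.2.unpair.2))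
    (T_pair (T_fst.comp T_snd) (T_pair T_fst (T_snd.comp T_snd)))
  refine ⟨(1 + Co) + (Cg + Cl + (2 * Cs + Cc + Co)), fun N e s x y z w v hx hy a1 a2 a3 => ?_⟩
  have e1 := er_add (1 + Co) (Cg + Cl + (2 * Cs + Cc + Co)) N
  have e2 := er_add (Cg + Cl) (2 * Cs + Cc + Co) N
  have e3 := er_add Cg Cl N
  have e4 := le_er (2 * Cs + Cc + Co) N
  have e5 : (1 + Co) * s ≤ ((1 + Co) + (Cg + Cl + (2 * Cs + Cc + Co))) * s :=
    Nat.mul_le_mul_right _ (Nat.le_add_right _ _)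
  have e6 : (1 + Co) * s = s + Co * s := by ring
  have e7 : er Co s ≤ Co * s + Co := by
    unfold er
    have := Nat.mul_le_mul_left Co (q3_size s)
    rw [Nat.mul_add, Nat.mul_one]
    omega
  have b1 := hg N y x (Nat.pair w z) hy hx
  have b2 := hs y x (Nat.pair w z)
  have b3 := hs x y v
  have b4 := hl N y x v hy
  have b5 := ho s x w (Nat.pair y z) a3
  have b6 := hc x (Nat.pair w (Nat.pair y z))
  simp only [Nat.unpair_pair] at b6
  omega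

/-- The lower bounds for the conditional complexities along the path. -/
theorem q3_low : ∃ C, ∀ N e s δ x y z w v q, KS x 0 ≤ N → KS y 0 ≤ N → KS q 0 ≤ N → KS q v ≤ δ →
    Exact x y (Nat.pair w z) v e → KS w (Nat.pair x z) ≤ s → KS w (Nat.pair y z) ≤ s →
    KS x (Nat.pair y z) ≤ KS x (Nat.pair y q) + 2 * e + C * s + δ + er C N ∧
    KS y (Nat.pair x z) ≤ KS y (Nat.pair x q) + 2 * e + C * s + δ + er C N := by
  obtain ⟨Ca, ha⟩ := q3_a
  obtain ⟨Cb, hb⟩ := q3_b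
  obtain ⟨Cs, hs⟩ := KS_swap
  refine ⟨Ca + Cb + 4 * Cs, fun N e s δ x y z w v q hx hy hq hqv hex hw1 hw2 => ?_⟩
  obtain ⟨x1, x2, x3, x4, x5, x6, x7⟩ := hex
  clear x1 x3 x5 x6
  have e1 := er_add Ca Cb N
  have e2 := er_add (Ca + Cb) (4 * Cs) N
  have e3 := le_er (4 * Cs) N
  have e4 : (Ca + Cb + 4 * Cs) * s = Ca * s + Cb * s + 4 * Cs * s := by ring
  have d1 := ha N x y q v hq
  have d2 := ha N y x q v hq
  have d3 := hb N e s x y z w v hx hy x7 x4 hw2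
  have t1 := hs y x (Nat.pair w z)
  have t2 := hs x y v
  have d4 := hb N (e + 2 * Cs) s y x z w v hy hx (by omega) (by omega) hw1
  clear x7 x4 x2 t1 t2 hw1 hw2 hx hy hq
  constructor <;> omega

/-- The lower bound for the complexity of the pair. -/
theorem q3_pair : ∃ C, ∀ N c δ x y z q, KS x 0 ≤ N → KS y 0 ≤ N → KS q 0 ≤ N →
    KS x (Nat.pair y z) ≤ KS x (Nat.pair y q) + δ → KS y (Nat.pair x z) ≤ KS y (Nat.pair x q) + δ →
    (KS x z ≤ KS x q + c ∨ KS y z ≤ KS y q + c) →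
    KS (Nat.pair x y) z ≤ KS (Nat.pair x y) q + δ + c + er C N := by
  obtain ⟨Cg, hg⟩ := KS_pair_ge
  obtain ⟨Cl, hl⟩ := KS_pair_le
  obtain ⟨Cs, hs⟩ := KS_swap
  refine ⟨Cg + Cl + 2 * Cs, fun N c δ x y z q hx hy hq a1 a2 a3 => ?_⟩
  have e1 := er_add Cg Cl N
  have e2 := er_add (Cg + Cl) (2 * Cs) N
  have e3 := le_er (2 * Cs) N
  have t3 := hs x y z
  have t4 := hs y x q
  rcases a3 with g | g
  · have f1 := hg N x y q hx hy
    have f3 := hl N x y z hx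
    omega
  · have f2 := hg N y x q hy hx
    have f4 := hl N y x z hy
    omega

/-- A prefix of the condition `v` (`N` is a bound of the complexities in the path). -/
theorem q3_pre : ∃ C, ∀ N₁ N e s x y z w v, KS x 0 ≤ N₁ → KS y 0 ≤ N₁ → KS v 0 ≤ N₁ →
    N₁ + 2 ^ er C N₁ ≤ N →
    KS w (Nat.pair x z) ≤ s → KS w (Nat.pair y z) ≤ s → Exact x y (Nat.pair w z) v e →
    ∃ q, KS q 0 ≤ N ∧ KS q (Nat.pair x y) ≤ e + er C N ∧ KS x q ≤ KS x z + e + er C N ∧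
      KS y q ≤ KS y z + e + er C N ∧
      KS (Nat.pair x y) z ≤ KS (Nat.pair x y) q + 2 * e + C * s + er C N := by
  classical
  obtain ⟨Cp, hp⟩ := F1_path
  obtain ⟨C0, h0⟩ := KS_zero
  obtain ⟨Ca, ha⟩ := q3_low
  obtain ⟨Cb, hb⟩ := q3_pair
  obtain ⟨Ct, ht⟩ := KS_trans
  obtain ⟨Cd, hd⟩ := KS_drop
  refine ⟨2 * Cp + Ca + Cb + Ct + (C0 + Cd + 1), fun N₁ N e s x y z w v hx hy hv hN hw1 hw2 hex => ?_⟩
  have e1 := er_mul Cp 2 N
  have e2 := er_add (2 * Cp) Ca N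
  have e3 := er_add (2 * Cp + Ca) Cb N
  have e4 := er_add (2 * Cp + Ca + Cb) Ct N
  have e5 := er_add (2 * Cp + Ca + Cb + Ct) (C0 + Cd + 1) N
  have e6 := le_er (C0 + Cd + 1) N
  have e7 : (2 * Cp + Ca + Cb + Ct + (C0 + Cd + 1)) * s = Ca * s + (2 * Cp + Cb + Ct + (C0 + Cd + 1)) * s := by
    ring
  have hN1 : N₁ ≤ N := (Nat.le_add_right _ _).trans hN
  have hpe : er Cp N₁ ≤ er Cp N := er_mono_right Cp hN1
  have hN2 : 2 ^ er Cp N₁ ≤ N := by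
    have := pow_er_mono N₁ (show Cp ≤ 2 * Cp + Ca + Cb + Ct + (C0 + Cd + 1) by omega)
    exact this.trans ((Nat.le_add_left _ _).trans hN)
  clear hN
  obtain ⟨p, p0, p1, p2⟩ := hp N₁ v hv
  set Q : ℕ → Prop := fun r => KS x z ≤ KS x (p r) + C0 ∨ KS y z ≤ KS y (p r) + C0 with hQ
  have hQ0 : Q 0 := Or.inl (by rw [p0]; exact h0 x z)
  obtain ⟨r, hr⟩ : ∃ r, r = Nat.findGreatest Q (KS v 0) := ⟨_, rfl⟩
  have hrs : r ≤ KS v 0 := hr ▸ Nat.findGreatest_le _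
  have hQr : Q r := hr ▸ Nat.findGreatest_spec (Nat.zero_le _) hQ0
  have hnQ : r < KS v 0 → ¬ Q (r + 1) := fun h =>
    Nat.findGreatest_is_greatest (P := Q) (n := KS v 0) (by omega) (by omega)
  obtain ⟨-, q1', q2, q3, -⟩ := p1 r hrs
  have hq0 : KS (p r) 0 ≤ N := q1'.trans hN2
  obtain ⟨d1, d2⟩ := ha N e s (er Cp N) x y z w v (p r) (hx.trans hN1) (hy.trans hN1) hq0 (q2.trans hpe) hex hw1 hw2
  have main := hb N C0 (2 * e + Ca * s + er Cp N + er Ca N) x y z (p r) (hx.trans hN1) (hy.trans hN1) hq0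
    (by omega) (by omega) hQr
  obtain ⟨x1, x2, -, x4, -, -, -⟩ := hex
  have c1 := ht N (p r) v (Nat.pair x y) (hv.trans hN1)
  have c2 := (hd x w z).1
  have c3 := (hd y w z).1
  clear d1 d2 p0 hQ0 hr ha hb h0 hp
  have ub : KS x (p r) ≤ KS x z + e + (er Cp N + Cd + 1) ∧ KS y (p r) ≤ KS y z + e + (er Cp N + Cd + 1) := by
    clear main e1 e2 e3 e4 e5 e6 e7
    rcases hrs.lt_or_eq with hlt | heq
    · have g3 := hnQ hlt
      have g4 := p2 r hlt x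
      have g5 := p2 r hlt y
      simp only [hQ, not_or, not_le] at g3
      obtain ⟨g6, g7⟩ := g3
      constructor <;> omega
    · have g6 := q3 x
      have g7 := q3 y
      constructor <;> omega
  obtain ⟨ub1, ub2⟩ := ub
  refine ⟨p r, hq0, ?_, ?_, ?_, ?_⟩
  · clear main ub1 ub2 x2 x4 c2 c3 e7
    omega
  · clear main ub2 x1 x2 x4 c1 c2 c3 e7
    omega
  · clear main ub1 x1 x2 x4 c1 c2 c3 e7
    omega
  · clear ub1 ub2 x1 x2 x4 c1 c2 c3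
    omega

/-- PROOF. Let `e' = e + er` (the error of `v`), `h = KS v 0 ≤ KS v (x,y) + KS (x,y) 0 + er` (so it is at most
`e + 2 ^ er C ν`). `KS_path` for `v`: `p 0 = 0`, `KS (p r) v ≤ er`, `KS (p r) (p (r+1)) ≤ er`,
`KS (p (r+1)) (p r) ≤ 1 + er`, `KS v (p h) ≤ er`. For all `r ≤ h`:
(i) `KS (p r) (x,y) ≤ KS (p r) v + KS v (x,y) + er` (`KS_trans`);
(ii) `KS x (y, p r) ≥ KS x (y, v) - er` (as `KS (p r) v ≤ er`), `KS x (y, v) ≥ KS (x,y) v - KS y v - er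
≥ KS (x,y) (w,z) - KS y (w,z) - 2 e - er ≥ KS x (y, (w,z)) - 2 e - er` and
`KS x (y, z) ≤ KS x (w, (y, z)) + KS w (y, z) + er C s` (`KS_comp`), so `KS x (y, p r) ≥ KS x (y, z) - 2 e - C s - er`; in the
same way `KS y (x, p r) ≥ KS y (x, z) - 2 e - C s - er`.
Let `r` be the largest number `≤ h` with `KS x z ≤ KS x (p r) + C` or `KS y z ≤ KS y (p r) + C` (`r = 0` is such a number:
`KS_zero`). Then `KS x (p r) ≤ KS x z + e + er` and `KS y (p r) ≤ KS y z + e + er`: if `r = h` because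
`KS x (p h) ≤ KS x v + er ≤ KS x (w,z) + e + er ≤ KS x z + e + er` (`KS_drop`), if `r < h` because `KS x (p (r+1)) < KS x z`,
`KS y (p (r+1)) < KS y z` and one step changes the complexities by at most `1 + er` (`KS_trans`).
If `KS x z ≤ KS x (p r) + C`: `KS (x,y) (p r) ≥ KS x (p r) + KS y (x, p r) - er ≥ KS x z + KS y (x, z) - .. ≥ KS (x,y) z - ..`
(`KS_pair_ge`, `KS_pair_le`). The other case is the same with `x`, `y` exchanged. `exact_of_ineq` (file S4b of H52K). -/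
theorem remove_w : ∃ C, ∀ ν s e x y z w v, KS x 0 ≤ ν → KS y 0 ≤ ν →
    KS w (Nat.pair x z) ≤ s → KS w (Nat.pair y z) ≤ s → Exact x y (Nat.pair w z) v e →
    ∃ v', Exact x y z v' (C * e + C * s + er C ν) := by
  obtain ⟨Cp, hp⟩ := q3_pre
  obtain ⟨Cd, hd⟩ := KS_drop
  obtain ⟨Cu, hu⟩ := KS_upper
  obtain ⟨Cq, hq⟩ := KS_pair_bound
  obtain ⟨Cu', hu'⟩ := T_er Cu Cq
  obtain ⟨C4, h4⟩ := exact_of_ineq
  obtain ⟨K1, hK1⟩ : ∃ K1, K1 = (1 + Cd + Cu') + Cq + 1 := ⟨_, rfl⟩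
  obtain ⟨P, hP⟩ : ∃ P, P = Cp * (K1 + 1 + 1 + 2) := ⟨_, rfl⟩
  obtain ⟨T, hT⟩ : ∃ T, T = (K1 + 1 + 1) + P + 1 := ⟨_, rfl⟩
  obtain ⟨K, hK⟩ : ∃ K, K = C4 * Cp + C4 := ⟨_, rfl⟩
  refine ⟨2 * C4 + C4 * Cp + K * (T + 2), fun ν s e x y z w v hx hy hw1 hw2 hex => ?_⟩
  -- sizes
  have s5 : KS v 0 ≤ 2 ^ q2_D K1 e ν := by
    have s1 := hq ν x y hx hy
    have s2 := hu (2 ^ er Cq ν) v (Nat.pair x y) 0 s1
    have s3 := hu' ν (2 ^ er Cq ν) le_rfl
    have s4 := (hd v (Nat.pair x y) 0).2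
    have x1 := hex.1
    have s6 : KS v 0 ≤ q2_D (1 + Cd + Cu') e ν + 2 ^ er Cq ν := by
      rw [q2_add, q2_add]
      have := q2_c Cd e ν
      have := q2_er Cu' e ν
      have : e ≤ q2_D 1 e ν := by
        unfold q2_D
        omega
      omega
    rw [hK1]
    exact s6.trans (q2_add_le (q2_le_pow _ e ν) (q2_pow_er Cq e ν))
  obtain ⟨N1, hN1d⟩ : ∃ N1, N1 = 2 ^ q2_D (K1 + 1 + 1) e ν := ⟨_, rfl⟩
  obtain ⟨N2, hN2d⟩ : ∃ N2, N2 = 2 ^ q2_D T e ν := ⟨_, rfl⟩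
  have hN1 : ν + KS v 0 ≤ N1 := by
    rw [hN1d]
    have := q2_add_le (q2_nu e ν) s5
    exact this.trans (q2_pow_mono e ν (by omega))
  have hN2 : N1 + 2 ^ er Cp N1 ≤ N2 := by
    have hP1 : er Cp N1 ≤ q2_D P e ν := by
      rw [hP, hN1d]
      exact q2_erpow Cp (K1 + 1 + 1) e ν
    rw [hT] at hN2d
    rw [hN2d]
    exact q2_add_le hN1d.le (Nat.pow_le_pow_right (by norm_num) hP1)
  obtain ⟨q, q1, q2, q3, q4, q5⟩ := hp N1 N2 e s x y z w v (by omega) (by omega) (by omega) hN2 hw1 hw2 hex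
  have hν1 : ν ≤ N1 := (Nat.le_add_right _ _).trans hN1
  have hν2 : ν ≤ N2 := hν1.trans ((Nat.le_add_right _ _).trans hN2)
  obtain ⟨w', r1, r2, r3, r4, r5, r6, r7⟩ := h4 N2 (2 * e + Cp * s + er Cp N2) x y z q (hx.trans hν2) (hy.trans hν2)
    q1 (by omega) (by omega) (by omega) (by omega)
  have hfin : C4 * (2 * e + Cp * s + er Cp N2) + er C4 N2 ≤
      (2 * C4 + C4 * Cp + K * (T + 2)) * e + (2 * C4 + C4 * Cp + K * (T + 2)) * s +
        er (2 * C4 + C4 * Cp + K * (T + 2)) ν := by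
    have g1 : C4 * (2 * e + Cp * s + er Cp N2) + er C4 N2 = 2 * C4 * e + C4 * Cp * s + er K N2 := by
      rw [hK, ← er_add, ← er_mul]
      ring
    have g2 : er K N2 ≤ q2_D (K * (T + 2)) e ν := by
      rw [hN2d]
      exact q2_erpow _ T e ν
    rw [g1]
    unfold q2_D at g2
    rw [← er_add (2 * C4 + C4 * Cp)]
    have g3 : (2 * C4 + C4 * Cp + K * (T + 2)) * e = 2 * C4 * e + C4 * Cp * e + K * (T + 2) * e := by ring
    have g4 : (2 * C4 + C4 * Cp + K * (T + 2)) * s = 2 * C4 * s + C4 * Cp * s + K * (T + 2) * s := by ring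
    rw [g3, g4]
    omega
  clear hex q2 q3 q4 q5 hN1 hN2 s5
  obtain ⟨F, hF⟩ : ∃ F, F = C4 * (2 * e + Cp * s + er Cp N2) := ⟨_, rfl⟩
  rw [← hF] at r1 r2 r3 r4 r5 r6 r7 hfin
  clear hF hN1d hN2d hT hP hK1
  exact ⟨w', by omega, by omega, by omega, by omega, by omega, by omega, by omega⟩

end Pool.Agent.Lib.H96K
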