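import Pool.Agent.Lib.H96K.Q3

/-! Chunk Q4 (M): final theorem -/

set_option autoImplicit false

namespace Pool.Agent.Lib.H96K

open Pool.Agent.Lib.H52K

theorem q4_mono {x y z v e e' : ℕ} (h : Exact x y z v e) (he : e ≤ e') :
    Exact x y z v e' := by
  obtain ⟨a1, a2, a3, a4, a5, a6, a7⟩ := h
  exact ⟨a1.trans he, a2.trans (Nat.add_le_add_left he _), a3.trans (Nat.add_le_add_left he _),
    a4.trans (Nat.add_le_add_left he _), a5.trans (Nat.add_le_add_left he _),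
    a6.trans (Nat.add_le_add_left he _), a7.trans (Nat.add_le_add_left he _)⟩

/-- PROOF. First alternative: `KS_cswap` (twice) gives the hypothesis of `basic` for the condition `(w, z)` with
`s + C`; second alternative: `mutual_general` (file M2 of H52K) for the condition `(w, z)`. Then `remove_w`. -/
theorem common_exact : ∃ C, ∀ ν s x y z w, KS x 0 ≤ ν → KS y 0 ≤ ν →
    KS w (Nat.pair x z) ≤ s → KS w (Nat.pair y z) ≤ s →
    (KS x (Nat.pair z w) + KS y (Nat.pair z w) ≤ KS (Nat.pair x y) (Nat.pair z w) + s ∨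
      KS x 0 + KS y 0 + KS (Nat.pair x y) (Nat.pair z w) ≤
        KS x (Nat.pair z w) + KS y (Nat.pair z w) + KS (Nat.pair x y) 0 + s) →
    ∃ v, Exact x y z v (C * s + er C ν) := by
  obtain ⟨C₁, h1⟩ := basic
  obtain ⟨C₂, h2⟩ := mutual_general
  obtain ⟨C₃, h3⟩ := remove_w
  obtain ⟨C₄, h4⟩ := KS_cswap
  obtain ⟨D, hD⟩ : ∃ D, D = (C₁ + C₂) * (1 + 3 * C₄) := ⟨_, rfl⟩
  obtain ⟨K, hK⟩ : ∃ K, K = C₃ * D + C₃ := ⟨_, rfl⟩
  refine ⟨K, fun ν s x y z w hx hy hw1 hw2 hI => ?_⟩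
  obtain ⟨u, hu⟩ : ∃ u, u = s + (Nat.size ν + 1) := ⟨_, rfl⟩
  have hcs : ∀ C, C * s + er C ν = C * u := fun C => by
    rw [hu]
    unfold er
    ring
  have hcw : ∀ C, C ≤ C * u := fun C => Nat.le_mul_of_pos_right C (by omega)
  have a1 := h4 x w z
  have a2 := h4 y w z
  have a3 := h4 (Nat.pair x y) z w
  have b1 := h4 x z w
  have b2 := h4 y z w
  have b3 := h4 (Nat.pair x y) w z
  -- the error of the first step
  obtain ⟨e, he⟩ : ∃ e, e = (C₁ + C₂) * (s + 3 * C₄) + er (C₁ + C₂) ν := ⟨_, rfl⟩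
  have heD : e ≤ D * u := by
    have g1 : e = (C₁ + C₂) * (u + 3 * C₄) := by
      rw [he, hu]
      unfold er
      ring
    have g2 := hcw (3 * C₄)
    have g3 : (1 + 3 * C₄) * u = u + 3 * C₄ * u := by ring
    rw [g1, hD, mul_assoc]
    exact Nat.mul_le_mul_left _ (by omega)
  have key : ∃ v, Exact x y (Nat.pair w z) v e := by
    rcases hI with hI | hI
    · obtain ⟨v, hv⟩ := h1 ν (s + 3 * C₄) x y (Nat.pair w z) hx hy (by omega)
      refine ⟨v, q4_mono hv ?_⟩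
      rw [he]
      exact Nat.add_le_add (Nat.mul_le_mul_right _ (by omega)) (er_mono_left ν (by omega))
    · obtain ⟨v, c1, c2, c3, c4, c5, c6, c7⟩ := h2 ν (s + 3 * C₄) x y (Nat.pair w z) hx hy
        (by omega)
      have hle : C₂ * (s + 3 * C₄) + er C₂ ν ≤ e := by
        rw [he]
        exact Nat.add_le_add (Nat.mul_le_mul_right _ (by omega)) (er_mono_left ν (by omega))
      exact ⟨v, by omega, by omega, by omega, by omega, by omega, by omega, by omega⟩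
  obtain ⟨v, hv⟩ := key
  obtain ⟨v', hv'⟩ := h3 ν s e x y z w v hx hy hw1 hw2 hv
  refine ⟨v', q4_mono hv' ?_⟩
  have g1 : C₃ * e ≤ C₃ * (D * u) := Nat.mul_le_mul_left _ heD
  have g2 := hcs C₃
  have g3 : K * u = C₃ * (D * u) + C₃ * u := by
    rw [hK]
    ring
  rw [hcs K, g3, ← g2]
  omega

/-- PROOF. `common_exact` with `ν = n`, `er_log`, `abs_sub_le_iff`, casts (as `main3` in file S5 of H52K). -/
theorem main_common : ∃ C, ∀ n s x y z w : ℕ, KS x 0 ≤ n → KS y 0 ≤ n →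
    KS w (Nat.pair x z) ≤ s → KS w (Nat.pair y z) ≤ s →
    (KS x (Nat.pair z w) + KS y (Nat.pair z w) ≤ KS (Nat.pair x y) (Nat.pair z w) + s ∨
      KS x 0 + KS y 0 + KS (Nat.pair x y) (Nat.pair z w) ≤
        KS x (Nat.pair z w) + KS y (Nat.pair z w) + KS (Nat.pair x y) 0 + s) →
    ∃ z' : ℕ,
      |(KS x z : ℤ) - (KS x z' : ℤ)| ≤ ((C * Nat.log 2 n + C * s + C : ℕ) : ℤ) ∧
      |(KS y z : ℤ) - (KS y z' : ℤ)| ≤ ((C * Nat.log 2 n + C * s + C : ℕ) : ℤ) ∧
      |(KS (Nat.pair x y) z : ℤ) - (KS (Nat.pair x y) z' : ℤ)|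
        ≤ ((C * Nat.log 2 n + C * s + C : ℕ) : ℤ) ∧
      KS z' (Nat.pair x y) ≤ C * Nat.log 2 n + C * s + C := by
  obtain ⟨C, h⟩ := common_exact
  refine ⟨2 * C, fun n s x y z w hx hy hw1 hw2 hI => ?_⟩
  obtain ⟨v, a1, a2, a3, a4, a5, a6, a7⟩ := h n s x y z w hx hy hw1 hw2 hI
  have e := er_log C n
  have e2 : C * s ≤ 2 * C * s := Nat.mul_le_mul_right s (by omega)
  refine ⟨v, ?_, ?_, ?_, by omega⟩
  · rw [abs_le]
    omega
  · rw [abs_le]
    omega
  · rw [abs_le]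
    omega

end Pool.Agent.Lib.H96K
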